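import Pool.Agent.E8helper3.PT.Stm

/-! The Wronskian of polynomials of distinct degrees is not zero. -/

set_option autoImplicit false

namespace Pool.Agent.E8helper91.PT
open Polynomial Module Pool.Agent.E8helper3.PT

theorem coeff_Xk (g : ℚ[X]) (k n : ℕ) :
    (X ^ k * derivative^[k] g).coeff n = (n.descFactorial k : ℚ) * g.coeff n := by
  rw [coeff_X_pow_mul']
  split_ifs with h
  · rw [coeff_iterate_derivative, Nat.sub_add_cancel h, nsmul_eq_mul]
  · rw [Nat.descFactorial_eq_zero_iff_lt.mpr (not_le.mp h)]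
    simp

theorem natDegree_Xk (g : ℚ[X]) (k : ℕ) :
    (X ^ k * derivative^[k] g).natDegree ≤ g.natDegree := by
  rw [natDegree_le_iff_coeff_eq_zero]
  intro n hn
  rw [coeff_Xk, coeff_eq_zero_of_natDegree_lt hn, mul_zero]

theorem wr : S_WR := by
  intro d g hg hinj hdet
  obtain ⟨c, hc, hM⟩ := Matrix.exists_mulVec_eq_zero_iff.mpr hdet
  have hk : ∀ k : Fin d, ∑ j, derivative^[(k:ℕ)] (g j) * c j = 0 := fun k => by
    have := congrFun hM k
    simpa [Matrix.mulVec, dotProduct] using this
  obtain ⟨j1, hj1⟩ := Function.ne_iff.mp hc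
  let S : Finset (Fin d) := Finset.univ.filter (fun j => c j ≠ 0)
  have hS : S.Nonempty := ⟨j1, by simpa [S] using hj1⟩
  obtain ⟨j0, hj0, hmax⟩ := S.exists_max_image (fun j => (g j).natDegree + (c j).natDegree) hS
  let m : ℕ := (g j0).natDegree + (c j0).natDegree
  let a : Fin d → ℚ := fun j => if c j ≠ 0 ∧ (g j).natDegree + (c j).natDegree = m then
    (g j).leadingCoeff * (c j).leadingCoeff else 0
  have key : ∀ k : Fin d, ∀ j, (X ^ (k:ℕ) * derivative^[(k:ℕ)] (g j) * c j).coeff m =
      a j * (((g j).natDegree.descFactorial k : ℕ) : ℚ) := by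
    intro k j
    by_cases h0 : c j = 0
    · simp [a, h0]
    · by_cases h1 : (g j).natDegree + (c j).natDegree = m
      · rw [← h1, coeff_mul_add_eq_of_natDegree_le (natDegree_Xk _ _) le_rfl, coeff_Xk]
        simp only [a, h0, h1, ne_eq, not_false_iff, and_self, if_true]
        rw [leadingCoeff, leadingCoeff]
        ring
      · have h2 : (g j).natDegree + (c j).natDegree < m :=
          lt_of_le_of_ne (hmax j (by simpa [S] using h0)) h1
        rw [coeff_eq_zero_of_natDegree_lt]
        · simp [a, h1]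
        · exact lt_of_le_of_lt natDegree_mul_le
            (lt_of_le_of_lt (Nat.add_le_add_right (natDegree_Xk _ _) _) h2)
  have hsum : ∀ k : Fin d, ∑ j, a j * (((g j).natDegree.descFactorial k : ℕ) : ℚ) = 0 := by
    intro k
    have h1 : (∑ j, X ^ (k:ℕ) * derivative^[(k:ℕ)] (g j) * c j).coeff m = 0 := by
      have : ∑ j, X ^ (k:ℕ) * derivative^[(k:ℕ)] (g j) * c j =
          X ^ (k:ℕ) * ∑ j, derivative^[(k:ℕ)] (g j) * c j := by
        rw [Finset.mul_sum]
        exact Finset.sum_congr rfl fun j _ => by ring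
      rw [this, hk k, mul_zero, coeff_zero]
    rw [finsetSum_coeff] at h1
    rw [← h1]
    exact Finset.sum_congr rfl fun j _ => (key k j).symm
  have hdet2 : (Matrix.of fun i j : Fin d =>
      (descPochhammer ℚ (j:ℕ)).eval (((g i).natDegree : ℕ) : ℚ)).det ≠ 0 := by
    rw [← Matrix.det_eval_matrixOfPolynomials_eq_det_vandermonde
      (fun i : Fin d => (((g i).natDegree : ℕ) : ℚ)) (fun j : Fin d => descPochhammer ℚ (j:ℕ))
      (fun i => descPochhammer_natDegree _ _) (fun i => monic_descPochhammer ℚ _)]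
    rw [Matrix.det_vandermonde_ne_zero_iff]
    intro i j hij
    have hij' : (((g i).natDegree : ℕ) : ℚ) = (((g j).natDegree : ℕ) : ℚ) := hij
    exact hinj (Nat.cast_injective hij')
  have ha : a = 0 := by
    refine Matrix.eq_zero_of_vecMul_eq_zero hdet2 ?_
    funext k
    rw [Pi.zero_apply, ← hsum k]
    simp only [Matrix.vecMul, dotProduct, Matrix.of_apply]
    refine Finset.sum_congr rfl fun j _ => ?_
    rw [descPochhammer_eval_eq_descFactorial]
  have h3 : a j0 ≠ 0 := by
    have h4 : c j0 ≠ 0 := by simpa [S] using hj0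
    simp only [a, h4, ne_eq, not_false_iff, true_and]
    rw [if_pos rfl]
    exact mul_ne_zero (leadingCoeff_ne_zero.mpr (hg j0)) (leadingCoeff_ne_zero.mpr h4)
  exact h3 (congrFun ha j0)

end Pool.Agent.E8helper91.PT
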