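import Pool.Agent.E8helper91.PT.T7

set_option autoImplicit false

/-!
# Numerical lemmas at a good scale, part one
-/

open Finset Filter
open scoped Real

namespace Pool.Agent.E8helper91.PT

open Pool.Agent.R521.F6

lemma expy_ge {D l y : ℝ} {w : ℕ} (h : Par D l y w) : 16 * l ≤ Real.exp (y / 2) := by
  have hlge := h.l_ge
  have hl1 := h.hl
  have hy30 := h.yl2
  have h1 := Real.add_one_le_exp (y / 2)
  have h2 : 30 * 144 * l ≤ l * l := mul_le_mul_of_nonneg_right hlge (by linarith only [hl1])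
  have h3 := Real.quadratic_le_exp_of_nonneg (by linarith only [hy30, hl1] : 0 ≤ y / 2)
  have h4 : l * l ≤ (y / 2) ^ 2 / 2 := by nlinarith only [hy30, hl1]
  have h5 : 0 ≤ y / 2 := by linarith only [hy30, hl1]
  linarith only [h2, h3, h4, h5, hl1]

lemma lm_eq {l : ℝ} (hl : 1 ≤ l) {m A : ℕ} (hm : m = 4 * (A + 1) + 19) :
    l ^ 7 / l ^ m = 1 / (l ^ 12 * l ^ (4 * A + 4)) := by
  have h0 : 0 < l := by linarith only [hl]
  rw [hm, div_eq_div_iff (by positivity) (by positivity)]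
  ring

/-- the error of the sieve is small -/
lemma gen_err {l C1 v q ε X : ℝ} {A m : ℕ} (hl : 1 ≤ l) (hC1 : 1 ≤ C1) (hC1l : 16 * C1 ^ 2 ≤ l)
    (hm : m = 4 * (A + 1) + 19) (hX0 : 16 * l ≤ X) (hv1 : 1 ≤ v) (hv : v ≤ C1 * l) (hq0 : 0 ≤ q)
    (hq : q ≤ X * (l ^ 7 / l ^ m)) (hεl : 1 / (4 * l) ≤ ε) : 1 + v ^ 2 * q ≤ ε * (X - 1) := by
  have hl0 : 0 < l := by linarith only [hl]
  have hXp : 0 < X := by linarith only [hX0, hl]
  have h2 : v ^ 2 ≤ (C1 * l) ^ 2 := pow_le_pow_left₀ (by linarith only [hv1]) hv 2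
  have h3 : v ^ 2 * q ≤ (C1 * l) ^ 2 * (X * (l ^ 7 / l ^ m)) := mul_le_mul h2 hq hq0 (by positivity)
  have h4 : (C1 * l) ^ 2 * (X * (l ^ 7 / l ^ m)) ≤ X / (16 * l) := by
    rw [lm_eq hl hm, le_div_iff₀ (by positivity)]
    have e : (C1 * l) ^ 2 * (X * (1 / (l ^ 12 * l ^ (4 * A + 4)))) * (16 * l) =
        X * ((16 * C1 ^ 2) / l) * (l ^ 4 / (l ^ 12 * l ^ (4 * A + 4))) := by
      field_simp
    rw [e]
    have h5 : (16 * C1 ^ 2) / l ≤ 1 := by
      rw [div_le_one hl0]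
      exact hC1l
    have h6 : l ^ 4 / (l ^ 12 * l ^ (4 * A + 4)) ≤ 1 := by
      rw [div_le_one (by positivity)]
      have a1 : l ^ 4 ≤ l ^ 12 := pow_le_pow_right₀ hl (by norm_num)
      have a2 : 1 ≤ l ^ (4 * A + 4) := one_le_pow₀ hl
      calc l ^ 4 ≤ l ^ 12 * 1 := by rw [mul_one]; exact a1
        _ ≤ _ := mul_le_mul_of_nonneg_left a2 (by positivity)
    calc X * ((16 * C1 ^ 2) / l) * (l ^ 4 / (l ^ 12 * l ^ (4 * A + 4))) ≤ X * 1 * 1 := by
          apply mul_le_mul _ h6 (by positivity) (by positivity)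
          exact mul_le_mul_of_nonneg_left h5 hXp.le
      _ = X := by ring
  have h7 : ε * (X - 1) ≥ 1 / (4 * l) * (X - 1) :=
    mul_le_mul_of_nonneg_right hεl (by linarith only [hX0, hl])
  have h8 : 1 / (4 * l) * (X - 1) ≥ X / (8 * l) := by
    rw [ge_iff_le, div_le_iff₀ (by positivity)]
    have e : 1 / (4 * l) * (X - 1) * (8 * l) = 2 * (X - 1) := by field_simp; ring
    rw [e]
    linarith only [hX0, hl]
  have h9 : 1 ≤ X / (16 * l) := by
    rw [le_div_iff₀ (by positivity)]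
    linarith only [hX0]
  have e2 : X / (8 * l) = X / (16 * l) + X / (16 * l) := by
    field_simp
    norm_num
  linarith only [h3, h4, h7, h8, h9, e2]

/-- the consequences of the bound for the sieve error for the sums over the sifted set -/
lemma serr_conseq {s vQ VQ Vw ε H : ℝ} (hs0 : 0 ≤ s) (hVQ : vQ = VQ⁻¹) (hVQ0 : 0 < VQ) (hv1 : 1 ≤ vQ)
    (hVwQ : VQ ≤ Vw) (hε0 : 0 ≤ ε) (hcl1 : 1 + vQ ^ 2 * s ≤ ε * (H + 1 - 1)) :
    s ≤ ε * ((H + 1) * Vw) ∧ Vw * vQ * s ≤ ε * ((H + 1) * Vw) := by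
  have hVw : 0 < Vw := by linarith only [hVQ0, hVwQ]
  have hse : s * vQ ^ 2 ≤ ε * (H + 1) := by linarith only [hcl1, hε0]
  have hse1 : s * vQ ≤ ε * (H + 1) := by
    refine le_trans ?_ hse
    apply mul_le_mul_of_nonneg_left _ hs0
    nlinarith only [hv1]
  constructor
  · have h1 : 1 ≤ vQ * Vw := by
      rw [hVQ, inv_mul_eq_div, le_div_iff₀ hVQ0]
      linarith only [hVwQ]
    calc s = s * 1 := (mul_one _).symm
      _ ≤ s * (vQ * Vw) := mul_le_mul_of_nonneg_left h1 hs0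
      _ = (s * vQ) * Vw := by ring
      _ ≤ (ε * (H + 1)) * Vw := mul_le_mul_of_nonneg_right hse1 hVw.le
      _ = _ := by ring
  · calc _ = (s * vQ) * Vw := by ring
      _ ≤ (ε * (H + 1)) * Vw := mul_le_mul_of_nonneg_right hse1 hVw.le
      _ = _ := by ring

lemma part1a {k l y H V ρ σ C6 P : ℝ} {A : ℕ} (hl : 1 ≤ l) (hk0 : 0 ≤ k) (hkl : k ≤ l) (hly : l ≤ y)
    (hC6 : 1 ≤ C6) (hCl : 24 * C6 ≤ l) (hρ0 : 0 ≤ ρ) (hV0 : 0 ≤ V)
    (hVρ : V * ρ * √H ≤ 3 * C6 * l ^ 3) (hσ : σ = 1 / y ^ (2 * (A + 1) + 5)) (hP : P = l ^ (A + 1)) :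
    k * (2 * (ρ * (V * (√H * σ)))) ≤ 1 / (4 * P ^ 2) := by
  have hl0 : 0 < l := by linarith only [hl]
  have hy0 : 0 < y := by linarith only [hl, hly]
  have hσ0 : 0 ≤ σ := by rw [hσ]; positivity
  have h1 : ρ * (V * (√H * σ)) ≤ 3 * C6 * l ^ 3 * σ := by
    have := mul_le_mul_of_nonneg_right hVρ hσ0
    linarith only [this]
  have h2 : σ ≤ 1 / l ^ (2 * (A + 1) + 5) := by
    rw [hσ]
    apply one_div_le_one_div_of_le (by positivity)
    exact pow_le_pow_left₀ (by linarith only [hl]) hly _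
  have h3 : k * (2 * (ρ * (V * (√H * σ)))) ≤ l * (2 * (3 * C6 * l ^ 3 * (1 / l ^ (2 * (A + 1) + 5)))) := by
    apply mul_le_mul hkl _ (by positivity) (by linarith only [hl])
    apply mul_le_mul_of_nonneg_left _ (by norm_num)
    refine h1.trans ?_
    exact mul_le_mul_of_nonneg_left h2 (by positivity)
  refine h3.trans ?_
  have e : l * (2 * (3 * C6 * l ^ 3 * (1 / l ^ (2 * (A + 1) + 5)))) = (24 * C6 / l) * (1 / (4 * P ^ 2)) := by
    rw [hP]
    field_simp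
    ring
  rw [e]
  apply mul_le_of_le_one_left (by positivity)
  rw [div_le_one hl0]
  exact hCl

lemma theta_le {l y H V v vz s z C1 C6 P C1' : ℝ} {A m B : ℕ} (hl : 1 ≤ l) (hy0 : 0 ≤ y) (hyl2 : y ≤ l ^ 2)
    (hH0 : 0 ≤ H) (hV0 : 0 ≤ V) (hv0 : 0 ≤ v) (hvz0 : 0 ≤ vz) (hvz : vz ≤ v) (hv : v ≤ C1 * l) (hs0 : 0 ≤ s)
    (hm : m = 4 * (A + 1) + 19) (hB : B = 4 * (A + 1) + 13) (hC1 : 1 ≤ C1) (hC6 : 1 ≤ C6)
    (hs : s ≤ (H + 1) * (l ^ 7 / l ^ m)) (hP : P = l ^ (A + 1)) (hz : l ^ B ≤ z)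
    (hC1l : 16 * C1 ^ 2 ≤ l) (hC6l : 2304 * C6 ^ 2 ≤ l)
    (hC1d : C1' = V * vz * ((H + 1) * V) * (8 * y / z) + 4 * (V ^ 2 * v ^ 2 * s)) :
    √C1' ≤ (V * √(H + 1)) * (1 / (48 * C6 * l ^ 4 * P ^ 2)) := by
  have hl0 : 0 < l := by linarith only [hl]
  have hP0 : 0 < P := by rw [hP]; positivity
  have hC10 : 0 < C1 := by linarith only [hC1]
  have hC60 : 0 < C6 := by linarith only [hC6]
  have hH1 : 0 < H + 1 := by linarith only [hH0]
  have hser : 4 * (V ^ 2 * v ^ 2 * s) ≤ V ^ 2 * (H + 1) * (1 / (2 * (l ^ 9 * P ^ 4))) := by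
    have h1 : v ^ 2 ≤ (C1 * l) ^ 2 := pow_le_pow_left₀ hv0 hv 2
    have h2 : v ^ 2 * s ≤ (C1 * l) ^ 2 * ((H + 1) * (l ^ 7 / l ^ m)) :=
      mul_le_mul h1 hs hs0 (by positivity)
    have h3 : 4 * ((C1 * l) ^ 2 * (l ^ 7 / l ^ m)) ≤ 1 / (2 * (l ^ 9 * P ^ 4)) := by
      rw [lm_eq hl hm]
      have e : 4 * ((C1 * l) ^ 2 * (1 / (l ^ 12 * l ^ (4 * A + 4)))) =
          (8 * C1 ^ 2 / l) * (1 / (2 * (l ^ 9 * P ^ 4))) := by
        rw [hP]
        field_simp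
        ring
      rw [e]
      apply mul_le_of_le_one_left (by positivity)
      rw [div_le_one hl0]
      have : 0 ≤ C1 ^ 2 := sq_nonneg _
      linarith only [hC1l, this]
    calc 4 * (V ^ 2 * v ^ 2 * s) = V ^ 2 * (4 * (v ^ 2 * s)) := by ring
      _ ≤ V ^ 2 * (4 * ((C1 * l) ^ 2 * ((H + 1) * (l ^ 7 / l ^ m)))) := by
          apply mul_le_mul_of_nonneg_left _ (sq_nonneg _)
          exact mul_le_mul_of_nonneg_left h2 (by norm_num)
      _ = V ^ 2 * (H + 1) * (4 * ((C1 * l) ^ 2 * (l ^ 7 / l ^ m))) := by ring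
      _ ≤ _ := mul_le_mul_of_nonneg_left h3 (by positivity)
  have hzp : 0 < z := lt_of_lt_of_le (by positivity) hz
  have hfir : V * vz * ((H + 1) * V) * (8 * y / z) ≤ V ^ 2 * (H + 1) * (1 / (2 * (l ^ 9 * P ^ 4))) := by
    have h1 : vz * (8 * y / z) ≤ (C1 * l) * (8 * l ^ 2 / l ^ B) := by
      apply mul_le_mul (hvz.trans hv) _ (by positivity) (by positivity)
      apply div_le_div₀ (by positivity) _ (by positivity) hz
      linarith only [hyl2]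
    have h2 : (C1 * l) * (8 * l ^ 2 / l ^ B) = (16 * C1 / l) * (1 / (2 * (l ^ 9 * P ^ 4))) := by
      rw [hP, hB]
      field_simp
      ring
    have h3 : 16 * C1 / l ≤ 1 := by
      rw [div_le_one hl0]
      nlinarith only [hC1l, hC1]
    calc V * vz * ((H + 1) * V) * (8 * y / z) = V ^ 2 * (H + 1) * (vz * (8 * y / z)) := by ring
      _ ≤ V ^ 2 * (H + 1) * ((16 * C1 / l) * (1 / (2 * (l ^ 9 * P ^ 4)))) := by
          rw [← h2]
          exact mul_le_mul_of_nonneg_left h1 (by positivity)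
      _ ≤ V ^ 2 * (H + 1) * (1 * (1 / (2 * (l ^ 9 * P ^ 4)))) := by
          apply mul_le_mul_of_nonneg_left _ (by positivity)
          exact mul_le_mul_of_nonneg_right h3 (by positivity)
      _ = _ := by rw [one_mul]
  have hsum : C1' ≤ V ^ 2 * (H + 1) * (1 / (l ^ 9 * P ^ 4)) := by
    rw [hC1d]
    have e : V ^ 2 * (H + 1) * (1 / (l ^ 9 * P ^ 4)) =
        V ^ 2 * (H + 1) * (1 / (2 * (l ^ 9 * P ^ 4))) + V ^ 2 * (H + 1) * (1 / (2 * (l ^ 9 * P ^ 4))) := by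
      field_simp
      norm_num
    rw [e]
    exact add_le_add hfir hser
  rw [Real.sqrt_le_iff]
  refine ⟨by positivity, hsum.trans ?_⟩
  have e : ((V * √(H + 1)) * (1 / (48 * C6 * l ^ 4 * P ^ 2))) ^ 2 =
      V ^ 2 * (√(H + 1)) ^ 2 * (1 / (2304 * C6 ^ 2 * (l ^ 8 * P ^ 4))) := by
    field_simp
    norm_num
  rw [e, Real.sq_sqrt hH1.le]
  apply mul_le_mul_of_nonneg_left _ (by positivity)
  apply one_div_le_one_div_of_le (by positivity)
  calc 2304 * C6 ^ 2 * (l ^ 8 * P ^ 4) ≤ l * (l ^ 8 * P ^ 4) :=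
        mul_le_mul_of_nonneg_right hC6l (by positivity)
    _ = _ := by ring

lemma part1b {k l H V ρ C6 P c : ℝ} (hl : 1 ≤ l) (hk0 : 0 ≤ k) (hkl : k ≤ l) (hH : 1 ≤ H)
    (hC6 : 1 ≤ C6) (hρ0 : 0 ≤ ρ) (hV0 : 0 ≤ V) (hP0 : 0 < P)
    (hVρ : V * ρ * √H ≤ 3 * C6 * l ^ 3) (hθ : c ≤ (V * √(H + 1)) * (1 / (48 * C6 * l ^ 4 * P ^ 2)))
    (hc : 0 ≤ c) : k * (2 * (ρ * c)) ≤ 1 / (4 * P ^ 2) := by
  have hl0 : 0 < l := by linarith only [hl]
  have hC60 : 0 < C6 := by linarith only [hC6]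
  have hsq : √(H + 1) ≤ 2 * √H := by
    rw [Real.sqrt_le_iff]
    refine ⟨by positivity, ?_⟩
    rw [mul_pow, Real.sq_sqrt (by linarith only [hH])]
    linarith only [hH]
  have h1 : ρ * c ≤ (6 * C6 * l ^ 3) * (1 / (48 * C6 * l ^ 4 * P ^ 2)) := by
    calc ρ * c ≤ ρ * ((V * √(H + 1)) * (1 / (48 * C6 * l ^ 4 * P ^ 2))) :=
          mul_le_mul_of_nonneg_left hθ hρ0
      _ ≤ ρ * ((V * (2 * √H)) * (1 / (48 * C6 * l ^ 4 * P ^ 2))) := by
          apply mul_le_mul_of_nonneg_left _ hρ0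
          apply mul_le_mul_of_nonneg_right _ (by positivity)
          exact mul_le_mul_of_nonneg_left hsq hV0
      _ = (2 * (V * ρ * √H)) * (1 / (48 * C6 * l ^ 4 * P ^ 2)) := by ring
      _ ≤ (6 * C6 * l ^ 3) * (1 / (48 * C6 * l ^ 4 * P ^ 2)) := by
          apply mul_le_mul_of_nonneg_right _ (by positivity)
          linarith only [hVρ]
  have e : (6 * C6 * l ^ 3) * (1 / (48 * C6 * l ^ 4 * P ^ 2)) = 1 / (8 * l * P ^ 2) := by
    field_simp
    norm_num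
  rw [e] at h1
  calc k * (2 * (ρ * c)) ≤ l * (2 * (1 / (8 * l * P ^ 2))) := by
        apply mul_le_mul hkl _ (by positivity) (by linarith only [hl])
        linarith only [h1]
    _ = 1 / (4 * P ^ 2) := by
        field_simp
        norm_num

end Pool.Agent.E8helper91.PT
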