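import Pool.Agent.E8helper91.PT.N1

set_option autoImplicit false

/-!
# Numerical lemmas at a good scale, part two
-/

open Finset Filter
open scoped Real

namespace Pool.Agent.E8helper91.PT

open Pool.Agent.R521.F6

lemma poly_exp {D l y w : ℝ} (h : Par D l y w) {n j : ℕ} (hn : 20 * (n : ℝ) ≤ D) (hj : j ≤ n) :
    l ^ j ≤ Real.exp (l / 100) := by
  rw [pow_exp h]
  apply Real.exp_le_exp.2
  have hj' : (j : ℝ) ≤ n := by exact_mod_cast hj
  exact log_small h (Nat.cast_nonneg _) (by linarith only [hj', hn])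

lemma pow4_exp {l : ℝ} (hl : 1 ≤ l) : l ^ 4 ≤ Real.exp (4 * l) := by
  have : l ≤ Real.exp l := by linarith only [Real.add_one_le_exp l]
  calc l ^ 4 ≤ (Real.exp l) ^ 4 := pow_le_pow_left₀ (by linarith only [hl]) this 4
    _ = _ := by
      rw [← Real.exp_nat_mul]
      norm_num

/-- lower bound for the right side -/
lemma hST_le {l H S t V W C1 v : ℝ} (hl : 1 ≤ l) (hC1 : 1 ≤ C1) (hH : 0 < H) (hV : 0 < V) (hW : 1 ≤ W)
    (hvV : V⁻¹ ≤ v) (hv : v ≤ C1 * l) (hS : (H + 1) * V / 2 ≤ S) (hS0 : 0 < S) (ht : H / 2 ≤ t * W) :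
    H / (4 * (W * (C1 * l))) ≤ √S * √t := by
  have hl0 : 0 < l := by linarith only [hl]
  have hC10 : 0 < C1 := by linarith only [hC1]
  have hW0 : 0 < W := by linarith only [hW]
  rw [← Real.sqrt_mul hS0.le]
  apply Real.le_sqrt_of_sq_le
  have hVwl : 1 / (C1 * l) ≤ V := by
    rw [div_le_iff₀ (by positivity)]
    have h4 : V⁻¹ ≤ C1 * l := hvV.trans hv
    rw [inv_le_iff_one_le_mul₀ hV] at h4
    linarith only [h4]
  have h1 : H * (1 / (C1 * l)) / 2 ≤ S := by
    refine le_trans ?_ hS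
    apply div_le_div_of_nonneg_right _ (by norm_num)
    exact mul_le_mul (by linarith only) hVwl (by positivity) (by positivity)
  have h2 : H / (2 * W) ≤ t := by
    rw [div_le_iff₀ (by positivity)]
    linarith only [ht]
  have hx1 : 1 ≤ W * (C1 * l) := by
    have : 1 ≤ C1 * l := by nlinarith only [hC1, hl]
    nlinarith only [hW, this]
  calc (H / (4 * (W * (C1 * l)))) ^ 2 =
        (H * (1 / (C1 * l)) / 2) * (H / (2 * W)) * (1 / (4 * (W * (C1 * l)))) := by
        field_simp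
        norm_num
    _ ≤ (H * (1 / (C1 * l)) / 2) * (H / (2 * W)) * 1 := by
        apply mul_le_mul_of_nonneg_left _ (by positivity)
        rw [div_le_one (by positivity)]
        linarith only [hx1]
    _ ≤ S * t := by
        rw [mul_one]
        exact mul_le_mul h1 h2 (by positivity) hS0.le

/-- the second part of the difference -/
lemma main2_le {D l y H S t V W C1 Cb P C0 v β0 q U ε w : ℝ} {k A : ℕ} (hPar : Par D l y w)
    (hk0 : (k : ℝ) ≤ l) (hyl2 : y ≤ l ^ 2) (hy0 : 0 ≤ y) (hC1 : 1 ≤ C1) (hCb0 : 0 ≤ Cb) (hH : 0 < H)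
    (hV : 0 < V) (hV1 : V ≤ 1) (hW : 1 ≤ W) (hvV : V⁻¹ ≤ v) (hv : v ≤ C1 * l) (hv0 : 0 ≤ v)
    (hS : (H + 1) * V / 2 ≤ S) (hS0 : 0 < S) (ht : H / 2 ≤ t * W) (ht3 : Real.exp (28 * l) ≤ t)
    (hP : P = l ^ (A + 1)) (hU0 : 0 ≤ U) (hU : U ≤ Real.exp (3 * (l / D)))
    (hWl : W ≤ Real.exp (2 * (l / D))) (hε0 : 0 ≤ ε) (hε2 : ε ≤ 1 / 2)
    (d17 : 20 * (2 * (A : ℝ) + 30) ≤ D) (d12 : 16 * Cb * C1 ≤ l) (d18 : 32 * C1 ≤ l)
    (hq : q = Real.exp (l / 2)) (hβ0 : β0 = Cb * y ^ 8 * (H / q))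
    (hC0 : C0 = 2 * (v * ((H + 1) * V * (1 + ε)))) :
    k * (V * β0 + √C0) * U * W ≤ (1 / (2 * P ^ 2)) * (√S * √t) := by
  have hl := hPar.hl
  have hl0 : 0 < l := by linarith only [hl]
  have hlge := hPar.l_ge
  have hC10 : 0 < C1 := by linarith only [hC1]
  have hW0 : 0 < W := by linarith only [hW]
  have hP0 : 0 < P := by rw [hP]; positivity
  have hk00 : (0 : ℝ) ≤ k := Nat.cast_nonneg _
  have hq0 : 0 < q := by rw [hq]; exact Real.exp_pos _
  have hlD : l / D ≤ l / 30 := div_le_div_of_nonneg_left hl0.le (by norm_num) hPar.hD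
  have hpoly : ∀ j : ℕ, j ≤ 2 * A + 30 → l ^ j ≤ Real.exp (l / 100) := by
    intro j hj
    apply poly_exp hPar (n := 2 * A + 30) _ hj
    push_cast
    exact d17
  have hcomb : U * W ≤ Real.exp (l / 6) := by
    calc U * W ≤ Real.exp (3 * (l / D)) * Real.exp (2 * (l / D)) :=
          mul_le_mul hU hWl hW0.le (Real.exp_pos _).le
      _ = Real.exp (3 * (l / D) + 2 * (l / D)) := (Real.exp_add _ _).symm
      _ ≤ _ := Real.exp_le_exp.2 (by linarith only [hlD])
  have hWl6 : W ≤ Real.exp (l / 6) := by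
    refine hWl.trans (Real.exp_le_exp.2 ?_)
    linarith only [hlD, hl]
  have hST := hST_le hl hC1 hH hV hW hvV hv hS hS0 ht
  have hi : k * (V * β0) * U * W ≤ (1 / (4 * P ^ 2)) * (√S * √t) := by
    refine le_trans ?_ (mul_le_mul_of_nonneg_left hST (by positivity))
    have e : (1 / (4 * P ^ 2)) * (H / (4 * (W * (C1 * l)))) = H / (16 * P ^ 2 * (W * (C1 * l))) := by
      field_simp
      norm_num
    rw [e, le_div_iff₀ (by positivity)]
    have h1 : k * (V * β0) * U * W * (16 * P ^ 2 * (W * (C1 * l))) =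
        H * ((16 * Cb * C1) * k * y ^ 8 * l * P ^ 2 * V * (U * W) * W) / q := by
      rw [hβ0]
      ring
    rw [h1, div_le_iff₀ hq0]
    apply mul_le_mul_of_nonneg_left _ hH.le
    have h2 : (16 * Cb * C1) * k * y ^ 8 * l * P ^ 2 ≤ l ^ (2 * A + 21) := by
      have a2 : y ^ 8 ≤ (l ^ 2) ^ 8 := pow_le_pow_left₀ hy0 hyl2 8
      calc (16 * Cb * C1) * k * y ^ 8 * l * P ^ 2 ≤ l * l * (l ^ 2) ^ 8 * l * P ^ 2 := by
            apply mul_le_mul_of_nonneg_right _ (by positivity)
            apply mul_le_mul_of_nonneg_right _ hl0.le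
            apply mul_le_mul _ a2 (by positivity) (by positivity)
            exact mul_le_mul d12 hk0 hk00 hl0.le
        _ = _ := by
            rw [hP]
            ring
    calc (16 * Cb * C1) * k * y ^ 8 * l * P ^ 2 * V * (U * W) * W ≤
          Real.exp (l / 100) * 1 * Real.exp (l / 6) * Real.exp (l / 6) := by
          apply mul_le_mul _ hWl6 hW0.le (by positivity)
          apply mul_le_mul _ hcomb (by positivity) (by positivity)
          apply mul_le_mul (h2.trans (hpoly _ (by omega))) hV1 hV.le (Real.exp_pos _).le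
      _ = Real.exp (l / 100 + l / 6 + l / 6) := by
          rw [mul_one, ← Real.exp_add, ← Real.exp_add]
      _ ≤ q := by
          rw [hq]
          exact Real.exp_le_exp.2 (by linarith only [hl])
  have hii : k * √C0 * U * W ≤ (1 / (4 * P ^ 2)) * (√S * √t) := by
    have hC0S : √C0 ≤ (8 * C1 * l) * √S := by
      have h1 : C0 ≤ (8 * C1 * l) * S := by
        rw [hC0]
        have h2 : (H + 1) * V * (1 + ε) ≤ 4 * S := by
          have h3 : (H + 1) * V * (1 + ε) ≤ (H + 1) * V * 2 :=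
            mul_le_mul_of_nonneg_left (by linarith only [hε2]) (by positivity)
          linarith only [h3, hS]
        have h3 := mul_le_mul hv h2 (by positivity) (by positivity)
        linarith only [h3]
      rw [Real.sqrt_le_iff]
      refine ⟨by positivity, h1.trans ?_⟩
      rw [mul_pow, Real.sq_sqrt hS0.le]
      apply mul_le_mul_of_nonneg_right _ hS0.le
      have : 1 ≤ 8 * C1 * l := by nlinarith only [hC1, hl]
      nlinarith only [this]
    have h1 : Real.exp (14 * l) ≤ √t := by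
      apply Real.le_sqrt_of_sq_le
      rw [← Real.exp_nat_mul]
      refine le_trans (Real.exp_le_exp.2 ?_) ht3
      push_cast
      linarith only
    have h2 : k * (8 * C1 * l) * (U * W) ≤ (1 / (4 * P ^ 2)) * √t := by
      refine le_trans ?_ (mul_le_mul_of_nonneg_left h1 (by positivity))
      rw [one_div_mul_eq_div, le_div_iff₀ (by positivity)]
      have h3 : k * (8 * C1 * l) * (4 * P ^ 2) ≤ l ^ (2 * A + 5) := by
        calc k * (8 * C1 * l) * (4 * P ^ 2) = (32 * C1) * k * l * P ^ 2 := by ring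
          _ ≤ l * l * l * P ^ 2 := by
              apply mul_le_mul_of_nonneg_right _ (by positivity)
              apply mul_le_mul_of_nonneg_right _ hl0.le
              exact mul_le_mul d18 hk0 hk00 hl0.le
          _ = _ := by
              rw [hP]
              ring
      calc k * (8 * C1 * l) * (U * W) * (4 * P ^ 2) =
            (k * (8 * C1 * l) * (4 * P ^ 2)) * (U * W) := by ring
        _ ≤ Real.exp (l / 100) * Real.exp (l / 6) :=
            mul_le_mul (h3.trans (hpoly _ (by omega))) hcomb (by positivity) (Real.exp_pos _).le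
        _ = Real.exp (l / 100 + l / 6) := (Real.exp_add _ _).symm
        _ ≤ _ := Real.exp_le_exp.2 (by linarith only [hl])
    calc k * √C0 * U * W ≤ k * ((8 * C1 * l) * √S) * U * W := by
          apply mul_le_mul_of_nonneg_right _ hW0.le
          apply mul_le_mul_of_nonneg_right _ hU0
          exact mul_le_mul_of_nonneg_left hC0S hk00
      _ = √S * (k * (8 * C1 * l) * (U * W)) := by ring
      _ ≤ √S * ((1 / (4 * P ^ 2)) * √t) := mul_le_mul_of_nonneg_left h2 (Real.sqrt_nonneg _)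
      _ = _ := by ring
  have e : (1 / (2 * P ^ 2)) * (√S * √t) = (1 / (4 * P ^ 2)) * (√S * √t) + (1 / (4 * P ^ 2)) * (√S * √t) := by
    have e0 : 1 / (2 * P ^ 2) = 1 / (4 * P ^ 2) + 1 / (4 * P ^ 2) := by
      field_simp
      norm_num
    rw [e0]
    ring
  rw [e]
  refine le_trans (le_of_eq ?_) (add_le_add hi hii)
  ring

/-- `M (log 2H)^k ≤ τ` -/
lemma final_M {D l y H P W τ δ U w : ℝ} {A : ℕ} (hPar : Par D l y w) (hδ : 0 < δ)
    (hHe : H = Real.exp y) (hP : P = l ^ (A + 1)) (hW0 : 0 < W) (hWl : W ≤ Real.exp (2 * (l / D)))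
    (hU : U ≤ Real.exp (3 * (l / D))) (d17 : 20 * (2 * (A : ℝ) + 30) ≤ D) (d8 : 8 / δ ≤ D) (hU0 : 0 ≤ U)
    (hτ : τ = (1 / P) * (H / W) / 4) : H ^ (1 - δ) * U ≤ τ := by
  have hl := hPar.hl
  have hl0 : 0 < l := by linarith only [hl]
  have hlge := hPar.l_ge
  have hP0 : 0 < P := by rw [hP]; positivity
  have hA0 : (0 : ℝ) ≤ A := Nat.cast_nonneg _
  have hlD : l / D ≤ l / 30 := div_le_div_of_nonneg_left hl0.le (by norm_num) hPar.hD
  have h2 : H ^ (1 - δ) = Real.exp y * Real.exp (-(δ * y)) := by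
    rw [hHe, ← Real.exp_mul, ← Real.exp_add]
    congr 1
    ring
  have hPe : 4 * P ≤ Real.exp (l / 100) := by
    have h3 : 4 * P ≤ l ^ (A + 2) := by
      rw [hP, pow_succ l (A + 1)]
      rw [mul_comm]
      exact mul_le_mul_of_nonneg_left (by linarith only [hlge]) (by positivity)
    refine h3.trans ?_
    rw [pow_exp hPar]
    apply Real.exp_le_exp.2
    apply log_small hPar (Nat.cast_nonneg _)
    push_cast
    linarith only [d17, hA0]
  have h9 : 4 * P * W * (Real.exp (-(δ * y)) * U) ≤ 1 := by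
    calc 4 * P * W * (Real.exp (-(δ * y)) * U) ≤
          Real.exp (l / 100) * Real.exp (2 * (l / D)) * (Real.exp (-(δ * y)) * Real.exp (3 * (l / D))) := by
          apply mul_le_mul _ _ (by positivity) (by positivity)
          · exact mul_le_mul hPe hWl hW0.le (Real.exp_pos _).le
          · exact mul_le_mul_of_nonneg_left hU (Real.exp_pos _).le
      _ = Real.exp (l / 100 + 2 * (l / D) + (-(δ * y) + 3 * (l / D))) := by
          rw [← Real.exp_add, ← Real.exp_add, ← Real.exp_add]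
      _ ≤ Real.exp 0 := by
          apply Real.exp_le_exp.2
          have h11 : 8 * l ≤ δ * y := by
            have h12 : 8 ≤ δ * D := by
              rw [div_le_iff₀ hδ] at d8
              linarith only [d8]
            calc 8 * l ≤ (δ * D) * l := mul_le_mul_of_nonneg_right h12 hl0.le
              _ = δ * (D * l) := by ring
              _ ≤ δ * y := mul_le_mul_of_nonneg_left hPar.yl hδ.le
          linarith only [hlD, h11, hl]
      _ = 1 := Real.exp_zero
  rw [hτ, h2]
  have e : 1 / P * (H / W) / 4 = Real.exp y / (4 * P * W) := by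
    rw [hHe]
    field_simp
  rw [e, le_div_iff₀ (by positivity)]
  have h15 := mul_le_mul_of_nonneg_left h9 (Real.exp_pos y).le
  linarith only [h15]

/-- `2 k² ≤ |S|` -/
lemma final_k {D l y H S V C1 v w : ℝ} {k : ℕ} (hPar : Par D l y w) (hC1 : 1 ≤ C1) (hHe : H = Real.exp y)
    (hV : 0 < V) (hvV : V⁻¹ ≤ v) (hv : v ≤ C1 * l) (d6 : 16 * C1 ^ 2 ≤ l) (hkl : (k : ℝ) ≤ l)
    (hS : (H + 1) * V / 2 ≤ S) : ((2 * k ^ 2 : ℕ) : ℝ) ≤ S := by
  have hl := hPar.hl
  have hl0 : 0 < l := by linarith only [hl]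
  have hy30 := hPar.yl2
  have hC10 : 0 < C1 := by linarith only [hC1]
  have h3 : 1 ≤ C1 * l * V := by
    have h4 : V⁻¹ ≤ C1 * l := hvV.trans hv
    rw [inv_le_iff_one_le_mul₀ hV] at h4
    exact h4
  have h5 : 4 * C1 * l ^ 3 ≤ H := by
    rw [hHe]
    have h6 : 4 * C1 ≤ l := by nlinarith only [d6, hC1]
    calc 4 * C1 * l ^ 3 ≤ l * l ^ 3 := mul_le_mul_of_nonneg_right h6 (by positivity)
      _ = l ^ 4 := by ring
      _ ≤ Real.exp (4 * l) := pow4_exp hl
      _ ≤ _ := Real.exp_le_exp.2 (by linarith only [hy30, hl])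
  have h8 : (2 * (k : ℝ) ^ 2) * (2 * (C1 * l)) ≤ H := by
    have h10 : (k : ℝ) ^ 2 ≤ l ^ 2 := pow_le_pow_left₀ (Nat.cast_nonneg _) hkl 2
    calc (2 * (k : ℝ) ^ 2) * (2 * (C1 * l)) ≤ (2 * l ^ 2) * (2 * (C1 * l)) := by
          apply mul_le_mul_of_nonneg_right _ (by positivity)
          linarith only [h10]
      _ = 4 * C1 * l ^ 3 := by ring
      _ ≤ H := h5
  push_cast
  refine le_trans ?_ hS
  have h12 : (2 * (k : ℝ) ^ 2) * 1 ≤ (2 * (k : ℝ) ^ 2) * (C1 * l * V) :=
    mul_le_mul_of_nonneg_left h3 (by positivity)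
  have h13 : (2 * (k : ℝ) ^ 2) * (2 * (C1 * l)) * V ≤ H * V :=
    mul_le_mul_of_nonneg_right h8 hV.le
  linarith only [h12, h13, hV]

end Pool.Agent.E8helper91.PT
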