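import Pool.Agent.R521.F6.U5

set_option autoImplicit false

/-!
# The lower tail of the singular series: one step
-/

open Finset
open scoped Real

namespace Pool.Agent.E8helper91.PT

open Pool.Agent.R521.F6
open Pool.Agent.H373R2.T7 (pz Vz lamz mem_pz Vz_pos Vz_le_one count_sys card_pz_le)

/-- shift of the residues -/
lemma shift_card {p : ℕ} (hp : 0 < p) (P : ℕ → Prop) [DecidablePred P] :
    ((range p).filter (fun r => P ((r + (p - 1)) % p))).card = ((range p).filter P).card := by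
  apply card_bij (fun r _ => (r + (p - 1)) % p)
  · intro r hr
    rw [mem_filter, mem_range] at hr ⊢
    exact ⟨Nat.mod_lt _ hp, hr.2⟩
  · intro r hr r' hr' h
    rw [mem_filter, mem_range] at hr hr'
    have h1 : r + (p - 1) ≡ r' + (p - 1) [MOD p] := h
    have h2 := Nat.ModEq.add_right_cancel' (p - 1) h1
    unfold Nat.ModEq at h2
    rwa [Nat.mod_eq_of_lt hr.1, Nat.mod_eq_of_lt hr'.1] at h2
  · intro s hs
    rw [mem_filter, mem_range] at hs
    have key : ((s + 1) % p + (p - 1)) % p = s := by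
      rw [Nat.mod_add_mod, show s + 1 + (p - 1) = s + p by omega, Nat.add_mod_right,
        Nat.mod_eq_of_lt hs.1]
    refine ⟨(s + 1) % p, ?_, key⟩
    rw [mem_filter, mem_range, key]
    exact ⟨Nat.mod_lt _ hp, hs.2⟩

/-- joint distribution of the `a ≤ H` in residue classes -/
theorem cls_count (P : ℕ → ℕ → Prop) [∀ p a, Decidable (P p a)] (H : ℕ) (S : Finset ℕ)
    (hS : ∀ p ∈ S, p.Prime) (q : ℕ) (hq : 1 ≤ q) (hqS : ∀ p ∈ S, ¬ p ∣ q) (c : ℕ) :
    |(((range (H + 1)).filter (fun a => a ≡ c [MOD q] ∧ ∀ p ∈ S, P p (a % p))).card : ℝ) -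
      ((H : ℝ) + 1) / q * ∏ p ∈ S, ((((range p).filter (fun a => P p a)).card : ℝ) / p)| ≤
      ∏ p ∈ S, (((range p).filter (fun a => P p a)).card : ℝ) := by
  have h := count_sys (fun p r => P p ((r + (p - 1)) % p)) (H + 1) S hS q hq hqS (c + 1)
  have e0 : ∀ p ∈ S, ((range p).filter (fun r => P p ((r + (p - 1)) % p))).card =
      ((range p).filter (fun a => P p a)).card := fun p hp => shift_card (hS p hp).pos _
  have e2 : ∏ p ∈ S, ((((range p).filter (fun r => P p ((r + (p - 1)) % p))).card : ℝ) / p) =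
      ∏ p ∈ S, ((((range p).filter (fun a => P p a)).card : ℝ) / p) :=
    prod_congr rfl fun p hp => by rw [e0 p hp]
  have e3 : ∏ p ∈ S, (((range p).filter (fun r => P p ((r + (p - 1)) % p))).card : ℝ) =
      ∏ p ∈ S, (((range p).filter (fun a => P p a)).card : ℝ) :=
    prod_congr rfl fun p hp => by rw [e0 p hp]
  rw [e2, e3] at h
  rw [card_range_shift]
  have e1 : (Icc 1 (H + 1)).filter (fun m => (m - 1) ≡ c [MOD q] ∧ ∀ p ∈ S, P p ((m - 1) % p)) =
      (Icc 1 (H + 1)).filter (fun m => m ≡ c + 1 [MOD q] ∧ ∀ p ∈ S, P p ((m % p + (p - 1)) % p)) := by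
    apply filter_congr
    intro m hm
    rw [mem_Icc] at hm
    have h3 : (m - 1) ≡ c [MOD q] ↔ m ≡ c + 1 [MOD q] := by
      constructor
      · intro h4
        have := h4.add_right 1
        rwa [Nat.sub_add_cancel hm.1] at this
      · intro h4
        rw [← Nat.sub_add_cancel hm.1] at h4
        exact Nat.ModEq.add_right_cancel' 1 h4
    rw [h3]
    have h5 : ∀ p ∈ S, (m % p + (p - 1)) % p = (m - 1) % p := by
      intro p hp
      have hp0 := (hS p hp).pos
      rw [Nat.mod_add_mod, show m + (p - 1) = (m - 1) + p by omega, Nat.add_mod_right]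
    constructor
    · rintro ⟨h6, h7⟩
      refine ⟨h6, fun p hp => ?_⟩
      rw [h5 p hp]
      exact h7 p hp
    · rintro ⟨h6, h7⟩
      refine ⟨h6, fun p hp => ?_⟩
      rw [← h5 p hp]
      exact h7 p hp
  rw [e1]
  push_cast at h
  exact h

/-- the number of classes modulo `p` which are not missed -/
def nu (p : ℕ) (E : Finset ℕ) : ℕ := ((range p).filter (fun r => r ∉ miss p E)).card

lemma nu_add (p : ℕ) (E : Finset ℕ) : nu p E + (miss p E).card = p := by
  unfold nu
  have h1 : (range p).filter (fun r => r ∉ miss p E) = range p \ miss p E := by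
    ext r
    rw [mem_filter, mem_sdiff]
  have h2 : miss p E ⊆ range p := filter_subset _ _
  rw [h1, card_sdiff_of_subset h2, card_range]
  have := card_le_card h2
  rw [card_range] at this
  omega

lemma nu_le (p : ℕ) (E : Finset ℕ) : nu p E ≤ E.card := by
  unfold nu
  refine le_trans (card_le_card ?_) (card_image_le (s := E) (f := fun e => e % p))
  intro r hr
  rw [mem_filter, mem_range, mem_miss] at hr
  rw [mem_image]
  have h1 := hr.2
  push Not at h1
  obtain ⟨e, he, h2⟩ := h1 hr.1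
  refine ⟨e, he, ?_⟩
  have h3 : e % p = r % p := h2
  rw [h3, Nat.mod_eq_of_lt hr.1]

lemma exp_neg_le {u : ℝ} (hu : -1 ≤ u) : Real.exp (-u) ≤ 1 - u + 2 * u ^ 2 := by
  rcases le_or_gt 0 u with h | h
  · have h1 : Real.exp (-u) ≤ 1 / (1 + u + u ^ 2 / 2) := by
      rw [Real.exp_neg, ← one_div]
      apply one_div_le_one_div_of_le (by positivity)
      exact Real.quadratic_le_exp_of_nonneg h
    refine h1.trans ?_
    rw [div_le_iff₀ (by positivity)]
    nlinarith [sq_nonneg u, mul_nonneg h (sq_nonneg u), sq_nonneg (u ^ 2)]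
  · have h1 : |(-u)| ≤ 1 := by
      rw [abs_le]
      constructor <;> linarith
    have h2 := Real.abs_exp_sub_one_sub_id_le h1
    have h3 := (abs_le.1 h2).2
    nlinarith [sq_nonneg u]

/-- **the exponential moment, abstract form** -/
lemma tail_abs (Cl D : Finset ℕ) (o : ℕ → ℕ → ℝ) (ν m : ℕ → ℝ) {X N s1 s2 s3 μ : ℝ}
    (hN : N = (Cl.card : ℝ)) (ho : ∀ p c, o p c = 0 ∨ o p c = 1) (hν : ∀ p ∈ D, 0 ≤ ν p)
    (hm : ∀ p ∈ D, 0 < m p) (hX : 0 ≤ X) (hNX : |N - X| ≤ 1)
    (hp0 : ∀ p ∈ D, (0 : ℝ) < p)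
    (h1 : ∀ p ∈ D, |∑ c ∈ Cl, o p c - X * (ν p / p)| ≤ ν p)
    (h2 : ∀ p ∈ D, ∀ p' ∈ D, p ≠ p' → ∑ c ∈ Cl, o p c * o p' c ≤ X * (ν p / p * (ν p' / p')) + ν p * ν p')
    (hs1 : s1 = ∑ p ∈ D, ν p / m p) (hs2 : s2 = ∑ p ∈ D, ν p / (p * m p ^ 2))
    (hs3 : s3 = ∑ p ∈ D, ν p / m p ^ 2) (hμ : μ = ∑ p ∈ D, ν p / (p * m p)) (hμ1 : μ ≤ 1) :
    ∑ c ∈ Cl, Real.exp (-((∑ p ∈ D, o p c / m p) - μ)) ≤
      N + (s1 + μ) + 2 * (X * s2 + s3 + s1 ^ 2 + 2 * μ * s1 + μ ^ 2) := by
  set Y : ℕ → ℝ := fun c => ∑ p ∈ D, o p c / m p with hY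
  have ho0 : ∀ p c, 0 ≤ o p c := fun p c => by rcases ho p c with h | h <;> rw [h] <;> norm_num
  have hosq : ∀ p c, o p c * o p c = o p c := fun p c => by rcases ho p c with h | h <;> rw [h] <;> norm_num
  have hY0 : ∀ c, 0 ≤ Y c := fun c => sum_nonneg fun p hp => div_nonneg (ho0 p c) (hm p hp).le
  have hμ0 : 0 ≤ μ := by
    rw [hμ]
    exact sum_nonneg fun p hp => div_nonneg (hν p hp) (mul_pos (hp0 p hp) (hm p hp)).le
  have hs10 : 0 ≤ s1 := by
    rw [hs1]
    exact sum_nonneg fun p hp => div_nonneg (hν p hp) (hm p hp).le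
  have hstep : ∀ c ∈ Cl, Real.exp (-(Y c - μ)) ≤ 1 - (Y c - μ) + 2 * (Y c - μ) ^ 2 := by
    intro c _
    apply exp_neg_le
    linarith [hY0 c]
  -- the first moment
  have hS1 : ∑ c ∈ Cl, Y c = ∑ p ∈ D, (∑ c ∈ Cl, o p c) / m p := by
    simp only [hY]
    rw [sum_comm]
    apply sum_congr rfl
    intro p _
    rw [sum_div]
  have hlow : μ * X - s1 ≤ ∑ c ∈ Cl, Y c := by
    rw [hS1, hμ, hs1, sum_mul, ← sum_sub_distrib]
    apply sum_le_sum
    intro p hp
    have h3 := (abs_le.1 (h1 p hp)).1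
    have hmp := hm p hp
    have hpp := hp0 p hp
    have e : ν p / (p * m p) * X - ν p / m p = (X * (ν p / p) - ν p) / m p := by
      field_simp
    rw [e]
    apply div_le_div_of_nonneg_right _ hmp.le
    linarith
  -- the second moment
  have hS2 : ∑ c ∈ Cl, Y c ^ 2 ≤ X * s2 + s3 + X * μ ^ 2 + s1 ^ 2 := by
    have e1 : ∑ c ∈ Cl, Y c ^ 2 = ∑ p ∈ D, ∑ p' ∈ D, (∑ c ∈ Cl, o p c * o p' c) / (m p * m p') := by
      have : ∀ c ∈ Cl, Y c ^ 2 = ∑ p ∈ D, ∑ p' ∈ D, (o p c * o p' c) / (m p * m p') := by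
        intro c _
        simp only [hY]
        rw [sq, sum_mul_sum]
        apply sum_congr rfl
        intro p _
        apply sum_congr rfl
        intro p' _
        rw [div_mul_div_comm]
      rw [sum_congr rfl this, sum_comm]
      apply sum_congr rfl
      intro p _
      rw [sum_comm]
      apply sum_congr rfl
      intro p' _
      rw [sum_div]
    have e2 : X * s2 + s3 + X * μ ^ 2 + s1 ^ 2 = ∑ p ∈ D, ∑ p' ∈ D,
        ((if p = p' then (X * (ν p / p) + ν p) / (m p * m p') else 0) +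
          (X * (ν p / p * (ν p' / p')) + ν p * ν p') / (m p * m p')) := by
      have e3 : ∀ p ∈ D, ∑ p' ∈ D, ((if p = p' then (X * (ν p / p) + ν p) / (m p * m p') else 0) +
          (X * (ν p / p * (ν p' / p')) + ν p * ν p') / (m p * m p')) =
          (X * (ν p / p) + ν p) / (m p * m p) + (X * (ν p / (p * m p)) * μ + (ν p / m p) * s1) := by
        intro p hp
        rw [sum_add_distrib, sum_ite_eq, if_pos hp]
        congr 1
        rw [hμ, hs1, mul_sum, mul_sum, ← sum_add_distrib]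
        apply sum_congr rfl
        intro p' hp'
        have h3 := hm p hp
        have h4 := hm p' hp'
        have h5 := hp0 p hp
        have h6 := hp0 p' hp'
        field_simp
      rw [sum_congr rfl e3, sum_add_distrib, sum_add_distrib]
      have e4 : ∑ p ∈ D, (X * (ν p / p) + ν p) / (m p * m p) = X * s2 + s3 := by
        rw [hs2, hs3, mul_sum, ← sum_add_distrib]
        apply sum_congr rfl
        intro p hp
        have h3 := hm p hp
        have h5 := hp0 p hp
        field_simp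
      have e5 : ∑ p ∈ D, X * (ν p / (p * m p)) * μ = X * μ ^ 2 := by
        rw [← sum_mul, ← mul_sum, ← hμ]
        ring
      have e6 : ∑ p ∈ D, (ν p / m p) * s1 = s1 ^ 2 := by
        rw [← sum_mul, ← hs1]
        ring
      rw [e4, e5, e6]
      ring
    rw [e1, e2]
    apply sum_le_sum
    intro p hp
    apply sum_le_sum
    intro p' hp'
    have hmm : 0 < m p * m p' := mul_pos (hm p hp) (hm p' hp')
    have hpos : 0 ≤ (X * (ν p / p * (ν p' / p')) + ν p * ν p') / (m p * m p') := by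
      have a1 := hν p hp
      have a2 := hν p' hp'
      have a3 := hp0 p hp
      have a4 := hp0 p' hp'
      positivity
    by_cases hpp : p = p'
    · subst hpp
      rw [if_pos rfl]
      have h3 : ∑ c ∈ Cl, o p c * o p c ≤ X * (ν p / p) + ν p := by
        rw [sum_congr rfl fun c _ => hosq p c]
        have := (abs_le.1 (h1 p hp)).2
        linarith
      have h4 := div_le_div_of_nonneg_right h3 hmm.le
      linarith
    · rw [if_neg hpp, zero_add]
      exact div_le_div_of_nonneg_right (h2 p hp p' hp' hpp) hmm.le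
  have hNl := (abs_le.1 hNX).1
  have hNu := (abs_le.1 hNX).2
  refine (sum_le_sum hstep).trans ?_
  have e7 : ∑ c ∈ Cl, (1 - (Y c - μ) + 2 * (Y c - μ) ^ 2) =
      N + μ * N - (∑ c ∈ Cl, Y c) + 2 * ((∑ c ∈ Cl, Y c ^ 2) - 2 * μ * (∑ c ∈ Cl, Y c) + μ ^ 2 * N) := by
    have : ∀ c ∈ Cl, 1 - (Y c - μ) + 2 * (Y c - μ) ^ 2 =
        1 + μ - Y c + (2 * Y c ^ 2 - 4 * μ * Y c + 2 * μ ^ 2) := fun c _ => by ring
    rw [sum_congr rfl this, sum_add_distrib, sum_sub_distrib, sum_add_distrib, sum_add_distrib,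
      sum_sub_distrib, ← mul_sum, ← mul_sum, sum_const, sum_const, sum_const, nsmul_eq_mul, nsmul_eq_mul,
      nsmul_eq_mul, ← hN]
    ring
  rw [e7]
  have f1 : μ * N ≤ μ * (X + 1) := mul_le_mul_of_nonneg_left (by linarith) hμ0
  have f2 : μ * (μ * X - s1) ≤ μ * ∑ c ∈ Cl, Y c := mul_le_mul_of_nonneg_left hlow hμ0
  have f3 : μ ^ 2 * N ≤ μ ^ 2 * (X + 1) := mul_le_mul_of_nonneg_left (by linarith) (by positivity)
  nlinarith [f1, f2, f3, hlow, hS2]

end Pool.Agent.E8helper91.PT
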