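import Pool.Agent.E8helper91.PT.T1

set_option autoImplicit false

/-!
# The lower tail of the singular series: tuples
-/

open Finset
open scoped Real

namespace Pool.Agent.E8helper91.PT

open Pool.Agent.R521.F6
open Pool.Agent.H373R2.T7 (pz Vz lamz mem_pz Vz_pos Vz_le_one count_sys card_pz_le)

/-- the primes between `w` and `z` -/
def DD (w z : ℕ) : Finset ℕ := pz z \ pz w

lemma mem_DD {w z p : ℕ} : p ∈ DD w z ↔ w < p ∧ p ≤ z ∧ p.Prime := by
  unfold DD
  rw [mem_sdiff, mem_pz, mem_pz]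
  constructor
  · rintro ⟨⟨h1, h2⟩, h3⟩
    refine ⟨?_, h1, h2⟩
    by_contra h
    exact h3 ⟨not_lt.1 h, h2⟩
  · rintro ⟨h1, h2, h3⟩
    exact ⟨⟨h2, h3⟩, fun h => absurd h.1 (not_le.2 h1)⟩

/-- the inverse of the local density of a set of classes, with `j` elements -/
noncomputable def rinv (w z j : ℕ) (E : Finset ℕ) : ℝ :=
  ∏ p ∈ DD w z, ((1 - 1 / (p : ℝ)) ^ j * (p / (miss p E).card))

/-- the sum of the local ratios in a class -/
theorem cls_tail {w z k H : ℕ} {E : Finset ℕ} (hk1 : 1 ≤ k) (hE : E.card ≤ k) (hkw : 2 * k + 2 ≤ w) (c0 : ℕ)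
    (hX : 7 * ((z : ℝ) + 1) ^ 2 * (w : ℝ) ^ 2 + 1 ≤ ((H : ℝ) + 1) / Wp w) :
    ∑ c ∈ (range (H + 1)).filter (fun c => c ≡ c0 [MOD Wn w]),
      ∏ p ∈ DD w z, ((1 - 1 / (p : ℝ)) * rt p E (c % p)) ≤
      Real.exp (21 * k / (w : ℝ) ^ 2) * ((range (H + 1)).filter (fun c => c ≡ c0 [MOD Wn w])).card := by
  set Cl := (range (H + 1)).filter (fun c => c ≡ c0 [MOD Wn w]) with hCl
  set D := DD w z with hD
  obtain ⟨X, hXd⟩ : ∃ X : ℝ, X = ((H : ℝ) + 1) / Wp w := ⟨_, rfl⟩
  obtain ⟨N, hN⟩ : ∃ N : ℝ, N = (Cl.card : ℝ) := ⟨_, rfl⟩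
  have hw0 : (0 : ℝ) < w := by exact_mod_cast (by omega : 0 < w)
  have hwr : 2 * (k : ℝ) + 2 ≤ w := by exact_mod_cast hkw
  have hk1r : (1 : ℝ) ≤ k := by exact_mod_cast hk1
  rw [← hXd] at hX
  have hz0 : (0 : ℝ) ≤ z := Nat.cast_nonneg z
  have hX0 : 0 ≤ X := by
    have : 0 ≤ 7 * ((z : ℝ) + 1) ^ 2 * (w : ℝ) ^ 2 := by positivity
    linarith
  have hDp : ∀ p ∈ D, w < p ∧ p ≤ z ∧ p.Prime := fun p hp => mem_DD.1 hp
  -- the counts
  have hcnt : ∀ S : Finset ℕ, S ⊆ D →
      |(((range (H + 1)).filter (fun a => a ≡ c0 [MOD Wn w] ∧ ∀ p ∈ S, a % p ∉ miss p E)).card : ℝ) -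
      X * ∏ p ∈ S, ((nu p E : ℝ) / p)| ≤ ∏ p ∈ S, (nu p E : ℝ) := by
    intro S hS
    have h := cls_count (fun p r => r ∉ miss p E) H S (fun p hp => (hDp p (hS hp)).2.2) (Wn w) (Wn_pos w)
      (fun p hp => Wn_cop (hS hp)) c0
    rw [Wn_cast, ← hXd] at h
    exact h
  have hNX : |N - X| ≤ 1 := by
    have h := hcnt ∅ (empty_subset _)
    simp only [prod_empty, mul_one, notMem_empty, false_imp_iff, implies_true, and_true] at h
    rw [hN]
    exact h
  set ν : ℕ → ℝ := fun p => (nu p E : ℝ) with hν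
  set m : ℕ → ℝ := fun p => ((miss p E).card : ℝ) with hm
  have hνm : ∀ p, ν p + m p = p := fun p => by
    simp only [hν, hm]
    exact_mod_cast nu_add p E
  have hν0 : ∀ p, 0 ≤ ν p := fun p => Nat.cast_nonneg _
  have hνk : ∀ p, ν p ≤ k := fun p => by
    simp only [hν]
    exact_mod_cast (nu_le p E).trans hE
  have hpw : ∀ p ∈ D, (w : ℝ) + 1 ≤ p := fun p hp => by exact_mod_cast (hDp p hp).1
  have hp0 : ∀ p ∈ D, (0 : ℝ) < p := fun p hp => by linarith [hpw p hp]
  have hm2 : ∀ p ∈ D, (p : ℝ) / 2 ≤ m p - 1 := by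
    intro p hp
    have h1 := hνm p
    have h2 := hνk p
    have h3 := hpw p hp
    linarith
  have hm0 : ∀ p ∈ D, 0 < m p := fun p hp => by linarith [hm2 p hp, hp0 p hp]
  have hmp : ∀ p ∈ D, (p : ℝ) / 2 ≤ m p := fun p hp => by linarith [hm2 p hp]
  set o : ℕ → ℕ → ℝ := fun p c => if c % p ∉ miss p E then 1 else 0 with ho
  have ho01 : ∀ p c, o p c = 0 ∨ o p c = 1 := fun p c => by
    simp only [ho]
    by_cases h : c % p ∉ miss p E
    · rw [if_pos h]
      exact Or.inr rfl
    · rw [if_neg h]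
      exact Or.inl rfl
  have hc1 : ∀ p ∈ D, |∑ c ∈ Cl, o p c - X * (ν p / p)| ≤ ν p := by
    intro p hp
    have h := hcnt {p} (singleton_subset_iff.2 hp)
    rw [prod_singleton, prod_singleton] at h
    have e : ∑ c ∈ Cl, o p c =
        (((range (H + 1)).filter (fun a => a ≡ c0 [MOD Wn w] ∧ ∀ p' ∈ ({p} : Finset ℕ), a % p' ∉ miss p' E)).card : ℝ) := by
      simp only [ho]
      rw [sum_ite, sum_const_zero, add_zero, sum_const, nsmul_eq_mul, mul_one, hCl, filter_filter]
      congr 2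
      apply filter_congr
      intro a _
      simp only [mem_singleton, forall_eq]
    rw [e]
    exact h
  have hc2 : ∀ p ∈ D, ∀ p' ∈ D, p ≠ p' →
      ∑ c ∈ Cl, o p c * o p' c ≤ X * (ν p / p * (ν p' / p')) + ν p * ν p' := by
    intro p hp p' hp' hne
    have h := hcnt {p, p'} (by
      intro x hx
      rw [mem_insert, mem_singleton] at hx
      rcases hx with rfl | rfl
      · exact hp
      · exact hp')
    rw [prod_pair hne, prod_pair hne] at h
    have e : ∑ c ∈ Cl, o p c * o p' c =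
        (((range (H + 1)).filter (fun a => a ≡ c0 [MOD Wn w] ∧ ∀ x ∈ ({p, p'} : Finset ℕ), a % x ∉ miss x E)).card : ℝ) := by
      have e1 : ∀ c ∈ Cl, o p c * o p' c = if (c % p ∉ miss p E ∧ c % p' ∉ miss p' E) then 1 else 0 := by
        intro c _
        simp only [ho]
        split_ifs with a1 a2 a3 a4 a5 <;> simp_all
      rw [sum_congr rfl e1, sum_ite, sum_const_zero, add_zero, sum_const, nsmul_eq_mul, mul_one, hCl,
        filter_filter]
      congr 2
      apply filter_congr
      intro a _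
      simp only [mem_insert, mem_singleton, forall_eq_or_imp, forall_eq]
    rw [e]
    have := (abs_le.1 h).2
    linarith
  -- the sums
  have hsq : ∑ p ∈ D, 1 / (p : ℝ) ^ 2 ≤ 1 / (w : ℝ) :=
    sum_sq_tail (by omega) D (fun p hp => (hDp p hp).1)
  have hcb : ∑ p ∈ D, 1 / (p : ℝ) ^ 3 ≤ 1 / (w : ℝ) ^ 2 := by
    calc ∑ p ∈ D, 1 / (p : ℝ) ^ 3 ≤ ∑ p ∈ D, (1 / (w : ℝ)) * (1 / (p : ℝ) ^ 2) := by
          apply sum_le_sum
          intro p hp
          have h1 := hp0 p hp
          have h2 := hpw p hp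
          rw [div_mul_div_comm, one_mul]
          apply one_div_le_one_div_of_le (by positivity)
          calc (w : ℝ) * (p : ℝ) ^ 2 ≤ p * (p : ℝ) ^ 2 :=
                mul_le_mul_of_nonneg_right (by linarith) (by positivity)
            _ = _ := by ring
      _ = (1 / (w : ℝ)) * ∑ p ∈ D, 1 / (p : ℝ) ^ 2 := by rw [mul_sum]
      _ ≤ (1 / (w : ℝ)) * (1 / (w : ℝ)) := mul_le_mul_of_nonneg_left hsq (by positivity)
      _ = _ := by rw [div_mul_div_comm, one_mul, sq]
  have hDcard : (D.card : ℝ) ≤ z := by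
    have h1 : D.card ≤ z := (card_le_card sdiff_subset).trans (card_pz_le z)
    exact_mod_cast h1
  set s1 : ℝ := ∑ p ∈ D, ν p / m p with hs1
  set s2 : ℝ := ∑ p ∈ D, ν p / (p * m p ^ 2) with hs2
  set s3 : ℝ := ∑ p ∈ D, ν p / m p ^ 2 with hs3
  set μ : ℝ := ∑ p ∈ D, ν p / (p * m p) with hμ
  have hs1z : s1 ≤ z := by
    calc s1 ≤ ∑ _p ∈ D, (1 : ℝ) := by
          apply sum_le_sum
          intro p hp
          rw [div_le_one (hm0 p hp)]
          have := hνk p
          have h2 := hmp p hp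
          have h3 := hpw p hp
          linarith
      _ = (D.card : ℝ) := by rw [sum_const, nsmul_eq_mul, mul_one]
      _ ≤ z := hDcard
  have hs10 : 0 ≤ s1 := sum_nonneg fun p hp => div_nonneg (hν0 p) (hm0 p hp).le
  have hs3z : s3 ≤ s1 := by
    apply sum_le_sum
    intro p hp
    have h1 := hm0 p hp
    have h2 := hm2 p hp
    have h3 := hp0 p hp
    apply div_le_div_of_nonneg_left (hν0 p) h1
    nlinarith
  have hs2b : s2 ≤ 4 * k / (w : ℝ) ^ 2 := by
    calc s2 ≤ ∑ p ∈ D, (4 * k) * (1 / (p : ℝ) ^ 3) := by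
          apply sum_le_sum
          intro p hp
          have h1 := hm0 p hp
          have h2 := hmp p hp
          have h3 := hp0 p hp
          rw [mul_one_div, div_le_div_iff₀ (by positivity) (by positivity)]
          have h4 : (p : ℝ) ^ 2 ≤ 4 * m p ^ 2 := by nlinarith
          calc ν p * (p : ℝ) ^ 3 ≤ k * (p : ℝ) ^ 3 := mul_le_mul_of_nonneg_right (hνk p) (by positivity)
            _ = (k * p) * (p : ℝ) ^ 2 := by ring
            _ ≤ (k * p) * (4 * m p ^ 2) := mul_le_mul_of_nonneg_left h4 (by positivity)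
            _ = _ := by ring
      _ = (4 * k) * ∑ p ∈ D, 1 / (p : ℝ) ^ 3 := by rw [mul_sum]
      _ ≤ (4 * k) * (1 / (w : ℝ) ^ 2) := mul_le_mul_of_nonneg_left hcb (by positivity)
      _ = _ := by ring
  have hμ1 : μ ≤ 1 := by
    calc μ ≤ ∑ p ∈ D, (2 * k) * (1 / (p : ℝ) ^ 2) := by
          apply sum_le_sum
          intro p hp
          have h1 := hm0 p hp
          have h2 := hmp p hp
          have h3 := hp0 p hp
          rw [mul_one_div, div_le_div_iff₀ (by positivity) (by positivity)]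
          calc ν p * (p : ℝ) ^ 2 ≤ k * (p : ℝ) ^ 2 := mul_le_mul_of_nonneg_right (hνk p) (by positivity)
            _ = (k * p) * (p : ℝ) := by ring
            _ ≤ (k * p) * (2 * m p) := mul_le_mul_of_nonneg_left (by linarith) (by positivity)
            _ = _ := by ring
      _ = (2 * k) * ∑ p ∈ D, 1 / (p : ℝ) ^ 2 := by rw [mul_sum]
      _ ≤ (2 * k) * (1 / (w : ℝ)) := mul_le_mul_of_nonneg_left hsq (by positivity)
      _ ≤ 1 := by
          rw [mul_one_div, div_le_one hw0]
          linarith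
  have hμ0 : 0 ≤ μ := sum_nonneg fun p hp => div_nonneg (hν0 p) (mul_pos (hp0 p hp) (hm0 p hp)).le
  have habs := tail_abs Cl D o ν m (X := X) (N := N) hN ho01 (fun p _ => hν0 p) hm0 hX0 hNX hp0 hc1 hc2 hs1 hs2
    hs3 hμ hμ1
  -- the product
  have hprod : ∀ c ∈ Cl, ∏ p ∈ D, ((1 - 1 / (p : ℝ)) * rt p E (c % p)) ≤
      Real.exp (4 * k / (w : ℝ) ^ 2) * Real.exp (-((∑ p ∈ D, o p c / m p) - μ)) := by
    intro c _
    have h1 : ∏ p ∈ D, ((1 - 1 / (p : ℝ)) * rt p E (c % p)) ≤
        ∏ p ∈ D, Real.exp (ν p / (p * (m p - 1)) - o p c / m p) := by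
      apply prod_le_prod
      · intro p hp
        have h3 := hpw p hp
        have h4 : 0 ≤ 1 - 1 / (p : ℝ) := by
          rw [sub_nonneg, div_le_one (hp0 p hp)]
          linarith
        have h5 : 0 ≤ rt p E (c % p) := by
          unfold rt
          split_ifs
          · have := hm2 p hp
            have h6 := hp0 p hp
            exact div_nonneg (Nat.cast_nonneg _) (by
              have : 0 ≤ m p - 1 := by linarith
              exact this)
          · exact zero_le_one
        exact mul_nonneg h4 h5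
      · intro p hp
        have h3 := hpw p hp
        have h4 := hp0 p hp
        have h5 := hm2 p hp
        have h6 := hm0 p hp
        have h7 : 0 < m p - 1 := by linarith
        have hid : (1 - 1 / (p : ℝ)) * (m p / (m p - 1)) = 1 + ν p / (p * (m p - 1)) := by
          have h8 : ν p = p - m p := by linarith [hνm p]
          rw [h8]
          field_simp
          ring
        have hexp : 1 + ν p / (p * (m p - 1)) ≤ Real.exp (ν p / (p * (m p - 1))) := by
          linarith [Real.add_one_le_exp (ν p / (p * (m p - 1)))]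
        by_cases hc : c % p ∈ miss p E
        · have e1 : rt p E (c % p) = m p / (m p - 1) := by
            unfold rt
            rw [if_pos hc]
          have e2 : o p c = 0 := by
            simp only [ho]
            rw [if_neg (not_not.2 hc)]
          rw [e1, e2, hid, zero_div, sub_zero]
          exact hexp
        · have e1 : rt p E (c % p) = 1 := by
            unfold rt
            rw [if_neg hc]
          have e2 : o p c = 1 := by
            simp only [ho]
            rw [if_pos hc]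
          rw [e1, e2, mul_one, sub_eq_add_neg (ν p / (p * (m p - 1))), Real.exp_add]
          have h9 : 1 - 1 / m p ≤ Real.exp (-(1 / m p)) := by
            linarith [Real.add_one_le_exp (-(1 / m p))]
          have h10 : (1 - 1 / (p : ℝ)) = (1 + ν p / (p * (m p - 1))) * (1 - 1 / m p) := by
            rw [← hid]
            field_simp
          rw [h10]
          apply mul_le_mul hexp h9 _ (Real.exp_pos _).le
          rw [sub_nonneg, div_le_one h6]
          linarith
    refine h1.trans ?_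
    rw [← Real.exp_sum, ← Real.exp_add]
    apply Real.exp_le_exp.2
    rw [sum_sub_distrib]
    have h2 : ∑ p ∈ D, ν p / (p * (m p - 1)) ≤ 4 * k / (w : ℝ) ^ 2 + μ := by
      have h3 : ∑ p ∈ D, ν p / (p * (m p - 1)) - μ ≤ ∑ p ∈ D, (4 * k) * (1 / (p : ℝ) ^ 3) := by
        rw [hμ, ← sum_sub_distrib]
        apply sum_le_sum
        intro p hp
        have h4 := hp0 p hp
        have h5 := hm2 p hp
        have h6 := hm0 p hp
        have h7 : 0 < m p - 1 := by linarith
        have e : ν p / (p * (m p - 1)) - ν p / (p * m p) = ν p / (p * m p * (m p - 1)) := by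
          field_simp
          ring
        rw [e, mul_one_div, div_le_div_iff₀ (by positivity) (by positivity)]
        have h8 : (p : ℝ) ^ 2 ≤ 4 * (m p * (m p - 1)) := by
          have h9 := hmp p hp
          nlinarith
        calc ν p * (p : ℝ) ^ 3 ≤ k * (p : ℝ) ^ 3 := mul_le_mul_of_nonneg_right (hνk p) (by positivity)
          _ = (k * p) * (p : ℝ) ^ 2 := by ring
          _ ≤ (k * p) * (4 * (m p * (m p - 1))) := mul_le_mul_of_nonneg_left h8 (by positivity)
          _ = _ := by ring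
      rw [← mul_sum] at h3
      have h4 := mul_le_mul_of_nonneg_left hcb (by positivity : (0 : ℝ) ≤ 4 * k)
      have e : (4 * k : ℝ) * (1 / (w : ℝ) ^ 2) = 4 * k / (w : ℝ) ^ 2 := by ring
      linarith
    linarith
  -- conclusion
  have hNl := (abs_le.1 hNX).1
  have hNu := (abs_le.1 hNX).2
  have hN1 : 7 * ((z : ℝ) + 1) ^ 2 * (w : ℝ) ^ 2 ≤ N := by linarith
  have hN0 : 0 ≤ N := by rw [hN]; exact Nat.cast_nonneg _
  have hbr : N + (s1 + μ) + 2 * (X * s2 + s3 + s1 ^ 2 + 2 * μ * s1 + μ ^ 2) ≤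
      N * (1 + 17 * k / (w : ℝ) ^ 2) := by
    have hw2 : 0 < (w : ℝ) ^ 2 := by positivity
    have g1 : X * s2 ≤ (N + 1) * (4 * k / (w : ℝ) ^ 2) := by
      apply mul_le_mul (by linarith) hs2b
      · exact sum_nonneg fun p hp => div_nonneg (hν0 p) (by
          have := hp0 p hp
          have := hm0 p hp
          positivity)
      · linarith
    have g2 : s1 ^ 2 ≤ (z : ℝ) ^ 2 := pow_le_pow_left₀ hs10 hs1z 2
    have g3 : μ * s1 ≤ 1 * z := mul_le_mul hμ1 hs1z hs10 zero_le_one
    have g4 : μ ^ 2 ≤ 1 := pow_le_one₀ hμ0 hμ1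
    have g5 : 7 * ((z : ℝ) + 1) ^ 2 ≤ N / (w : ℝ) ^ 2 := by
      rw [le_div_iff₀ hw2]
      exact hN1
    have g6 : 1 * (8 * k / (w : ℝ) ^ 2) ≤ N * (8 * k / (w : ℝ) ^ 2) := by
      apply mul_le_mul_of_nonneg_right _ (by positivity)
      have : 7 * 1 * 1 ≤ 7 * ((z : ℝ) + 1) ^ 2 * (w : ℝ) ^ 2 := by
        have a1 : (1 : ℝ) ≤ ((z : ℝ) + 1) ^ 2 := one_le_pow₀ (by linarith)
        have a2 : (1 : ℝ) ≤ (w : ℝ) ^ 2 := one_le_pow₀ (by linarith)
        nlinarith
      linarith
    have g7 : N / (w : ℝ) ^ 2 ≤ N * (k / (w : ℝ) ^ 2) := by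
      rw [div_eq_mul_one_div]
      apply mul_le_mul_of_nonneg_left _ hN0
      apply div_le_div_of_nonneg_right hk1r hw2.le
    have e1 : (N + 1) * (4 * k / (w : ℝ) ^ 2) * 2 = N * (8 * k / (w : ℝ) ^ 2) + 1 * (8 * k / (w : ℝ) ^ 2) := by
      ring
    have e2 : N * (1 + 17 * k / (w : ℝ) ^ 2) = N + 2 * (N * (8 * k / (w : ℝ) ^ 2)) + N * (k / (w : ℝ) ^ 2) := by
      ring
    rw [e2]
    nlinarith [g1, g2, g3, g4, g5, g6, g7, hs3z, hs1z, hμ1]
  calc ∑ c ∈ Cl, ∏ p ∈ D, ((1 - 1 / (p : ℝ)) * rt p E (c % p)) ≤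
        ∑ c ∈ Cl, Real.exp (4 * k / (w : ℝ) ^ 2) * Real.exp (-((∑ p ∈ D, o p c / m p) - μ)) :=
        sum_le_sum hprod
    _ = Real.exp (4 * k / (w : ℝ) ^ 2) * ∑ c ∈ Cl, Real.exp (-((∑ p ∈ D, o p c / m p) - μ)) := by
        rw [mul_sum]
    _ ≤ Real.exp (4 * k / (w : ℝ) ^ 2) * (N * (1 + 17 * k / (w : ℝ) ^ 2)) :=
        mul_le_mul_of_nonneg_left (habs.trans hbr) (Real.exp_pos _).le
    _ ≤ Real.exp (4 * k / (w : ℝ) ^ 2) * (N * Real.exp (17 * k / (w : ℝ) ^ 2)) := by
        apply mul_le_mul_of_nonneg_left _ (Real.exp_pos _).le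
        apply mul_le_mul_of_nonneg_left _ hN0
        linarith [Real.add_one_le_exp (17 * k / (w : ℝ) ^ 2)]
    _ = (Real.exp (4 * k / (w : ℝ) ^ 2) * Real.exp (17 * k / (w : ℝ) ^ 2)) * N := by ring
    _ = _ := by
        rw [← Real.exp_add, hN]
        congr 2
        ring

lemma rinv_nonneg (w z j : ℕ) (E : Finset ℕ) : 0 ≤ rinv w z j E := by
  unfold rinv
  apply prod_nonneg
  intro p hp
  have h1 := (mem_DD.1 hp).2.2.one_lt
  have h2 : (1 : ℝ) < p := by exact_mod_cast h1
  have h3 : 0 ≤ 1 - 1 / (p : ℝ) := by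
    rw [sub_nonneg, div_le_one (by linarith)]
    exact h2.le
  exact mul_nonneg (pow_nonneg h3 _) (div_nonneg (Nat.cast_nonneg _) (Nat.cast_nonneg _))

lemma rinv_insert {w z j k c : ℕ} {E : Finset ℕ} (hE : E.card ≤ k) (hkw : 2 * k + 2 ≤ w) :
    rinv w z (j + 1) (insert c E) =
      rinv w z j E * ∏ p ∈ DD w z, ((1 - 1 / (p : ℝ)) * rt p E (c % p)) := by
  unfold rinv
  rw [← prod_mul_distrib]
  apply prod_congr rfl
  intro p hp
  have h1 := mem_DD.1 hp
  have hp0 := h1.2.2.pos
  have h2 := nu_add p E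
  have h3 := nu_le p E
  have h4 : 2 ≤ (miss p E).card := by omega
  rw [miss_insert hp0]
  unfold rt
  split_ifs with h5
  · rw [card_erase_of_mem h5, Nat.cast_sub (by omega)]
    have h6 : (2 : ℝ) ≤ (miss p E).card := by exact_mod_cast h4
    have h7 : ((miss p E).card : ℝ) - 1 ≠ 0 := by
      intro h
      linarith
    have h8 : ((miss p E).card : ℝ) ≠ 0 := by
      intro h
      linarith
    push_cast
    rw [pow_succ]
    field_simp
  · rw [erase_eq_of_notMem h5, pow_succ]
    ring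

/-- **the moment of the inverse density over the tuples** -/
theorem tail_tup {w z K H : ℕ} {b : ℕ → ℕ} (hK1 : 1 ≤ K) (hKw : 2 * K + 2 ≤ w)
    (hX : 7 * ((z : ℝ) + 1) ^ 2 * (w : ℝ) ^ 2 + 1 ≤ ((H : ℝ) + 1) / Wp w) :
    ∀ k : ℕ, k ≤ K → ∀ u : (Fin k → ℕ) → ℝ, PerT w k u → (∀ a ∈ tup k (Sb w b H), 0 ≤ u a) →
    ∑ a ∈ tup k (Sb w b H), u a * rinv w z k (univ.image a) ≤
      Real.exp (21 * K / (w : ℝ) ^ 2) ^ k * ∑ a ∈ tup k (Sb w b H), u a := by
  intro k
  induction k with
  | zero =>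
    intro _ u _ hu0
    rw [pow_zero, one_mul]
    apply sum_le_sum
    intro a ha
    have e : rinv w z 0 (univ.image a) = 1 := by
      unfold rinv
      apply prod_eq_one
      intro p hp
      have hp0 := (mem_DD.1 hp).2.2.pos
      have e1 : (univ.image a : Finset ℕ) = ∅ := by
        rw [univ_eq_empty, image_empty]
      have e2 : miss p (∅ : Finset ℕ) = range p := by
        unfold miss
        rw [filter_true_of_mem]
        intro c _ e he
        exact absurd he (notMem_empty e)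
      rw [e1, e2, card_range, pow_zero, one_mul, div_self]
      exact_mod_cast hp0.ne'
    rw [e, mul_one]
  | succ k ih =>
    intro hk u hu hu0
    have hcard : ∀ a : Fin k → ℕ, (univ.image a).card ≤ k := by
      intro a
      exact card_image_le.trans (by simp)
    have hK : (1 : ℝ) ≤ K := by exact_mod_cast hK1
    rw [tup_sum_succ, tup_sum_succ, sum_comm, sum_comm (s := Sb w b H)]
    have hstep : ∀ a ∈ tup k (Sb w b H), ∑ c ∈ Sb w b H, u (Fin.cons c a) *
        rinv w z (k + 1) (univ.image (Fin.cons c a : Fin (k + 1) → ℕ)) ≤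
        Real.exp (21 * K / (w : ℝ) ^ 2) * ((∑ c ∈ Sb w b H, u (Fin.cons c a)) * rinv w z k (univ.image a)) := by
      intro a ha
      have e1 : ∀ c ∈ Sb w b H, u (Fin.cons c a) *
          rinv w z (k + 1) (univ.image (Fin.cons c a : Fin (k + 1) → ℕ)) =
          rinv w z k (univ.image a) * (u (Fin.cons c a) *
            ∏ p ∈ DD w z, ((1 - 1 / (p : ℝ)) * rt p (univ.image a) (c % p))) := by
        intro c _
        have e2 : univ.image (Fin.cons c a : Fin (k + 1) → ℕ) = insert c (univ.image a) := by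
          ext x
          simp only [mem_image, mem_univ, true_and, mem_insert]
          constructor
          · rintro ⟨i, hi⟩
            revert hi
            refine Fin.cases ?_ (fun j => ?_) i
            · intro hi
              simp only [Fin.cons_zero] at hi
              exact Or.inl hi.symm
            · intro hi
              simp only [Fin.cons_succ] at hi
              exact Or.inr ⟨j, hi⟩
          · rintro (h | ⟨j, hj⟩)
            · exact ⟨0, by simp [h]⟩
            · exact ⟨j.succ, by simp [hj]⟩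
        rw [e2, rinv_insert (hcard a) (by omega)]
        ring
      rw [sum_congr rfl e1, ← mul_sum]
      have h2 := per_comp (w := w) (S := Sb w b H)
        (h := fun c => ∏ p ∈ DD w z, ((1 - 1 / (p : ℝ)) * rt p (univ.image a) (c % p)))
        (κ := Real.exp (21 * K / (w : ℝ) ^ 2)) (fun c hc => by
          rw [cls_eq hc]
          exact cls_tail hK1 ((hcard a).trans (by omega)) hKw c hX)
        (Ψ := fun c => u (Fin.cons c a)) (Per_cons hu a) (fun c hc => hu0 _ (cons_mem hc ha))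
      have h3 := mul_le_mul_of_nonneg_left h2 (rinv_nonneg w z k (univ.image a))
      refine h3.trans (le_of_eq ?_)
      ring
    refine (sum_le_sum hstep).trans ?_
    rw [← mul_sum]
    have h4 := ih (by omega) (fun a => ∑ c ∈ Sb w b H, u (Fin.cons c a)) (by
      intro a a' h
      apply sum_congr rfl
      intro c _
      exact PerT_cons hu c a a' h) (fun a ha => sum_nonneg fun c hc => hu0 _ (cons_mem hc ha))
    refine (mul_le_mul_of_nonneg_left h4 (Real.exp_pos _).le).trans (le_of_eq ?_)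
    rw [← mul_assoc, ← pow_succ']

end Pool.Agent.E8helper91.PT
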