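import Pool.Agent.E8helper91.PT.T2

set_option autoImplicit false

/-!
# The lower bound for the model with small primes
-/

open Finset
open scoped Real

namespace Pool.Agent.E8helper91.PT

open Pool.Agent.R521.F6
open Pool.Agent.H373R2.T7 (pz Vz lamz mem_pz Vz_pos Vz_le_one es bonf sieve_gen' es_le bonf_ind
  card_small prod_dvd_iff prod_le_pow card_pz_le lamz_nonneg es_nonneg count_sys)

/-- the sieve in a class, with at most `K` classes for each prime -/
theorem sieve_k (A : ℕ → ℕ → Prop) [∀ p a, Decidable (A p a)] (x z r q c K : ℕ) (hK : 1 ≤ K) (D : Finset ℕ)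
    (hD : D ⊆ pz z) (hq : 1 ≤ q) (hqD : ∀ p ∈ D, ¬ p ∣ q)
    (hρ : ∀ p ∈ D, ((range p).filter (fun c => A p c)).card ≤ K) :
    |(((Icc 1 x).filter (fun n => n ≡ c [MOD q] ∧ ∀ p ∈ D, ¬ A p (n % p))).card : ℝ) -
      (x : ℝ) / q * ∏ p ∈ D, (1 - (((range p).filter (fun c => A p c)).card : ℝ) / p)| ≤
      (K * ((z : ℝ) + 1)) ^ r + 2 * ((x : ℝ) / q) * Real.exp (3 * K * ∑ p ∈ pz z, 1 / (p : ℝ) - r) := by
  set ρ : ℕ → ℝ := fun p => (((range p).filter (fun c => A p c)).card : ℝ) with hρd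
  have hK1 : (1 : ℝ) ≤ K := by exact_mod_cast hK
  have hρ0 : ∀ p, 0 ≤ ρ p := fun p => Nat.cast_nonneg _
  have hρ2 : ∀ p ∈ D, ρ p ≤ K := fun p hp => by
    show (((range p).filter (fun c => A p c)).card : ℝ) ≤ K
    exact Nat.cast_le.2 (hρ p hp)
  have hρp : ∀ p, ρ p ≤ (p : ℝ) := fun p => by
    have : ((range p).filter (fun c => A p c)).card ≤ p := (card_filter_le _ _).trans (by simp)
    show (((range p).filter (fun c => A p c)).card : ℝ) ≤ p
    exact Nat.cast_le.2 this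
  have key := sieve_gen' ((Icc 1 x).filter (fun n => n ≡ c [MOD q])) (fun _ => (1 : ℝ)) (fun _ _ => zero_le_one)
    (fun p n => A p (n % p)) D (fun p => ρ p / p) (fun p hp => by
      have hp0 : (0 : ℝ) < p := by exact_mod_cast (mem_pz.1 (hD hp)).2.pos
      constructor
      · have := hρ0 p
        positivity
      · rw [div_le_one hp0]
        exact hρp p) ((x : ℝ) / q) (by positivity) (fun _ => (K : ℝ) ^ r) r (by
      intro S hS hr
      have hSp : ∀ p ∈ S, p.Prime := fun p hp => (mem_pz.1 (hD (hS hp))).2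
      have h := count_sys A x S hSp q hq (fun p hp => hqD p (hS hp)) c
      have h3 : ∑ i ∈ (Icc 1 x).filter (fun n => n ≡ c [MOD q]) with ∀ p ∈ S, A p (i % p), (1 : ℝ) =
          (((Icc 1 x).filter (fun n => n ≡ c [MOD q] ∧ ∀ p ∈ S, A p (n % p))).card : ℝ) := by
        rw [sum_const, nsmul_eq_mul, mul_one, filter_filter]
      rw [h3]
      refine h.trans ?_
      calc ∏ p ∈ S, ρ p ≤ ∏ _p ∈ S, (K : ℝ) := prod_le_prod (fun p _ => hρ0 p) fun p hp => hρ2 p (hS hp)
        _ = (K : ℝ) ^ S.card := by rw [prod_const]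
        _ ≤ (K : ℝ) ^ r := pow_le_pow_right₀ hK1 hr)
  have e2 : ∑ i ∈ (Icc 1 x).filter (fun n => n ≡ c [MOD q]) with ∀ p ∈ D, ¬ A p (i % p), (1 : ℝ) =
      (((Icc 1 x).filter (fun n => n ≡ c [MOD q] ∧ ∀ p ∈ D, ¬ A p (n % p))).card : ℝ) := by
    rw [sum_const, nsmul_eq_mul, mul_one, filter_filter]
  rw [e2] at key
  refine key.trans ?_
  apply add_le_add
  · simp only [sum_const, nsmul_eq_mul]
    rw [← sum_mul, mul_pow, mul_comm ((K : ℝ) ^ r)]
    exact mul_le_mul_of_nonneg_right (card_sets_sub z r D hD) (by positivity)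
  · apply mul_le_mul_of_nonneg_left _ (by positivity)
    refine (es_le (fun p _ => by have := hρ0 p; positivity) r).trans ?_
    apply Real.exp_le_exp.2
    have h6 : ∑ p ∈ D, ρ p / (p : ℝ) ≤ ∑ p ∈ D, K * (1 / (p : ℝ)) := by
      apply sum_le_sum
      intro p hp
      have := hρ2 p hp
      calc ρ p / (p : ℝ) ≤ K / p := by gcongr
        _ = _ := by ring
    rw [← mul_sum] at h6
    have h7 : ∑ p ∈ D, 1 / (p : ℝ) ≤ ∑ p ∈ pz z, 1 / (p : ℝ) :=
      sum_le_sum_of_subset_of_nonneg hD (fun _ _ _ => by positivity)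
    have h8 : (K : ℝ) * ∑ p ∈ D, 1 / (p : ℝ) ≤ K * ∑ p ∈ pz z, 1 / (p : ℝ) :=
      mul_le_mul_of_nonneg_left h7 (by positivity)
    linarith

/-- the number of classes `r` with `r + e` divisible by `p` for some `e` -/
lemma card_hit {p : ℕ} (hp : p.Prime) (E : Finset ℕ) :
    ((range p).filter (fun r => ∃ e ∈ E, p ∣ r + e)).card = nu p E := by
  unfold nu
  have hp0 := hp.pos
  have key : ∀ r s : ℕ, s < p → (p ∣ r + s) → ∀ e, p ∣ r + e ↔ e ≡ s [MOD p] := by
    intro r s _ hs e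
    constructor
    · intro h
      have h1 : r + e ≡ r + s [MOD p] :=
        ((Nat.modEq_zero_iff_dvd).2 h).trans ((Nat.modEq_zero_iff_dvd).2 hs).symm
      exact Nat.ModEq.add_left_cancel' r h1
    · intro h
      have h1 : r + e ≡ r + s [MOD p] := h.add_left r
      exact (Nat.modEq_zero_iff_dvd).1 (h1.trans ((Nat.modEq_zero_iff_dvd).2 hs))
  have hdv : ∀ r, r < p → p ∣ r + (p - r) % p := by
    intro r hr
    rw [dvd_add_mod]
    have : r + (p - r) = p := by omega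
    rw [this]
  apply card_bij (fun r _ => (p - r) % p)
  · intro r hr
    rw [mem_filter, mem_range] at hr ⊢
    have hlt := Nat.mod_lt (p - r) hp0
    refine ⟨hlt, ?_⟩
    rw [mem_miss]
    rintro ⟨_, h2⟩
    obtain ⟨e, he, h3⟩ := hr.2
    exact h2 e he ((key r _ hlt (hdv r hr.1) e).1 h3)
  · intro r hr r' hr' h
    rw [mem_filter, mem_range] at hr hr'
    have h1 := hdv r hr.1
    have h2 := hdv r' hr'.1
    have h' : (p - r) % p = (p - r') % p := h
    rw [h'] at h1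
    have h3 : r + (p - r') % p ≡ r' + (p - r') % p [MOD p] :=
      ((Nat.modEq_zero_iff_dvd).2 h1).trans ((Nat.modEq_zero_iff_dvd).2 h2).symm
    have h4 := Nat.ModEq.add_right_cancel' _ h3
    unfold Nat.ModEq at h4
    rwa [Nat.mod_eq_of_lt hr.1, Nat.mod_eq_of_lt hr'.1] at h4
  · intro s hs
    rw [mem_filter, mem_range] at hs
    have hs2 := hs.2
    rw [mem_miss] at hs2
    push Not at hs2
    obtain ⟨e, he, h3⟩ := hs2 hs.1
    have hlt := Nat.mod_lt (p - s) hp0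
    have hd : p ∣ (p - s) % p + s := by
      have := hdv s hs.1
      rwa [add_comm] at this
    have heq : (p - (p - s) % p) % p = s := by
      rcases Nat.eq_zero_or_pos s with h0 | h0
      · rw [h0, Nat.sub_zero, Nat.mod_self, Nat.sub_zero, Nat.mod_self]
      · rw [Nat.mod_eq_of_lt (by omega : p - s < p)]
        have : p - (p - s) = s := by omega
        rw [this, Nat.mod_eq_of_lt hs.1]
    refine ⟨(p - s) % p, ?_, heq⟩
    rw [mem_filter, mem_range]
    exact ⟨hlt, e, he, (key _ s hs.1 hd e).2 h3⟩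

lemma Tb_eq {w : ℕ} {b : ℕ → ℕ} {H n0 : ℕ} (hn0 : n0 ∈ Tb w b H) :
    Tb w b H = (Icc 1 H).filter (fun n => n ≡ n0 [MOD Wn w]) := by
  unfold Tb
  apply filter_congr
  intro n _
  have h0 := (mem_Tb.1 hn0).2
  constructor
  · intro h
    unfold Wn
    have hcop : Set.Pairwise (↑(pz w)) (Function.onFun Nat.Coprime (fun p : ℕ => p)) := by
      intro p hp p' hp' hne
      exact (Nat.coprime_primes (mem_pz.1 hp).2 (mem_pz.1 hp').2).2 hne
    have h1 : ∀ p ∈ pz w, (p : ℤ) ∣ (n0 : ℤ) - n := by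
      intro p hp
      have a1 : (p : ℤ) ∣ ((n + b p : ℕ) : ℤ) := Int.natCast_dvd_natCast.2 (h p hp)
      have a2 : (p : ℤ) ∣ ((n0 + b p : ℕ) : ℤ) := Int.natCast_dvd_natCast.2 (h0 p hp)
      have a3 := dvd_sub a2 a1
      have e : ((n0 + b p : ℕ) : ℤ) - ((n + b p : ℕ) : ℤ) = (n0 : ℤ) - n := by
        push_cast
        ring
      rwa [e] at a3
    rw [Nat.modEq_iff_dvd]
    have h2 : ∏ p ∈ pz w, (p : ℤ) ∣ (n0 : ℤ) - n := by
      apply Finset.prod_dvd_of_coprime _ h1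
      intro p hp p' hp' hne
      exact Nat.isCoprime_iff_coprime.2 (hcop hp hp' hne)
    push_cast
    exact h2
  · intro h p hp
    have h1 : n ≡ n0 [MOD p] := modEq_Wn h hp
    have h2 : n + b p ≡ n0 + b p [MOD p] := h1.add_right _
    exact (Nat.modEq_zero_iff_dvd).1 (h2.trans ((Nat.modEq_zero_iff_dvd).2 (h0 p hp)))

/-- the weighted number of shifts for the model is a count -/
lemma XX_count {w z k H n0 : ℕ} {b : ℕ → ℕ} (hwz : w ≤ z) (hn0 : n0 ∈ Tb w b H) {a : Fin k → ℕ}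
    (ha : a ∈ tup k (Sb w b H)) :
    XX (Gm w z) (Tb w b H) a = (Vz w * (Vz z)⁻¹) ^ k *
      (((Icc 1 H).filter (fun n => n ≡ n0 [MOD Wn w] ∧
        ∀ p ∈ DD w z, ¬ ∃ e ∈ univ.image a, p ∣ n % p + e)).card : ℝ) := by
  unfold XX
  have h1 : ∀ n ∈ Tb w b H, ∏ i, Gm w z (n + a i) =
      if (∀ p ∈ DD w z, ¬ ∃ e ∈ univ.image a, p ∣ n % p + e) then (Vz w * (Vz z)⁻¹) ^ k else 0 := by
    intro n hn
    have hiff : ∀ i, (∀ p ∈ pz z, ¬ p ∣ n + a i) ↔ (∀ p ∈ DD w z, ¬ p ∣ n + a i) := by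
      intro i
      constructor
      · intro h p hp
        exact h p (mem_sdiff.1 hp).1
      · intro h p hp
        by_cases hpw : p ∈ pz w
        · exact not_dvd_of_mem hn (mem_tup.1 ha i) hpw
        · exact h p (mem_sdiff.2 ⟨hp, hpw⟩)
    have hmod : ∀ p e, (p ∣ n % p + e ↔ p ∣ n + e) := by
      intro p e
      rw [add_comm (n % p), dvd_add_mod, add_comm]
    split_ifs with h
    · rw [prod_congr rfl (g := fun _ : Fin k => Vz w * (Vz z)⁻¹)]
      · rw [prod_const, card_univ, Fintype.card_fin]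
      · intro i _
        unfold Gm lamz
        rw [if_pos]
        rw [hiff]
        intro p hp h2
        exact h p hp ⟨a i, mem_image_of_mem _ (mem_univ i), (hmod p _).2 h2⟩
    · push Not at h
      obtain ⟨p, hp, e, he, h2⟩ := h
      rw [mem_image] at he
      obtain ⟨i, _, rfl⟩ := he
      apply prod_eq_zero (mem_univ i)
      unfold Gm lamz
      rw [if_neg, mul_zero]
      rw [hiff]
      intro h3
      exact h3 p hp ((hmod p _).1 h2)
  rw [sum_congr rfl h1, sum_ite, sum_const_zero, add_zero, sum_const, nsmul_eq_mul, mul_comm, Tb_eq hn0,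
    filter_filter]

/-- **the lower bound for the model** -/
theorem XX_lower {w z k K H r : ℕ} {b : ℕ → ℕ} (hK1 : 1 ≤ K) (hkK : k ≤ K) (hKw : 2 * K + 2 ≤ w) (hwz : w ≤ z)
    (hT : (Tb w b H).Nonempty) {a : Fin k → ℕ} (ha : a ∈ tup k (Sb w b H))
    (hr : 5 * K * ∑ p ∈ pz z, 1 / (p : ℝ) + 3 ≤ r)
    (hsz : 4 * (K * ((z : ℝ) + 1)) ^ r * Real.exp (2 * K * ∑ p ∈ pz z, 1 / (p : ℝ)) ≤ H / Wp w) :
    H / Wp w / 2 ≤ rinv w z k (univ.image a) * XX (Gm w z) (Tb w b H) a := by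
  obtain ⟨n0, hn0⟩ := hT
  obtain ⟨E, hE⟩ : ∃ E : Finset ℕ, E = univ.image a := ⟨_, rfl⟩
  obtain ⟨X, hX⟩ : ∃ X : ℝ, X = (H : ℝ) / Wp w := ⟨_, rfl⟩
  obtain ⟨Sz, hSz⟩ : ∃ Sz : ℝ, Sz = ∑ p ∈ pz z, 1 / (p : ℝ) := ⟨_, rfl⟩
  rw [XX_count hwz hn0 ha, ← hE, ← hX]
  rw [← hSz] at hr
  rw [← hSz, ← hX] at hsz
  have hcardE : E.card ≤ K := by
    rw [hE]
    exact (card_image_le.trans (by simp)).trans hkK
  have hWp0 : 0 < Wp w := by linarith [Wp_ge w]
  have hX0 : 0 ≤ X := by rw [hX]; positivity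
  have hKr : (1 : ℝ) ≤ K := by exact_mod_cast hK1
  have hDp : ∀ p ∈ DD w z, w < p ∧ p ≤ z ∧ p.Prime := fun p hp => mem_DD.1 hp
  -- the sieve
  have hs := sieve_k (fun p r => ∃ e ∈ E, p ∣ r + e) H z r (Wn w) n0 K hK1 (DD w z) sdiff_subset (Wn_pos w)
    (fun p hp => Wn_cop hp) (fun p hp => by
      rw [card_hit (hDp p hp).2.2]
      exact (nu_le p E).trans hcardE)
  rw [Wn_cast, ← hX, ← hSz] at hs
  obtain ⟨C, hC⟩ : ∃ C : ℝ, C = (((Icc 1 H).filter (fun n => n ≡ n0 [MOD Wn w] ∧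
        ∀ p ∈ DD w z, ¬ ∃ e ∈ E, p ∣ n % p + e)).card : ℝ) := ⟨_, rfl⟩
  rw [← hC] at hs ⊢
  have e1 : ∏ p ∈ DD w z, (1 - (((range p).filter (fun r => ∃ e ∈ E, p ∣ r + e)).card : ℝ) / p) =
      ∏ p ∈ DD w z, (((miss p E).card : ℝ) / p) := by
    apply prod_congr rfl
    intro p hp
    rw [card_hit (hDp p hp).2.2]
    have h1 : ((nu p E : ℝ)) + (miss p E).card = p := by exact_mod_cast nu_add p E
    have hp0 : (0 : ℝ) < p := by exact_mod_cast (hDp p hp).2.2.pos
    rw [eq_div_iff hp0.ne', sub_mul, div_mul_cancel₀ _ hp0.ne']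
    linarith
  rw [e1] at hs
  -- the densities
  have hm : ∀ p ∈ DD w z, (p : ℝ) / 2 ≤ (miss p E).card ∧ (nu p E : ℝ) ≤ K ∧ (0 : ℝ) < p ∧
      ((nu p E : ℝ)) + (miss p E).card = p ∧ 2 * (K : ℝ) ≤ p := by
    intro p hp
    have h1 : ((nu p E : ℝ)) + (miss p E).card = p := by exact_mod_cast nu_add p E
    have h2 : (nu p E : ℝ) ≤ K := by exact_mod_cast (nu_le p E).trans hcardE
    have h3 : 2 * K + 2 ≤ p := by have := (hDp p hp).1; omega
    have h4 : 2 * (K : ℝ) + 2 ≤ p := by exact_mod_cast h3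
    refine ⟨by linarith, h2, by linarith, h1, by linarith⟩
  have hprodle : ∏ p ∈ DD w z, ((p : ℝ) / (miss p E).card) ≤ Real.exp (2 * K * Sz) := by
    calc ∏ p ∈ DD w z, ((p : ℝ) / (miss p E).card) ≤ ∏ p ∈ DD w z, Real.exp (2 * K * (1 / (p : ℝ))) := by
          apply prod_le_prod
          · intro p hp
            exact div_nonneg (Nat.cast_nonneg _) (Nat.cast_nonneg _)
          · intro p hp
            obtain ⟨h1, h2, h3, h4, h5⟩ := hm p hp
            have h6 : (0 : ℝ) < (miss p E).card := by linarith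
            rw [div_le_iff₀ h6]
            have h7 := Real.add_one_le_exp (2 * K * (1 / (p : ℝ)))
            have h8 : (p : ℝ) ≤ (2 * K * (1 / (p : ℝ)) + 1) * (miss p E).card := by
              have e : (2 * K * (1 / (p : ℝ)) + 1) * (miss p E).card =
                  (2 * K * (miss p E).card + p * (miss p E).card) / p := by
                field_simp
              rw [e, le_div_iff₀ h3]
              nlinarith
            exact h8.trans (mul_le_mul_of_nonneg_right h7 h6.le)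
      _ = Real.exp (∑ p ∈ DD w z, 2 * K * (1 / (p : ℝ))) := by rw [Real.exp_sum]
      _ ≤ _ := by
          apply Real.exp_le_exp.2
          rw [← mul_sum, hSz]
          apply mul_le_mul_of_nonneg_left _ (by positivity)
          exact sum_le_sum_of_subset_of_nonneg sdiff_subset (fun _ _ _ => by positivity)
  have hprod0 : 0 < ∏ p ∈ DD w z, ((p : ℝ) / (miss p E).card) := by
    apply prod_pos
    intro p hp
    obtain ⟨h1, h2, h3, h4, h5⟩ := hm p hp
    exact div_pos h3 (by linarith)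
  have e2 : rinv w z k E * (Vz w * (Vz z)⁻¹) ^ k = ∏ p ∈ DD w z, ((p : ℝ) / (miss p E).card) := by
    unfold rinv
    rw [prod_mul_distrib, prod_pow]
    have h1 : ∏ p ∈ DD w z, (1 - 1 / (p : ℝ)) = Vz z * (Vz w)⁻¹ := prod_D hwz
    rw [h1]
    have h2 := Vz_pos w
    have h3 := Vz_pos z
    have h4 : (Vz z * (Vz w)⁻¹) ^ k * (Vz w * (Vz z)⁻¹) ^ k = 1 := by
      rw [← mul_pow]
      have : Vz z * (Vz w)⁻¹ * (Vz w * (Vz z)⁻¹) = 1 := by field_simp
      rw [this, one_pow]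
    calc (Vz z * (Vz w)⁻¹) ^ k * (∏ p ∈ DD w z, ((p : ℝ) / (miss p E).card)) * (Vz w * (Vz z)⁻¹) ^ k =
          ((Vz z * (Vz w)⁻¹) ^ k * (Vz w * (Vz z)⁻¹) ^ k) * ∏ p ∈ DD w z, ((p : ℝ) / (miss p E).card) := by ring
      _ = _ := by rw [h4, one_mul]
  have e3 : (∏ p ∈ DD w z, ((p : ℝ) / (miss p E).card)) * (∏ p ∈ DD w z, (((miss p E).card : ℝ) / p)) = 1 := by
    rw [← prod_mul_distrib]
    apply prod_eq_one
    intro p hp
    obtain ⟨h1, h2, h3, h4, h5⟩ := hm p hp
    have h6 : (0 : ℝ) < (miss p E).card := by linarith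
    field_simp
  rw [← mul_assoc, e2]
  obtain ⟨P, hP⟩ : ∃ P : ℝ, P = ∏ p ∈ DD w z, ((p : ℝ) / (miss p E).card) := ⟨_, rfl⟩
  obtain ⟨P', hP'⟩ : ∃ P' : ℝ, P' = ∏ p ∈ DD w z, (((miss p E).card : ℝ) / p) := ⟨_, rfl⟩
  rw [← hP] at hprodle hprod0 e3 ⊢
  rw [← hP'] at e3 hs
  obtain ⟨err, herr⟩ : ∃ err : ℝ, err = (K * ((z : ℝ) + 1)) ^ r + 2 * X * Real.exp (3 * K * Sz - r) := ⟨_, rfl⟩
  rw [← herr] at hs
  have hl := (abs_le.1 hs).1
  have herr0 : 0 ≤ err := by rw [herr]; positivity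
  have h1 : P * C ≥ P * (X * P') - P * err := by
    have := mul_le_mul_of_nonneg_left (by linarith : X * P' - err ≤ C) hprod0.le
    linarith
  have h2 : P * (X * P') = X := by
    calc P * (X * P') = X * (P * P') := by ring
      _ = X := by rw [e3, mul_one]
  have h3 : P * err ≤ Real.exp (2 * K * Sz) * err := mul_le_mul_of_nonneg_right hprodle herr0
  have h4 : Real.exp (2 * K * Sz) * err ≤ X / 4 + X / 4 := by
    rw [herr, mul_add]
    apply add_le_add
    · linarith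
    · have h5 : Real.exp (2 * K * Sz) * (2 * X * Real.exp (3 * K * Sz - r)) =
          2 * X * Real.exp (5 * K * Sz - r) := by
        rw [show Real.exp (2 * K * Sz) * (2 * X * Real.exp (3 * K * Sz - r)) =
          2 * X * (Real.exp (2 * K * Sz) * Real.exp (3 * K * Sz - r)) by ring, ← Real.exp_add]
        congr 2
        ring
      rw [h5]
      have h6 : Real.exp (5 * K * Sz - r) ≤ Real.exp (-3) := Real.exp_le_exp.2 (by linarith)
      have h7 : Real.exp (-3) ≤ 1 / 8 := by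
        rw [Real.exp_neg, ← one_div]
        apply one_div_le_one_div_of_le (by norm_num)
        have h8 : (2 : ℝ) ≤ Real.exp 1 := by linarith [Real.exp_one_gt_d9]
        have h9 : Real.exp 3 = Real.exp 1 ^ 3 := by
          rw [← Real.exp_nat_mul]
          norm_num
        rw [h9]
        calc (8 : ℝ) = 2 ^ 3 := by norm_num
          _ ≤ Real.exp 1 ^ 3 := pow_le_pow_left₀ (by norm_num) h8 3
      have h10 := mul_le_mul_of_nonneg_left (h6.trans h7) (by positivity : 0 ≤ 2 * X)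
      linarith
  linarith

end Pool.Agent.E8helper91.PT
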