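import Pool.Agent.E8helper91.PT.T3

set_option autoImplicit false

/-!
# The difference of two models
-/

open Finset
open scoped Real

namespace Pool.Agent.E8helper91.PT

open Pool.Agent.R521.F6
open Pool.Agent.H373R2.T7 (pz Vz lamz mem_pz Vz_pos Vz_le_one card_pz_le lamz_nonneg)

/-- the number of classes excluded -/
noncomputable def rr2 (z1 z2 n m p : ℕ) : ℝ :=
  if p ≤ z1 then (if p ≤ z2 then rh n m p else 1) else (if p ≤ z2 then 1 else 0)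

/-- the number of `a ≤ H` with `n + a` free of primes up to `z1` and `m + a` free of primes up to `z2` -/
theorem cnt_gen (n m H Q r z1 z2 : ℕ) (hn : 1 ≤ n) (hm : 1 ≤ m) :
    |(((range (H + 1)).filter (fun a => ∀ p ∈ pz Q, ¬ ((p ≤ z1 ∧ p ∣ n + a) ∨ (p ≤ z2 ∧ p ∣ m + a)))).card : ℝ) -
      ((H : ℝ) + 1) * ∏ p ∈ pz Q, (1 - rr2 z1 z2 n m p / p)| ≤ serr (H + 1) Q r := by
  have hcard : ∀ p ∈ pz Q, ((((range p).filter
      (fun c => (p ≤ z1 ∧ p ∣ (n - 1) + c) ∨ (p ≤ z2 ∧ p ∣ (m - 1) + c))).card : ℕ) : ℝ) = rr2 z1 z2 n m p := by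
    intro p hp
    have hpp := (mem_pz.1 hp).2
    unfold rr2
    by_cases h1 : p ≤ z1 <;> by_cases h2 : p ≤ z2
    · simp only [h1, h2, true_and, if_true]
      rw [rho_two hpp]
      unfold rh
      have h3 : (n - 1 ≡ m - 1 [MOD p]) ↔ (n ≡ m [MOD p]) := by
        constructor
        · intro h4
          have := h4.add_right 1
          rwa [Nat.sub_add_cancel hn, Nat.sub_add_cancel hm] at this
        · intro h4
          rw [← Nat.sub_add_cancel hn, ← Nat.sub_add_cancel hm] at h4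
          exact Nat.ModEq.add_right_cancel' 1 h4
      by_cases h4 : n ≡ m [MOD p]
      · rw [if_pos (h3.2 h4), if_pos h4]
        norm_num
      · rw [if_neg (fun h5 => h4 (h3.1 h5)), if_neg h4]
        norm_num
    · simp only [h1, h2, true_and, false_and, or_false, if_true, if_false]
      rw [rho_one hpp]
      norm_num
    · simp only [h1, h2, true_and, false_and, false_or, if_true, if_false]
      rw [rho_one hpp]
      norm_num
    · simp only [h1, h2, false_and, or_false, if_false, filter_false, card_empty]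
      norm_num
  have h := sieve_sys (fun p c => (p ≤ z1 ∧ p ∣ (n - 1) + c) ∨ (p ≤ z2 ∧ p ∣ (m - 1) + c)) (H + 1) Q r
    (fun p hp => by
      have h1 := hcard p hp
      have h2 : rr2 z1 z2 n m p ≤ 2 := by
        unfold rr2 rh
        split_ifs <;> norm_num
      have h3 : ((((range p).filter
        (fun c => (p ≤ z1 ∧ p ∣ (n - 1) + c) ∨ (p ≤ z2 ∧ p ∣ (m - 1) + c))).card : ℕ) : ℝ) ≤ ((2 : ℕ) : ℝ) := by
        rw [h1]
        exact_mod_cast h2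
      exact_mod_cast h3)
  rw [card_range_shift]
  have e1 : (Icc 1 (H + 1)).filter (fun l => ∀ p ∈ pz Q, ¬ ((p ≤ z1 ∧ p ∣ n + (l - 1)) ∨ (p ≤ z2 ∧ p ∣ m + (l - 1)))) =
      (Icc 1 (H + 1)).filter (fun l => ∀ p ∈ pz Q,
        ¬ ((p ≤ z1 ∧ p ∣ (n - 1) + l % p) ∨ (p ≤ z2 ∧ p ∣ (m - 1) + l % p))) := by
    apply filter_congr
    intro l hl
    rw [mem_Icc] at hl
    have e : n + (l - 1) = (n - 1) + l := by omega
    have e' : m + (l - 1) = (m - 1) + l := by omega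
    simp only [dvd_add_mod, e, e']
  rw [e1]
  rw [prod_congr rfl (g := fun p : ℕ => (1 - rr2 z1 z2 n m p / (p : ℝ))) (fun p hp => by rw [hcard p hp])] at h
  push_cast at h
  exact h

/-- correlations of two models over the sifted set -/
theorem sum_GG {w Q z1 z2 : ℕ} (hw1 : w ≤ z1) (h1Q : z1 ≤ Q) (h2Q : z2 ≤ Q) {b : ℕ → ℕ} {H n m : ℕ}
    (hn : n ∈ Tb w b H) (hm : m ∈ Tb w b H) (r : ℕ) :
    |∑ a ∈ Sb w b H, Gm w z1 (n + a) * Gm w z2 (m + a) -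
      (Vz w) ^ 2 * ((Vz z1)⁻¹ * (Vz z2)⁻¹) * (((H : ℝ) + 1) * ∏ p ∈ pz Q, (1 - rr2 z1 z2 n m p / p))| ≤
      (Vz w) ^ 2 * ((Vz z1)⁻¹ * (Vz z2)⁻¹) * serr (H + 1) Q r := by
  have hn1 := (mem_Tb.1 hn).1.1
  have hm1 := (mem_Tb.1 hm).1.1
  have h := cnt_gen n m H Q r z1 z2 hn1 hm1
  have hc0 : 0 ≤ (Vz w) ^ 2 * ((Vz z1)⁻¹ * (Vz z2)⁻¹) := by
    have := Vz_pos w
    have := Vz_pos z1
    have := Vz_pos z2
    positivity
  have e1 : ∑ a ∈ Sb w b H, Gm w z1 (n + a) * Gm w z2 (m + a) = (Vz w) ^ 2 * ((Vz z1)⁻¹ * (Vz z2)⁻¹) *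
      (((range (H + 1)).filter (fun a => ∀ p ∈ pz Q, ¬ ((p ≤ z1 ∧ p ∣ n + a) ∨ (p ≤ z2 ∧ p ∣ m + a)))).card : ℝ) := by
    have e2 : ∀ a ∈ Sb w b H, Gm w z1 (n + a) * Gm w z2 (m + a) =
        if (∀ p ∈ pz Q, ¬ ((p ≤ z1 ∧ p ∣ n + a) ∨ (p ≤ z2 ∧ p ∣ m + a))) then
          (Vz w) ^ 2 * ((Vz z1)⁻¹ * (Vz z2)⁻¹) else 0 := by
      intro a _
      have hiff : (∀ p ∈ pz Q, ¬ ((p ≤ z1 ∧ p ∣ n + a) ∨ (p ≤ z2 ∧ p ∣ m + a))) ↔
          ((∀ p ∈ pz z1, ¬ p ∣ n + a) ∧ (∀ p ∈ pz z2, ¬ p ∣ m + a)) := by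
        constructor
        · intro h1
          constructor
          · intro p hp h2
            have hp' := mem_pz.1 hp
            exact h1 p (mem_pz.2 ⟨hp'.1.trans h1Q, hp'.2⟩) (Or.inl ⟨hp'.1, h2⟩)
          · intro p hp h2
            have hp' := mem_pz.1 hp
            exact h1 p (mem_pz.2 ⟨hp'.1.trans h2Q, hp'.2⟩) (Or.inr ⟨hp'.1, h2⟩)
        · rintro ⟨h1, h2⟩ p hp (h3 | h3)
          · exact h1 p (mem_pz.2 ⟨h3.1, (mem_pz.1 hp).2⟩) h3.2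
          · exact h2 p (mem_pz.2 ⟨h3.1, (mem_pz.1 hp).2⟩) h3.2
      by_cases h1 : (∀ p ∈ pz z1, ¬ p ∣ n + a) ∧ (∀ p ∈ pz z2, ¬ p ∣ m + a)
      · rw [if_pos (hiff.2 h1)]
        unfold Gm lamz
        rw [if_pos h1.1, if_pos h1.2]
        ring
      · rw [if_neg (fun h2 => h1 (hiff.1 h2))]
        unfold Gm lamz
        rw [not_and_or] at h1
        rcases h1 with h1 | h1
        · rw [if_neg h1]
          ring
        · rw [if_neg h1]
          ring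
    rw [sum_congr rfl e2, sum_ite, sum_const_zero, add_zero, sum_const, nsmul_eq_mul, mul_comm]
    congr 3
    ext a
    rw [mem_filter, mem_filter, mem_range, mem_Sb, Nat.lt_succ_iff]
    constructor
    · rintro ⟨⟨h1, _⟩, h2⟩
      exact ⟨h1, h2⟩
    · rintro ⟨h1, h2⟩
      refine ⟨⟨h1, fun p hp h3 => ?_⟩, h2⟩
      have hp' := mem_pz.1 hp
      have h4 : p ∣ n + a := (modEq_iff_dvd_add ((mem_Tb.1 hn).2 p hp)).1 h3
      exact h2 p (mem_pz.2 ⟨(hp'.1.trans hw1).trans h1Q, hp'.2⟩) (Or.inl ⟨hp'.1.trans hw1, h4⟩)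
  rw [e1, ← mul_sub, abs_mul, abs_of_nonneg hc0]
  exact mul_le_mul_of_nonneg_left h hc0

lemma prod_QQ {z Q : ℕ} (hzQ : z ≤ Q) (n m : ℕ) :
    ∏ p ∈ pz Q, (1 - rr2 Q Q n m p / (p : ℝ)) =
      (∏ p ∈ pz z, (1 - rh n m p / (p : ℝ))) * ∏ p ∈ DD z Q, (1 - rh n m p / (p : ℝ)) := by
  rw [mul_comm]
  unfold DD
  rw [prod_sdiff (pz_mono hzQ)]
  apply prod_congr rfl
  intro p hp
  unfold rr2
  rw [if_pos (mem_pz.1 hp).1, if_pos (mem_pz.1 hp).1]

lemma prod_Qz {z Q : ℕ} (hzQ : z ≤ Q) (n m : ℕ) :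
    ∏ p ∈ pz Q, (1 - rr2 Q z n m p / (p : ℝ)) =
      (∏ p ∈ pz z, (1 - rh n m p / (p : ℝ))) * ∏ p ∈ DD z Q, (1 - 1 / (p : ℝ)) := by
  rw [mul_comm]
  have e : ∏ p ∈ pz Q, (1 - rr2 Q z n m p / (p : ℝ)) =
      (∏ p ∈ DD z Q, (1 - rr2 Q z n m p / (p : ℝ))) * ∏ p ∈ pz z, (1 - rr2 Q z n m p / (p : ℝ)) := by
    unfold DD
    rw [prod_sdiff (pz_mono hzQ)]
  rw [e]
  congr 1
  · apply prod_congr rfl
    intro p hp
    have h := mem_DD.1 hp
    unfold rr2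
    rw [if_pos h.2.1, if_neg (not_le.2 h.1)]
  · apply prod_congr rfl
    intro p hp
    have h := mem_pz.1 hp
    unfold rr2
    rw [if_pos (h.1.trans hzQ), if_pos h.1]

lemma prod_zQ {z Q : ℕ} (hzQ : z ≤ Q) (n m : ℕ) :
    ∏ p ∈ pz Q, (1 - rr2 z Q n m p / (p : ℝ)) =
      (∏ p ∈ pz z, (1 - rh n m p / (p : ℝ))) * ∏ p ∈ DD z Q, (1 - 1 / (p : ℝ)) := by
  rw [mul_comm]
  have e : ∏ p ∈ pz Q, (1 - rr2 z Q n m p / (p : ℝ)) =
      (∏ p ∈ DD z Q, (1 - rr2 z Q n m p / (p : ℝ))) * ∏ p ∈ pz z, (1 - rr2 z Q n m p / (p : ℝ)) := by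
    unfold DD
    rw [prod_sdiff (pz_mono hzQ)]
  rw [e]
  congr 1
  · apply prod_congr rfl
    intro p hp
    have h := mem_DD.1 hp
    unfold rr2
    rw [if_neg (not_le.2 h.1), if_pos h.2.1]
  · apply prod_congr rfl
    intro p hp
    have h := mem_pz.1 hp
    unfold rr2
    rw [if_pos h.1, if_pos (h.1.trans hzQ)]

lemma prod_zz {z Q : ℕ} (hzQ : z ≤ Q) (n m : ℕ) :
    ∏ p ∈ pz Q, (1 - rr2 z z n m p / (p : ℝ)) = ∏ p ∈ pz z, (1 - rh n m p / (p : ℝ)) := by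
  have e : ∏ p ∈ pz Q, (1 - rr2 z z n m p / (p : ℝ)) =
      (∏ p ∈ DD z Q, (1 - rr2 z z n m p / (p : ℝ))) * ∏ p ∈ pz z, (1 - rr2 z z n m p / (p : ℝ)) := by
    unfold DD
    rw [prod_sdiff (pz_mono hzQ)]
  have e2 : ∏ p ∈ DD z Q, (1 - rr2 z z n m p / (p : ℝ)) = 1 := by
    apply prod_eq_one
    intro p hp
    have h := mem_DD.1 hp
    unfold rr2
    rw [if_neg (not_le.2 h.1), if_neg (not_le.2 h.1)]
    simp
  rw [e, e2, one_mul]
  apply prod_congr rfl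
  intro p hp
  have h := mem_pz.1 hp
  unfold rr2
  rw [if_pos h.1, if_pos h.1]

/-- the number of primes in a set at which two integers are congruent -/
lemma card_cong {n m H : ℕ} (hn : n ≤ H) (hm : m ≤ H) (hne : n ≠ m) (D : Finset ℕ)
    (hD : ∀ p ∈ D, p.Prime) : ((D.filter (fun p => n ≡ m [MOD p])).card : ℝ) ≤ 2 * Real.log H := by
  wlog h : m < n generalizing n m
  · have h2 : n < m := by omega
    have h3 := this hm hn hne.symm h2
    have e : D.filter (fun p => n ≡ m [MOD p]) = D.filter (fun p => m ≡ n [MOD p]) := by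
      apply filter_congr
      intro p _
      exact ⟨fun h => h.symm, fun h => h.symm⟩
    rw [e]
    exact h3
  set F := D.filter (fun p => n ≡ m [MOD p]) with hF
  have hdv : ∏ p ∈ F, p ∣ n - m := by
    have h1 : ∀ p ∈ F, p ∣ n - m := by
      intro p hp
      have := (mem_filter.1 hp).2
      exact (Nat.modEq_iff_dvd' h.le).1 this.symm
    exact Finset.prod_primes_dvd (n - m) (fun p hp => (hD p (mem_filter.1 hp).1).prime) h1
  have h2 : 2 ^ F.card ≤ ∏ p ∈ F, p := by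
    rw [← prod_const]
    exact prod_le_prod' fun p hp => (hD p (mem_filter.1 hp).1).two_le
  have h3 : 2 ^ F.card ≤ H := h2.trans ((Nat.le_of_dvd (by omega) hdv).trans (by omega))
  have h4 : ((2 : ℝ) ^ F.card) ≤ H := by exact_mod_cast h3
  have h5 := Real.log_le_log (by positivity) h4
  rw [Real.log_pow] at h5
  have h6 := Real.log_two_gt_d9
  have h7 : (0 : ℝ) ≤ F.card := Nat.cast_nonneg _
  nlinarith

/-- the relative correlation for the larger primes -/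
lemma corr_ratio {z Q H n m : ℕ} (hz : 2 ≤ z) (hn : n ≤ H) (hm : m ≤ H) (hne : n ≠ m)
    (hH : 1 ≤ Real.log H) (hzH : 4 * Real.log H ≤ z) :
    |(∏ p ∈ DD z Q, (1 - rh n m p / (p : ℝ))) / (∏ p ∈ DD z Q, (1 - 1 / (p : ℝ))) ^ 2 - 1| ≤
      8 * Real.log H / z := by
  have hz0 : (0 : ℝ) < z := by exact_mod_cast (by omega : 0 < z)
  have hD : ∀ p ∈ DD z Q, (z : ℝ) + 1 ≤ p ∧ (3 : ℝ) ≤ p := by
    intro p hp
    have h := (mem_DD.1 hp).1
    constructor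
    · exact_mod_cast h
    · exact_mod_cast (by omega : 3 ≤ p)
  rw [← prod_pow, ← prod_div_distrib]
  have hup : ∏ p ∈ DD z Q, (1 - rh n m p / (p : ℝ)) / (1 - 1 / (p : ℝ)) ^ 2 ≤ 1 + 8 * Real.log H / z := by
    have h1 : ∀ p ∈ DD z Q, (1 - rh n m p / (p : ℝ)) / (1 - 1 / (p : ℝ)) ^ 2 ≤
        Real.exp (if n ≡ m [MOD p] then 2 / (z : ℝ) else 0) := by
      intro p hp
      obtain ⟨h2, h3⟩ := hD p hp
      have hp0 : (0 : ℝ) < p := by linarith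
      have h4 : 0 < 1 - 1 / (p : ℝ) := by
        rw [sub_pos, div_lt_one hp0]
        linarith
      rw [div_le_iff₀ (by positivity)]
      unfold rh
      split_ifs with h5
      · have h6 : 1 + 2 / (z : ℝ) ≤ Real.exp (2 / (z : ℝ)) := by
          linarith [Real.add_one_le_exp (2 / (z : ℝ))]
        have h7 : 1 ≤ (1 + 2 / (z : ℝ)) * (1 - 1 / (p : ℝ)) := by
          have h8 : 1 / (p : ℝ) ≤ 1 / (z : ℝ) := one_div_le_one_div_of_le hz0 (by linarith)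
          have h9 : 1 / (z : ℝ) ≤ 1 / 2 := by
            apply one_div_le_one_div_of_le (by norm_num)
            exact_mod_cast hz
          have h10 : 2 / (z : ℝ) = 2 * (1 / (z : ℝ)) := by ring
          rw [h10]
          have h11 : 0 ≤ 1 / (z : ℝ) := by positivity
          nlinarith
        calc 1 - 1 / (p : ℝ) ≤ ((1 + 2 / (z : ℝ)) * (1 - 1 / (p : ℝ))) * (1 - 1 / (p : ℝ)) :=
              le_mul_of_one_le_left h4.le h7
          _ = (1 + 2 / (z : ℝ)) * (1 - 1 / (p : ℝ)) ^ 2 := by ring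
          _ ≤ _ := mul_le_mul_of_nonneg_right h6 (by positivity)
      · rw [Real.exp_zero, one_mul]
        have e : (1 - 1 / (p : ℝ)) ^ 2 = 1 - 2 / p + (1 / (p : ℝ)) ^ 2 := by ring
        rw [e]
        have : 0 ≤ (1 / (p : ℝ)) ^ 2 := by positivity
        linarith
    calc ∏ p ∈ DD z Q, (1 - rh n m p / (p : ℝ)) / (1 - 1 / (p : ℝ)) ^ 2 ≤
          ∏ p ∈ DD z Q, Real.exp (if n ≡ m [MOD p] then 2 / (z : ℝ) else 0) := by
          apply prod_le_prod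
          · intro p hp
            obtain ⟨h2, h3⟩ := hD p hp
            apply div_nonneg _ (sq_nonneg _)
            rw [sub_nonneg, div_le_one (by linarith)]
            unfold rh
            split_ifs <;> linarith
          · exact h1
      _ = Real.exp (((DD z Q).filter (fun p => n ≡ m [MOD p])).card * (2 / (z : ℝ))) := by
          rw [← Real.exp_sum, sum_ite, sum_const_zero, add_zero, sum_const, nsmul_eq_mul]
      _ ≤ Real.exp (4 * Real.log H / z) := by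
          apply Real.exp_le_exp.2
          have h2 := card_cong hn hm hne (DD z Q) (fun p hp => (mem_DD.1 hp).2.2)
          calc _ ≤ (2 * Real.log H) * (2 / (z : ℝ)) := mul_le_mul_of_nonneg_right h2 (by positivity)
            _ = _ := by ring
      _ ≤ 1 + 2 * (4 * Real.log H / z) := by
          apply exp_sub_one_le (by positivity)
          rw [div_le_one hz0]
          exact hzH
      _ = _ := by ring
  have hlow : 1 - 8 / (z : ℝ) ≤ ∏ p ∈ DD z Q, (1 - rh n m p / (p : ℝ)) / (1 - 1 / (p : ℝ)) ^ 2 := by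
    have h1 : ∀ p ∈ DD z Q, Real.exp (-(8 * (1 / (p : ℝ) ^ 2))) ≤
        (1 - rh n m p / (p : ℝ)) / (1 - 1 / (p : ℝ)) ^ 2 := by
      intro p hp
      obtain ⟨h2, h3⟩ := hD p hp
      have hp0 : (0 : ℝ) < p := by linarith
      have h4 : 0 < 1 - 1 / (p : ℝ) := by
        rw [sub_pos, div_lt_one hp0]
        linarith
      have hrh : rh n m p ≤ 2 := by
        unfold rh
        split_ifs <;> norm_num
      have h5 : (1 - 2 / (p : ℝ)) / (1 - 1 / (p : ℝ)) ^ 2 ≤ (1 - rh n m p / (p : ℝ)) / (1 - 1 / (p : ℝ)) ^ 2 := by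
        apply div_le_div_of_nonneg_right _ (by positivity)
        have : rh n m p / (p : ℝ) ≤ 2 / p := div_le_div_of_nonneg_right hrh hp0.le
        linarith
      refine le_trans ?_ h5
      rw [Real.exp_neg, inv_le_comm₀ (Real.exp_pos _)]
      · rw [inv_div]
        refine le_trans ?_ (Real.add_one_le_exp _)
        have h6 : 0 < 1 - 2 / (p : ℝ) := by
          rw [sub_pos, div_lt_one hp0]
          linarith
        rw [div_le_iff₀ h6]
        have hu : 1 / (p : ℝ) ≤ 1 / 3 := one_div_le_one_div_of_le (by norm_num) h3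
        obtain ⟨u, hud⟩ : ∃ u : ℝ, u = 1 / (p : ℝ) := ⟨_, rfl⟩
        have e1 : 2 / (p : ℝ) = 2 * u := by rw [hud]; ring
        have e2 : 1 / (p : ℝ) ^ 2 = u ^ 2 := by rw [hud]; ring
        rw [e1, e2, ← hud]
        rw [← hud] at hu
        have hu0 : 0 ≤ u := by rw [hud]; positivity
        nlinarith [mul_nonneg hu0 hu0, mul_nonneg (mul_nonneg hu0 hu0) (by linarith : 0 ≤ 1 / 3 - u)]
      · apply div_pos _ (by positivity)
        rw [sub_pos, div_lt_one hp0]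
        linarith
    have h2 : ∏ p ∈ DD z Q, Real.exp (-(8 * (1 / (p : ℝ) ^ 2))) ≤
        ∏ p ∈ DD z Q, (1 - rh n m p / (p : ℝ)) / (1 - 1 / (p : ℝ)) ^ 2 :=
      prod_le_prod (fun p _ => (Real.exp_pos _).le) h1
    refine le_trans ?_ h2
    rw [← Real.exp_sum, sum_neg_distrib, ← mul_sum]
    have h3 := sum_sq_tail (by omega : 1 ≤ z) (DD z Q) (fun p hp => (mem_DD.1 hp).1)
    have h4 := Real.add_one_le_exp (-(8 * ∑ p ∈ DD z Q, 1 / (p : ℝ) ^ 2))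
    have e : 8 / (z : ℝ) = 8 * (1 / (z : ℝ)) := by ring
    rw [e]
    linarith
  rw [abs_le]
  constructor
  · have : 8 / (z : ℝ) ≤ 8 * Real.log H / z := by
      apply div_le_div_of_nonneg_right _ hz0.le
      linarith
    linarith
  · linarith

/-- **the correlation of the difference of two models** -/
theorem corr_D {w z Q : ℕ} (hwz : w ≤ z) (hzQ : z ≤ Q) (hz : 2 ≤ z) {b : ℕ → ℕ} {H n m : ℕ}
    (hn : n ∈ Tb w b H) (hm : m ∈ Tb w b H) (hne : n ≠ m) (hH : 1 ≤ Real.log H)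
    (hzH : 4 * Real.log H ≤ z) (r : ℕ) :
    |∑ a ∈ Sb w b H, (Gm w Q (n + a) - Gm w z (n + a)) * (Gm w Q (m + a) - Gm w z (m + a))| ≤
      Vz w * (Vz z)⁻¹ * (((H : ℝ) + 1) * Vz w) * (8 * Real.log H / z) +
        4 * ((Vz w) ^ 2 * ((Vz Q)⁻¹) ^ 2 * serr (H + 1) Q r) := by
  have hVw := Vz_pos w
  have hVz := Vz_pos z
  have hVQ := Vz_pos Q
  have hVzQ : (Vz z)⁻¹ ≤ (Vz Q)⁻¹ := inv_anti₀ hVQ (Vz_anti hzQ)
  have hnH := (mem_Tb.1 hn).1.2
  have hmH := (mem_Tb.1 hm).1.2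
  have hs0 := serr_nonneg (H + 1) Q r
  have hsp : ∑ a ∈ Sb w b H, (Gm w Q (n + a) - Gm w z (n + a)) * (Gm w Q (m + a) - Gm w z (m + a)) =
      ∑ a ∈ Sb w b H, Gm w Q (n + a) * Gm w Q (m + a) - ∑ a ∈ Sb w b H, Gm w Q (n + a) * Gm w z (m + a) -
      ∑ a ∈ Sb w b H, Gm w z (n + a) * Gm w Q (m + a) + ∑ a ∈ Sb w b H, Gm w z (n + a) * Gm w z (m + a) := by
    rw [← sum_sub_distrib, ← sum_sub_distrib, ← sum_add_distrib]
    apply sum_congr rfl
    intro a _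
    ring
  have c1 := sum_GG (hwz.trans hzQ) le_rfl le_rfl hn hm (Q := Q) (z2 := Q) r
  have c2 := sum_GG (hwz.trans hzQ) le_rfl hzQ hn hm r
  have c3 := sum_GG hwz hzQ (le_refl Q) hn hm r
  have c4 := sum_GG hwz hzQ hzQ hn hm r
  rw [prod_QQ hzQ] at c1
  rw [prod_Qz hzQ] at c2
  rw [prod_zQ hzQ] at c3
  rw [prod_zz hzQ] at c4
  have hratio := corr_ratio (Q := Q) hz hnH hmH hne hH hzH
  have hU : ∏ p ∈ DD z Q, (1 - 1 / (p : ℝ)) = Vz Q * (Vz z)⁻¹ := prod_D hzQ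
  rw [hU] at c2 c3 hratio
  obtain ⟨A, hA⟩ : ∃ A : ℝ, A = ∏ p ∈ pz z, (1 - rh n m p / (p : ℝ)) := ⟨_, rfl⟩
  obtain ⟨B, hB⟩ : ∃ B : ℝ, B = ∏ p ∈ DD z Q, (1 - rh n m p / (p : ℝ)) := ⟨_, rfl⟩
  rw [← hA] at c1 c2 c3 c4
  rw [← hB] at c1 hratio
  have hrhp : ∀ p ∈ pz z, rh n m p ≤ p ∧ 1 ≤ rh n m p := by
    intro p hp
    have : (2 : ℝ) ≤ p := by exact_mod_cast (mem_pz.1 hp).2.two_le
    unfold rh
    split_ifs
    · exact ⟨by linarith, le_rfl⟩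
    · exact ⟨this, by norm_num⟩
  have hA0 : 0 ≤ A := by
    rw [hA]
    apply prod_nonneg
    intro p hp
    have hp0 : (0 : ℝ) < p := by exact_mod_cast (mem_pz.1 hp).2.pos
    rw [sub_nonneg, div_le_one hp0]
    exact (hrhp p hp).1
  have hAV : A ≤ Vz z := by
    rw [hA]
    unfold Vz
    apply prod_le_prod
    · intro p hp
      have hp0 : (0 : ℝ) < p := by exact_mod_cast (mem_pz.1 hp).2.pos
      rw [sub_nonneg, div_le_one hp0]
      exact (hrhp p hp).1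
    · intro p hp
      have hp0 : (0 : ℝ) < p := by exact_mod_cast (mem_pz.1 hp).2.pos
      have := div_le_div_of_nonneg_right (hrhp p hp).2 hp0.le
      linarith
  obtain ⟨h1, hh1⟩ : ∃ h1 : ℝ, h1 = (H : ℝ) + 1 := ⟨_, rfl⟩
  have hh10 : 0 < h1 := by rw [hh1]; positivity
  rw [← hh1] at c1 c2 c3 c4 ⊢
  obtain ⟨s, hs⟩ : ∃ s : ℝ, s = serr (H + 1) Q r := ⟨_, rfl⟩
  rw [← hs] at c1 c2 c3 c4 hs0 ⊢
  obtain ⟨θ, hθ⟩ : ∃ θ : ℝ, θ = 8 * Real.log H / z := ⟨_, rfl⟩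
  rw [← hθ] at hratio ⊢
  obtain ⟨x, hx⟩ : ∃ x : ℝ, x = (Vz z)⁻¹ := ⟨_, rfl⟩
  obtain ⟨y, hy⟩ : ∃ y : ℝ, y = (Vz Q)⁻¹ := ⟨_, rfl⟩
  have hx0 : 0 < x := by rw [hx]; positivity
  have hy0 : 0 < y := by rw [hy]; positivity
  have hVze : Vz z = x⁻¹ := by rw [hx, inv_inv]
  have hVQe : Vz Q = y⁻¹ := by rw [hy, inv_inv]
  rw [← hy] at c1
  rw [← hx, ← hy, hVQe] at c2 c3
  rw [← hx] at c4
  rw [← hx, ← hy] at hVzQ ⊢
  rw [← hx, hVQe] at hratio
  rw [hVze] at hAV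
  have hmain : |(Vz w) ^ 2 * (y * y) * (h1 * (A * B)) - (Vz w) ^ 2 * (y * x) * (h1 * (A * (y⁻¹ * x))) -
      (Vz w) ^ 2 * (x * y) * (h1 * (A * (y⁻¹ * x))) + (Vz w) ^ 2 * (x * x) * (h1 * A)| ≤
      Vz w * x * (h1 * Vz w) * θ := by
    have e : (Vz w) ^ 2 * (y * y) * (h1 * (A * B)) - (Vz w) ^ 2 * (y * x) * (h1 * (A * (y⁻¹ * x))) -
      (Vz w) ^ 2 * (x * y) * (h1 * (A * (y⁻¹ * x))) + (Vz w) ^ 2 * (x * x) * (h1 * A) =
      ((Vz w) ^ 2 * h1 * (x ^ 2 * A)) * (B / (y⁻¹ * x) ^ 2 - 1) := by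
      field_simp
      ring
    have hc0 : 0 ≤ (Vz w) ^ 2 * h1 * (x ^ 2 * A) := by positivity
    rw [e, abs_mul, abs_of_nonneg hc0]
    have h2 : (Vz w) ^ 2 * h1 * (x ^ 2 * A) ≤ Vz w * x * (h1 * Vz w) := by
      have h3 : x ^ 2 * A ≤ x := by
        calc x ^ 2 * A ≤ x ^ 2 * x⁻¹ := mul_le_mul_of_nonneg_left hAV (by positivity)
          _ = x := by field_simp
      calc (Vz w) ^ 2 * h1 * (x ^ 2 * A) ≤ (Vz w) ^ 2 * h1 * x :=
            mul_le_mul_of_nonneg_left h3 (by positivity)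
        _ = _ := by ring
    exact mul_le_mul h2 hratio (abs_nonneg _) (by positivity)
  have hxy : x * y ≤ y ^ 2 := by nlinarith
  have hxx : x * x ≤ y ^ 2 := by nlinarith
  have hw2s : 0 ≤ (Vz w) ^ 2 * s := by positivity
  have b1 : (Vz w) ^ 2 * (y * y) * s = (Vz w) ^ 2 * y ^ 2 * s := by ring
  have b2 : (Vz w) ^ 2 * (y * x) * s ≤ (Vz w) ^ 2 * y ^ 2 * s := by nlinarith
  have b3 : (Vz w) ^ 2 * (x * y) * s ≤ (Vz w) ^ 2 * y ^ 2 * s := by nlinarith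
  have b4 : (Vz w) ^ 2 * (x * x) * s ≤ (Vz w) ^ 2 * y ^ 2 * s := by nlinarith
  rw [hsp]
  rw [abs_le] at c1 c2 c3 c4 hmain ⊢
  constructor <;> linarith

lemma sqrt_add_le' {x y : ℝ} (hx : 0 ≤ x) (hy : 0 ≤ y) : √(x + y) ≤ √x + √y := by
  rw [Real.sqrt_le_iff]
  refine ⟨add_nonneg (Real.sqrt_nonneg x) (Real.sqrt_nonneg y), ?_⟩
  have h1 := Real.sq_sqrt hx
  have h2 := Real.sq_sqrt hy
  have h3 := mul_nonneg (Real.sqrt_nonneg x) (Real.sqrt_nonneg y)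
  nlinarith

/-- **the L¹ bound for a function with small correlations** -/
theorem psi_corr (S T : Finset ℕ) (Dd : ℕ → ℝ) {C0 C1 : ℝ} (hC0 : 0 ≤ C0) (hC1 : 0 ≤ C1)
    (h0 : ∀ n ∈ T, ∑ a ∈ S, Dd (n + a) ^ 2 ≤ C0)
    (h1 : ∀ n ∈ T, ∀ m ∈ T, n ≠ m → |∑ a ∈ S, Dd (n + a) * Dd (m + a)| ≤ C1) (g φ : ℕ → ℝ)
    (hφ : ∀ a, 0 ≤ φ a) :
    ∑ a ∈ S, φ a * |∑ n ∈ T, g n * Dd (n + a)| ≤
      √(∑ a ∈ S, φ a ^ 2) * (√C1 * ∑ n ∈ T, |g n| + √C0 * √(∑ n ∈ T, g n ^ 2)) := by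
  have hcs : ∑ a ∈ S, φ a * |∑ n ∈ T, g n * Dd (n + a)| ≤
      √(∑ a ∈ S, φ a ^ 2) * √(∑ a ∈ S, |∑ n ∈ T, g n * Dd (n + a)| ^ 2) :=
    Real.sum_mul_le_sqrt_mul_sqrt _ _ _
  refine hcs.trans ?_
  apply mul_le_mul_of_nonneg_left _ (Real.sqrt_nonneg _)
  have hG0 : 0 ≤ ∑ n ∈ T, |g n| := sum_nonneg fun _ _ => abs_nonneg _
  have hg2 : 0 ≤ ∑ n ∈ T, g n ^ 2 := sum_nonneg fun _ _ => sq_nonneg _
  have hsum : ∑ a ∈ S, |∑ n ∈ T, g n * Dd (n + a)| ^ 2 ≤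
      C1 * (∑ n ∈ T, |g n|) ^ 2 + C0 * ∑ n ∈ T, g n ^ 2 := by
    have e1 : ∑ a ∈ S, |∑ n ∈ T, g n * Dd (n + a)| ^ 2 =
        ∑ n ∈ T, ∑ m ∈ T, g n * g m * ∑ a ∈ S, Dd (n + a) * Dd (m + a) := by
      have : ∀ a ∈ S, |∑ n ∈ T, g n * Dd (n + a)| ^ 2 =
          ∑ n ∈ T, ∑ m ∈ T, g n * g m * (Dd (n + a) * Dd (m + a)) := by
        intro a _
        rw [sq_abs, sq, sum_mul_sum]
        apply sum_congr rfl
        intro n _
        apply sum_congr rfl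
        intro m _
        ring
      rw [sum_congr rfl this, sum_comm]
      apply sum_congr rfl
      intro n _
      rw [sum_comm]
      apply sum_congr rfl
      intro m _
      rw [mul_sum]
    have e2 : C1 * (∑ n ∈ T, |g n|) ^ 2 + C0 * ∑ n ∈ T, g n ^ 2 =
        ∑ n ∈ T, ∑ m ∈ T, (C1 * (|g n| * |g m|) + if n = m then C0 * g n ^ 2 else 0) := by
      have e3 : ∀ n ∈ T, ∑ m ∈ T, (C1 * (|g n| * |g m|) + if n = m then C0 * g n ^ 2 else 0) =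
          C1 * (|g n| * ∑ m ∈ T, |g m|) + C0 * g n ^ 2 := by
        intro n hn
        rw [sum_add_distrib, sum_ite_eq, if_pos hn, ← mul_sum, ← mul_sum]
      rw [sum_congr rfl e3, sum_add_distrib, ← mul_sum, ← sum_mul, ← mul_sum]
      ring
    rw [e1, e2]
    apply sum_le_sum
    intro n hn
    apply sum_le_sum
    intro m hm
    by_cases hnm : n = m
    · subst hnm
      rw [if_pos rfl]
      have h2 : g n * g n * ∑ a ∈ S, Dd (n + a) * Dd (n + a) ≤ C0 * g n ^ 2 := by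
        have h3 : ∑ a ∈ S, Dd (n + a) * Dd (n + a) ≤ C0 := by
          refine le_trans (le_of_eq ?_) (h0 n hn)
          apply sum_congr rfl
          intro a _
          ring
        have := mul_le_mul_of_nonneg_left h3 (mul_self_nonneg (g n))
        linarith
      have h4 : 0 ≤ C1 * (|g n| * |g n|) := by positivity
      linarith
    · rw [if_neg hnm, add_zero]
      calc g n * g m * ∑ a ∈ S, Dd (n + a) * Dd (m + a) ≤ |g n * g m * ∑ a ∈ S, Dd (n + a) * Dd (m + a)| :=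
            le_abs_self _
        _ = (|g n| * |g m|) * |∑ a ∈ S, Dd (n + a) * Dd (m + a)| := by rw [abs_mul, abs_mul]
        _ ≤ (|g n| * |g m|) * C1 := mul_le_mul_of_nonneg_left (h1 n hn m hm hnm) (by positivity)
        _ = _ := by ring
  refine (Real.sqrt_le_sqrt hsum).trans ?_
  have h5 : √(C1 * (∑ n ∈ T, |g n|) ^ 2 + C0 * ∑ n ∈ T, g n ^ 2) ≤
      √(C1 * (∑ n ∈ T, |g n|) ^ 2) + √(C0 * ∑ n ∈ T, g n ^ 2) := sqrt_add_le' (by positivity) (by positivity)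
  refine h5.trans (le_of_eq ?_)
  rw [Real.sqrt_mul hC1, Real.sqrt_mul hC0, Real.sqrt_sq hG0]

end Pool.Agent.E8helper91.PT
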