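import Pool.Agent.E8helper91.PT.T4
import Pool.Agent.R521.F6.U9

set_option autoImplicit false

/-!
# Comparison of the primes with the model with small primes, over the tuples
-/

open Finset
open scoped Real

namespace Pool.Agent.E8helper91.PT

open Pool.Agent.R521.F6
open Pool.Agent.H373R2.T7 (pz Vz lamz mem_pz Vz_pos Vz_le_one card_pz_le lamz_nonneg)

/-- **the difference between the primes and the model over the tuples** -/
theorem diff_tuples {w z Q k H r J : ℕ} (hwz : w ≤ z) (hzQ : z ≤ Q) (hz : 2 ≤ z) (b : ℕ → ℕ)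
    {ε σ β0 B : ℝ} (hε : 0 ≤ ε) (hkε : (k : ℝ) * (2 * ε) ≤ 1 / 2) (hσ : 0 ≤ σ) (hβ0 : 0 ≤ β0)
    (hS0 : 0 < (Sb w b H).card)
    (hcl : 1 + ((Vz Q)⁻¹) ^ 2 * qerr (((H : ℝ) + 1) / Wp w) Q r ≤ ε * (((H : ℝ) + 1) / Wp w - 1))
    (hclz : 1 + ((Vz z)⁻¹) ^ 2 * qerr (((H : ℝ) + 1) / Wp w) z r ≤ ε * (((H : ℝ) + 1) / Wp w - 1))
    (hF : ∀ n ∈ Tb w b H, ∑ a ∈ Sb w b H, Fm w Q (n + a) ≤ ((H : ℝ) + 1) * Vz w * (1 + ε))
    (hGs : ∀ n ∈ Tb w b H, ∑ a ∈ Sb w b H, Gm w Q (n + a) ≤ ((H : ℝ) + 1) * Vz w * (1 + ε))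
    (hGz : ∀ n ∈ Tb w b H, ∑ a ∈ Sb w b H, Gm w z (n + a) ≤ ((H : ℝ) + 1) * Vz w * (1 + ε))
    (hpsi : ∀ g φ : ℕ → ℝ, (∀ a, 0 ≤ φ a) → ∑ a ∈ Sb w b H, φ a * |∑ n ∈ Tb w b H, g n * Eb Q (n + a)| ≤
      √(∑ a ∈ Sb w b H, φ a ^ 2) * (√H * σ) * ∑ n ∈ Tb w b H, |g n| +
      √(∑ a ∈ Sb w b H, φ a ^ 2) * β0 * √(∑ n ∈ Tb w b H, g n ^ 2))
    {E1 E2 : ℝ} (hE1 : 0 ≤ E1) (hE2 : 0 ≤ E2)
    (hpsi2 : ∀ T' : Finset ℕ, (∀ m ∈ T', 1 ≤ m ∧ m ≤ 2 * H) → ∀ φ : ℕ → ℝ, (∀ a, 0 ≤ φ a) →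
      ∑ a ∈ Sb w b H, φ a * |∑ m ∈ T', Eb Q (m + a)| ≤
        √(∑ a ∈ Sb w b H, φ a ^ 2) * (E1 * (T'.card : ℝ) + E2 * √(T'.card)))
    (hB : ∀ m, m ≤ 3 * H → |Eb Q m| ≤ B) (hJ1 : 1 ≤ J)
    (hJ : J * Wn w ≤ H) (hX : 1 < ((H : ℝ) + 1) / Wp w) (hWpH : Wp w ≤ (H : ℝ) + 1)
    {ρ : ℝ} (hρ : ρ = √(2 * ((H : ℝ) + 1) * Real.exp (2 * ∑ p ∈ pz w, 1 / (p : ℝ))) / (Sb w b H).card)
    (herr : Vz w * (ρ * (E1 + E2 / √J) + 2 * B * (J / (((H : ℝ) + 1) / Wp w - 1))) ≤ ε)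
    (hVQ : (Vz Q)⁻¹ ≤ Real.log (2 * H)) (hH1 : 1 ≤ Real.log H) (hzH : 4 * Real.log H ≤ z)
    {C0 C1 Hh : ℝ} (hC0 : C0 = 2 * ((Vz Q)⁻¹ * (((H : ℝ) + 1) * Vz w * (1 + ε))))
    (hC1 : C1 = Vz w * (Vz z)⁻¹ * (((H : ℝ) + 1) * Vz w) * (8 * Real.log H / z) +
        4 * ((Vz w) ^ 2 * ((Vz Q)⁻¹) ^ 2 * serr (H + 1) Q r))
    (hHh : Hh = ((H : ℝ) + 1) * Vz w * (1 + ε) * Real.log (2 * H)) :
    ∑ a ∈ tup k (Sb w b H), wt w (st ∅ a) *
      |XX (Fm w Q) (Tb w b H) a - XX (Gm w z) (Tb w b H) a| ≤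
    k * (2 * (ρ * (Vz w * (√H * σ) + √C1)) * ZZ w k (Sb w b H) ∅ * (Tb w b H).card +
      (√((Sb w b H).card) * (Vz w * β0 + √C0)) * √((Sb w b H).card * Hh) ^ (k - 1) * √((Tb w b H).card)) := by
  classical
  have hVQ0 := Vz_pos Q
  have hVz0 := Vz_pos z
  have hw := Vz_pos w
  have hwle := Vz_le_one w
  have hwQ : w ≤ Q := hwz.trans hzQ
  have hok : okE w b ∅ := fun p _ e he => absurd he (notMem_empty e)
  have hℓ1 : 1 ≤ Real.log (2 * H) := by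
    refine le_trans ?_ hVQ
    rw [one_le_inv₀ hVQ0]
    exact Vz_le_one Q
  have hVzQ : (Vz z)⁻¹ ≤ (Vz Q)⁻¹ := inv_anti₀ hVQ0 (Vz_anti hzQ)
  obtain ⟨L, hL⟩ : ∃ L : ℝ, L = ((H : ℝ) + 1) * Vz w := ⟨_, rfl⟩
  have hL0 : 0 < L := by rw [hL]; positivity
  rw [← hL] at hF hGs hGz hC0 hC1 hHh
  have hHh0 : 0 ≤ Hh := by rw [hHh]; positivity
  have hC00 : 0 ≤ C0 := by rw [hC0]; positivity
  have hs0 := serr_nonneg (H + 1) Q r
  have hC10 : 0 ≤ C1 := by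
    rw [hC1]
    have : 0 ≤ Real.log H := by linarith
    positivity
  have hHF : ∀ n ∈ Tb w b H, ∑ a ∈ Sb w b H, Fm w Q (n + a) ^ 2 ≤ Hh := by
    intro n hn
    have h1 := (mem_Tb.1 hn).1
    refine (sum_Fm_sq h1.1 h1.2 _ (filter_subset _ _)).trans ?_
    rw [mul_comm, hHh]
    exact mul_le_mul_of_nonneg_right (hF n hn) (by linarith only [hℓ1])
  have hHG : ∀ n ∈ Tb w b H, ∑ a ∈ Sb w b H, Gm w z (n + a) ^ 2 ≤ Hh := by
    intro n hn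
    rw [sum_Gm_sq, hHh]
    have h3 : Vz w * (Vz z)⁻¹ ≤ Real.log (2 * H) := by
      have := mul_le_mul_of_nonneg_right hwle (inv_pos.2 hVz0).le
      linarith only [this, hVQ, hVzQ]
    rw [mul_comm (L * (1 + ε))]
    exact mul_le_mul h3 (hGz n hn) (sum_nonneg fun _ _ => Gm_nonneg _ _ _) (by linarith only [hℓ1])
  have hρ0 : 0 ≤ ρ := by rw [hρ]; positivity
  have hreg : ∀ E, okE w b E → √(∑ c ∈ Sb w b H, wt w (insert c E) ^ 2) ≤
      ρ * ∑ c ∈ Sb w b H, wt w (insert c E) := by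
    intro E hE
    rw [hρ]
    exact om_reg hE hWpH hS0
  -- the correlations
  have hcorr := psi_corr (Sb w b H) (Tb w b H) (fun m => Gm w Q m - Gm w z m) (C0 := C0) (C1 := C1) hC00 hC10
    (fun n hn => by
      have h1 : ∑ a ∈ Sb w b H, (Gm w Q (n + a) - Gm w z (n + a)) ^ 2 ≤
          ∑ a ∈ Sb w b H, Gm w Q (n + a) ^ 2 + ∑ a ∈ Sb w b H, Gm w z (n + a) ^ 2 := by
        rw [← sum_add_distrib]
        apply sum_le_sum
        intro a _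
        have a1 := Gm_nonneg w Q (n + a)
        have a2 := Gm_nonneg w z (n + a)
        nlinarith only [mul_nonneg a1 a2]
      refine h1.trans ?_
      rw [sum_Gm_sq, sum_Gm_sq, hC0]
      have h2 : Vz w * (Vz Q)⁻¹ * ∑ a ∈ Sb w b H, Gm w Q (n + a) ≤ (Vz Q)⁻¹ * (L * (1 + ε)) := by
        apply mul_le_mul _ (hGs n hn) (sum_nonneg fun _ _ => Gm_nonneg _ _ _) (inv_pos.2 hVQ0).le
        exact mul_le_of_le_one_left (inv_pos.2 hVQ0).le hwle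
      have h3 : Vz w * (Vz z)⁻¹ * ∑ a ∈ Sb w b H, Gm w z (n + a) ≤ (Vz Q)⁻¹ * (L * (1 + ε)) := by
        apply mul_le_mul _ (hGz n hn) (sum_nonneg fun _ _ => Gm_nonneg _ _ _) (inv_pos.2 hVQ0).le
        exact (mul_le_of_le_one_left (inv_pos.2 hVz0).le hwle).trans hVzQ
      linarith only [h2, h3])
    (fun n hn m hm hne => by
      have h1 := corr_D hwz hzQ hz hn hm hne hH1 hzH r
      rw [hC1, hL]
      exact h1)
  have htel := telescope_w (b := b) (H := H) (Tb w b H) (Fm w Q) (Gm w z) (Fm_nonneg w Q) (Gm_nonneg w z)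
    (Hh := Hh) (κ := 1 + 2 * ε) (ρ := ρ) (E1 := Vz w * (√H * σ) + √C1) (E2 := Vz w * β0 + √C0)
    hHF hHG hHh0 (by linarith only [hε]) hρ0 (by positivity) (by positivity)
    (fun n hn E hE => by
      exact F_per (r := r) hwQ hcl hε hn hB hJ1 hJ hX hρ0 hpsi2 hE1 hE2 herr (Per_wt w E)
        (fun a => wt_nonneg _ _) (hreg E hE))
    (fun n hn c hc => by
      refine ((G_rel (r := r) hwz hclz hε hc).1 n hn).trans ?_
      apply mul_le_mul_of_nonneg_right _ (Nat.cast_nonneg _)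
      linarith only [hε])
    hreg
    (fun g φ hφ => by
      have h1 : ∀ a ∈ Sb w b H, φ a * |∑ n ∈ Tb w b H, g n * (Fm w Q (n + a) - Gm w z (n + a))| ≤
          Vz w * (φ a * |∑ n ∈ Tb w b H, g n * Eb Q (n + a)|) +
          φ a * |∑ n ∈ Tb w b H, g n * (Gm w Q (n + a) - Gm w z (n + a))| := by
        intro a _
        have e0 : ∑ n ∈ Tb w b H, g n * (Fm w Q (n + a) - Gm w z (n + a)) =
            Vz w * ∑ n ∈ Tb w b H, g n * Eb Q (n + a) +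
            ∑ n ∈ Tb w b H, g n * (Gm w Q (n + a) - Gm w z (n + a)) := by
          rw [mul_sum, ← sum_add_distrib]
          apply sum_congr rfl
          intro n _
          have := Fm_sub_Gm w Q (n + a)
          have e : Fm w Q (n + a) - Gm w z (n + a) = (Fm w Q (n + a) - Gm w Q (n + a)) +
            (Gm w Q (n + a) - Gm w z (n + a)) := by ring
          rw [e, this]
          ring
        rw [e0]
        have h2 := abs_add_le (Vz w * ∑ n ∈ Tb w b H, g n * Eb Q (n + a))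
          (∑ n ∈ Tb w b H, g n * (Gm w Q (n + a) - Gm w z (n + a)))
        rw [abs_mul, abs_of_pos hw] at h2
        have h3 := mul_le_mul_of_nonneg_left h2 (hφ a)
        refine h3.trans (le_of_eq ?_)
        ring
      refine (sum_le_sum h1).trans ?_
      rw [sum_add_distrib, ← mul_sum]
      have h2 := mul_le_mul_of_nonneg_left (hpsi g φ hφ) hw.le
      have h3 := hcorr g φ hφ
      refine (add_le_add h2 h3).trans (le_of_eq ?_)
      ring) k ∅ hok (fun _ => 1)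
  have e1 : ∑ n ∈ Tb w b H, |(1 : ℝ)| = (Tb w b H).card := by
    rw [abs_one, sum_const, nsmul_eq_mul, mul_one]
  have e2 : ∑ n ∈ Tb w b H, (1 : ℝ) ^ 2 = (Tb w b H).card := by
    rw [one_pow, sum_const, nsmul_eq_mul, mul_one]
  simp only [one_mul] at htel
  rw [e1, e2] at htel
  have hZ0 := ZZ_nonneg w k (Sb w b H) ∅
  have h1 : ∀ a ∈ tup k (Sb w b H), wt w (st ∅ a) * |XX (Fm w Q) (Tb w b H) a - XX (Gm w z) (Tb w b H) a| =
      wt w (st ∅ a) * |∑ n ∈ Tb w b H, (∏ i, Fm w Q (n + a i) - ∏ i, Gm w z (n + a i))| := by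
    intro a _
    unfold XX
    rw [← sum_sub_distrib]
  rw [sum_congr rfl h1]
  refine htel.trans ?_
  apply mul_le_mul_of_nonneg_left _ (Nat.cast_nonneg _)
  apply add_le_add _ le_rfl
  apply mul_le_mul_of_nonneg_right _ (Nat.cast_nonneg _)
  apply mul_le_mul_of_nonneg_right _ hZ0
  have h2 : (1 + 2 * ε) ^ k ≤ 2 := by
    have := pow_one_add_le (by linarith only [hε] : 0 ≤ 2 * ε) hkε le_rfl
    linarith only [this]
  apply mul_le_mul_of_nonneg_right h2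
  positivity

end Pool.Agent.E8helper91.PT
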