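import Pool.Agent.E8helper91.PT.T5

set_option autoImplicit false

/-!
# The weight of the bad tuples and of the bad sets
-/

open Finset
open scoped Real

namespace Pool.Agent.E8helper91.PT

open Pool.Agent.R521.F6
open Pool.Agent.H373R2.T7 (pz Vz lamz mem_pz Vz_pos Vz_le_one card_pz_le lamz_nonneg)

lemma XX_nonneg {k : ℕ} {G : ℕ → ℝ} (hG : ∀ m, 0 ≤ G m) (T : Finset ℕ) (a : Fin k → ℕ) : 0 ≤ XX G T a :=
  sum_nonneg fun _ _ => prod_nonneg fun _ _ => hG _

/-- **the weight of the bad tuples** -/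
theorem bad_T {w z Q k K H r : ℕ} {b : ℕ → ℕ} (hK1 : 1 ≤ K) (hkK : k ≤ K) (hKw : 2 * K + 2 ≤ w)
    (hwz : w ≤ z) (hT : (Tb w b H).Nonempty)
    (hXt : 7 * ((z : ℝ) + 1) ^ 2 * (w : ℝ) ^ 2 + 1 ≤ ((H : ℝ) + 1) / Wp w)
    (hX1 : 1 ≤ (H : ℝ) / Wp w)
    (hr : 5 * K * ∑ p ∈ pz z, 1 / (p : ℝ) + 3 ≤ r)
    (hsz : 4 * (K * ((z : ℝ) + 1)) ^ r * Real.exp (2 * K * ∑ p ∈ pz z, 1 / (p : ℝ)) ≤ H / Wp w)
    {ε τ : ℝ} (hε : 0 < ε)
    (hdiff : ∑ a ∈ tup k (Sb w b H), wt w (st ∅ a) *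
      |XX (Fm w Q) (Tb w b H) a - XX (Gm w z) (Tb w b H) a| ≤
      ε * ZZ w k (Sb w b H) ∅ * (Tb w b H).card)
    (hτ : τ ≤ √ε * (H / Wp w) / 4) :
    ∑ a ∈ (tup k (Sb w b H)).filter (fun a => XX (Fm w Q) (Tb w b H) a ≤ τ), wt w (st ∅ a) ≤
      740 * √ε * ZZ w k (Sb w b H) ∅ := by
  classical
  obtain ⟨X, hX⟩ : ∃ X : ℝ, X = (H : ℝ) / Wp w := ⟨_, rfl⟩
  obtain ⟨s, hs⟩ : ∃ s : ℝ, s = √ε := ⟨_, rfl⟩
  have hs0 : 0 < s := by rw [hs]; exact Real.sqrt_pos.2 hε
  have hs2 : s ^ 2 = ε := by rw [hs]; exact Real.sq_sqrt hε.le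
  rw [← hX] at hX1
  rw [← hs, ← hX] at hτ
  have hX0 : 0 < X := by linarith
  obtain ⟨S, hS⟩ : ∃ S, S = Sb w b H := ⟨_, rfl⟩
  obtain ⟨Z, hZ⟩ : ∃ Z : ℝ, Z = ZZ w k (Sb w b H) ∅ := ⟨_, rfl⟩
  have hZ0 : 0 ≤ Z := by rw [hZ]; exact ZZ_nonneg _ _ _ _
  have hw0 : (0 : ℝ) < w := by exact_mod_cast (by omega : 0 < w)
  have hK1r : (1 : ℝ) ≤ K := by exact_mod_cast hK1
  -- pointwise
  have hpt : ∀ a ∈ (tup k (Sb w b H)).filter (fun a => XX (Fm w Q) (Tb w b H) a ≤ τ),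
      wt w (st ∅ a) ≤ s * (wt w (st ∅ a) * rinv w z k (univ.image a)) +
        (4 / (s * X)) * (wt w (st ∅ a) * |XX (Fm w Q) (Tb w b H) a - XX (Gm w z) (Tb w b H) a|) := by
    intro a ha
    rw [mem_filter] at ha
    have hl := XX_lower hK1 hkK hKw hwz hT ha.1 hr hsz
    rw [← hX] at hl
    have h0 := wt_nonneg w (st ∅ a)
    have hG0 := XX_nonneg (k := k) (Gm_nonneg w z) (Tb w b H) a
    have hr0 := rinv_nonneg w z k (univ.image a)
    have h1 : 1 ≤ s * rinv w z k (univ.image a) +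
        (4 / (s * X)) * |XX (Fm w Q) (Tb w b H) a - XX (Gm w z) (Tb w b H) a| := by
      rcases le_or_gt 1 (s * rinv w z k (univ.image a)) with h2 | h2
      · have : 0 ≤ (4 / (s * X)) * |XX (Fm w Q) (Tb w b H) a - XX (Gm w z) (Tb w b H) a| := by positivity
        linarith
      · have h3 : X / 2 * s ≤ XX (Gm w z) (Tb w b H) a := by
          calc X / 2 * s ≤ (rinv w z k (univ.image a) * XX (Gm w z) (Tb w b H) a) * s :=
                mul_le_mul_of_nonneg_right hl hs0.le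
            _ = (s * rinv w z k (univ.image a)) * XX (Gm w z) (Tb w b H) a := by ring
            _ ≤ 1 * XX (Gm w z) (Tb w b H) a := mul_le_mul_of_nonneg_right h2.le hG0
            _ = _ := one_mul _
        have h4 : s * X / 4 ≤ |XX (Fm w Q) (Tb w b H) a - XX (Gm w z) (Tb w b H) a| := by
          rw [abs_sub_comm]
          refine le_trans ?_ (le_abs_self _)
          have := ha.2
          linarith
        have h5 : 1 ≤ (4 / (s * X)) * |XX (Fm w Q) (Tb w b H) a - XX (Gm w z) (Tb w b H) a| := by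
          calc (1 : ℝ) = (4 / (s * X)) * (s * X / 4) := by field_simp
            _ ≤ _ := mul_le_mul_of_nonneg_left h4 (by positivity)
        have : 0 ≤ s * rinv w z k (univ.image a) := by positivity
        linarith
    have h6 := mul_le_mul_of_nonneg_left h1 h0
    calc wt w (st ∅ a) = wt w (st ∅ a) * 1 := (mul_one _).symm
      _ ≤ _ := h6
      _ = _ := by ring
  have hnn : ∀ a : Fin k → ℕ, 0 ≤ s * (wt w (st ∅ a) * rinv w z k (univ.image a)) +
        (4 / (s * X)) * (wt w (st ∅ a) * |XX (Fm w Q) (Tb w b H) a - XX (Gm w z) (Tb w b H) a|) := by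
    intro a
    have h0 := wt_nonneg w (st ∅ a)
    have hr0 := rinv_nonneg w z k (univ.image a)
    positivity
  have htail := tail_tup (b := b) hK1 hKw hXt k hkK (fun a => wt w (st ∅ a)) (PerT_wt w k ∅)
    (fun a _ => wt_nonneg _ _)
  have hexp : Real.exp (21 * K / (w : ℝ) ^ 2) ^ k ≤ 729 := by
    rw [← Real.exp_nat_mul]
    have h1 : (k : ℝ) * (21 * K / (w : ℝ) ^ 2) ≤ 6 := by
      have h2 : (k : ℝ) ≤ K := by exact_mod_cast hkK
      have h3 : 2 * (K : ℝ) + 2 ≤ w := by exact_mod_cast hKw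
      rw [← mul_div_assoc, div_le_iff₀ (by positivity)]
      calc (k : ℝ) * (21 * K) ≤ K * (21 * K) := mul_le_mul_of_nonneg_right h2 (by positivity)
        _ ≤ 6 * (w : ℝ) ^ 2 := by nlinarith
    refine (Real.exp_le_exp.2 h1).trans ?_
    have h4 : Real.exp 6 = Real.exp 1 ^ 6 := by
      rw [← Real.exp_nat_mul]
      norm_num
    rw [h4]
    calc Real.exp 1 ^ 6 ≤ (3 : ℝ) ^ 6 :=
          pow_le_pow_left₀ (Real.exp_pos 1).le (by linarith [Real.exp_one_lt_d9]) 6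
      _ = 729 := by norm_num
  have hZe : ∑ a ∈ tup k (Sb w b H), wt w (st ∅ a) = Z := hZ.symm
  rw [hZe] at htail
  have hcardT : ((Tb w b H).card : ℝ) ≤ 2 * X := by
    have := (abs_le.1 (card_Tb w b H)).2
    rw [← hX] at this
    linarith
  calc ∑ a ∈ (tup k (Sb w b H)).filter (fun a => XX (Fm w Q) (Tb w b H) a ≤ τ), wt w (st ∅ a) ≤
        ∑ a ∈ (tup k (Sb w b H)).filter (fun a => XX (Fm w Q) (Tb w b H) a ≤ τ),
        (s * (wt w (st ∅ a) * rinv w z k (univ.image a)) +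
        (4 / (s * X)) * (wt w (st ∅ a) * |XX (Fm w Q) (Tb w b H) a - XX (Gm w z) (Tb w b H) a|)) :=
        sum_le_sum hpt
    _ ≤ ∑ a ∈ tup k (Sb w b H), (s * (wt w (st ∅ a) * rinv w z k (univ.image a)) +
        (4 / (s * X)) * (wt w (st ∅ a) * |XX (Fm w Q) (Tb w b H) a - XX (Gm w z) (Tb w b H) a|)) :=
        sum_le_sum_of_subset_of_nonneg (filter_subset _ _) (fun a _ _ => hnn a)
    _ = s * ∑ a ∈ tup k (Sb w b H), wt w (st ∅ a) * rinv w z k (univ.image a) +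
        (4 / (s * X)) * ∑ a ∈ tup k (Sb w b H), (wt w (st ∅ a) *
          |XX (Fm w Q) (Tb w b H) a - XX (Gm w z) (Tb w b H) a|) := by
        rw [sum_add_distrib, mul_sum, mul_sum]
    _ ≤ s * (729 * Z) + (4 / (s * X)) * (ε * Z * (2 * X)) := by
        apply add_le_add
        · apply mul_le_mul_of_nonneg_left _ hs0.le
          exact htail.trans (mul_le_mul_of_nonneg_right hexp hZ0)
        · apply mul_le_mul_of_nonneg_left _ (by positivity)
          rw [← hZ] at hdiff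
          refine hdiff.trans ?_
          exact mul_le_mul_of_nonneg_left hcardT (by positivity)
    _ = 737 * s * Z := by
        rw [← hs2]
        field_simp
        ring
    _ ≤ 740 * √ε * ZZ w k (Sb w b H) ∅ := by
        rw [← hs, ← hZ]
        have : 0 ≤ s * Z := by positivity
        linarith

open Classical in
/-- **bad sets have small weight** -/
theorem bad_sets_gen {w Q k H : ℕ} (hk1 : 1 ≤ k) (b : ℕ → ℕ) {M τ κ : ℝ}
    (hl : 1 ≤ Real.log (2 * H)) (hκ : 0 ≤ κ)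
    (hMt : M * Real.log (2 * H) ^ k ≤ τ)
    (hkS : 2 * k ^ 2 ≤ (Sb w b H).card)
    (hbad : ∑ a ∈ (tup k (Sb w b H)).filter (fun a => XX (Fm w Q) (Tb w b H) a ≤ τ),
      wt w (st ∅ a) ≤ κ * ZZ w k (Sb w b H) ∅) :
    ∑ A ∈ ((Sb w b H).powersetCard k).filter (fun A => ((((Icc 1 H).filter
      (fun n => ∀ a ∈ A, (n + a).Prime)).card : ℕ) : ℝ) ≤ M), wt w A ≤
      2 * κ * ∑ A ∈ (Sb w b H).powersetCard k, wt w A := by
  have h1 := bad_ge (w := w) (k := k) (Sb w b H) (fun A => ((((Icc 1 H).filter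
      (fun n => ∀ a ∈ A, (n + a).Prime)).card : ℕ) : ℝ) ≤ M)
      ((tup k (Sb w b H)).filter (fun a => XX (Fm w Q) (Tb w b H) a ≤ τ)) (by
    intro a ha hP
    rw [mem_filter]
    refine ⟨ha, ?_⟩
    rw [mem_tup] at ha
    have h6 : (Icc 1 H).filter (fun n => ∀ c ∈ univ.image a, (n + c).Prime) =
        (Icc 1 H).filter (fun n => ∀ i, (n + a i).Prime) := by
      apply filter_congr
      intro n _
      constructor
      · intro h i
        exact h _ (mem_image_of_mem _ (mem_univ i))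
      · intro h c hc
        rw [mem_image] at hc
        obtain ⟨i, _, rfl⟩ := hc
        exact h i
    rw [h6] at hP
    exact (XX_small (fun i => (mem_Sb.1 (ha i)).1) hP hl).trans hMt)
  have h2 := ZZ_inj (w := w) (b := b) (H := H) hk1 hkS
  have h3 := inj_le (w := w) (k := k) (Sb w b H)
  have hf : (0 : ℝ) < k.factorial := by exact_mod_cast Nat.factorial_pos k
  have h4 : κ * ZZ w k (Sb w b H) ∅ ≤
      κ * (2 * ((k.factorial : ℝ) * ∑ A ∈ (Sb w b H).powersetCard k, wt w A)) := by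
    apply mul_le_mul_of_nonneg_left _ hκ
    linarith only [h2, h3]
  have h5 := h1.trans (hbad.trans h4)
  have h6 : κ * (2 * ((k.factorial : ℝ) * ∑ A ∈ (Sb w b H).powersetCard k, wt w A)) =
      (k.factorial : ℝ) * (2 * κ * ∑ A ∈ (Sb w b H).powersetCard k, wt w A) := by ring
  rw [h6] at h5
  exact le_of_mul_le_mul_left h5 hf

end Pool.Agent.E8helper91.PT
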