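import Pool.Agent.E8helper91.PT.T6
import Pool.Agent.R521.F6.U13

set_option autoImplicit false

/-!
# Numerical conditions
-/

open Finset
open scoped Real

namespace Pool.Agent.E8helper91.PT

open Pool.Agent.R521.F6
open Pool.Agent.H373R2.T7 (pz Vz lamz mem_pz Vz_pos Vz_le_one card_pz_le lamz_nonneg)

section
variable {D l y w : ℝ} (h : Par D l y w)
include h

lemma pow_exp (m : ℕ) : l ^ m = Real.exp (m * Real.log l) := (Par.exp_log_mul h m).symm

lemma sq_log : 5 * Real.log l ^ 2 ≤ l := by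
  have h1 : Real.log l ^ 3 / Nat.factorial 3 ≤ Real.exp (Real.log l) :=
    Real.pow_div_factorial_le_exp _ (by linarith only [h.hD, h.hDl]) 3
  have h2 : (Nat.factorial 3 : ℝ) = 6 := by norm_num [Nat.factorial]
  rw [h2, ← h.l_eq] at h1
  have h3 : 30 ≤ Real.log l := h.hD.trans h.hDl
  nlinarith only [h1, h3, sq_nonneg (Real.log l)]

lemma log_small {m : ℝ} (hm0 : 0 ≤ m) (hm : 20 * m ≤ D) : m * Real.log l ≤ l / 100 := by
  have h1 := sq_log h
  have h2 := h.hDl
  have h3 : 30 ≤ Real.log l := h.hD.trans h.hDl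
  nlinarith only [h1, h2, h3, hm, hm0]

/-- the sieve error with any power saving -/
lemma qerr_pow {Q r m : ℕ} {X C6 E : ℝ} (hQ : (Q : ℝ) = Real.exp l) (hX : Real.exp (y / 2) ≤ X)
    (hm1 : 1 ≤ m) (hm : 16 * (m : ℝ) ≤ D) (hr : r = ⌈(m : ℝ) * Real.log l⌉₊)
    (hC6 : 4 * C6 ≤ l) (hE : Real.exp (6 * E) ≤ C6 * l ^ 6) :
    (2 * ((Q : ℝ) + 1)) ^ r + 2 * X * Real.exp (6 * E - r) ≤ X * (l ^ 7 / l ^ m) := by
  have hl1 := h.hl
  have hlge := h.l_ge
  have hs : 30 ≤ Real.log l := h.hD.trans h.hDl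
  have hm1r : (1 : ℝ) ≤ m := by exact_mod_cast hm1
  have hms : 1 ≤ (m : ℝ) * Real.log l := by nlinarith only [hm1r, hs]
  have hr1 : (m : ℝ) * Real.log l ≤ r := by rw [hr]; exact Nat.le_ceil _
  have hr2 : (r : ℝ) ≤ 2 * ((m : ℝ) * Real.log l) := by
    have := Nat.ceil_lt_add_one (by linarith only [hms] : 0 ≤ (m : ℝ) * Real.log l)
    rw [← hr] at this
    linarith only [this, hms]
  have hX0 : 0 < X := lt_of_lt_of_le (Real.exp_pos _) hX
  have hlm : 0 < l ^ m := by positivity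
  have hl7 : 1 ≤ l ^ 7 := one_le_pow₀ hl1
  have h2Q : 2 * ((Q : ℝ) + 1) ≤ Real.exp (2 * l) := by
    rw [hQ]
    have h1 : 4 ≤ Real.exp l := by linarith only [Real.add_one_le_exp l, hlge]
    have e : Real.exp (2 * l) = Real.exp l * Real.exp l := by rw [← Real.exp_add]; congr 1; ring
    rw [e]
    nlinarith only [h1]
  have hfirst : (2 * ((Q : ℝ) + 1)) ^ r ≤ X * (l ^ 7 / l ^ m) / 2 := by
    calc (2 * ((Q : ℝ) + 1)) ^ r ≤ (Real.exp (2 * l)) ^ r := pow_le_pow_left₀ (by positivity) h2Q r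
      _ = Real.exp (r * (2 * l)) := by rw [← Real.exp_nat_mul]
      _ ≤ Real.exp (y / 2 - m * Real.log l) := by
          apply Real.exp_le_exp.2
          have h1 : (r : ℝ) * (2 * l) ≤ 2 * ((m : ℝ) * Real.log l) * (2 * l) :=
            mul_le_mul_of_nonneg_right hr2 (by linarith only [hl1])
          have h2 : 16 * (m : ℝ) * (l * Real.log l) ≤ D * (l * Real.log l) :=
            mul_le_mul_of_nonneg_right hm (by positivity)
          have h3 := h.hy
          have h4 : (m : ℝ) * Real.log l ≤ m * Real.log l * l :=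
            le_mul_of_one_le_right (by linarith only [hms]) hl1
          nlinarith only [h1, h2, h3, h4]
      _ = Real.exp (y / 2) / l ^ m := by
          rw [Real.exp_sub, ← pow_exp h m]
      _ ≤ X / l ^ m := div_le_div_of_nonneg_right hX hlm.le
      _ ≤ X * (l ^ 7 / l ^ m) / 2 := by
          have h5 : 2 ≤ l ^ 7 := by
            have : l ^ 1 ≤ l ^ 7 := pow_le_pow_right₀ hl1 (by norm_num)
            rw [pow_one] at this
            linarith only [this, hlge]
          have e : X * (l ^ 7 / l ^ m) / 2 = (X / l ^ m) * (l ^ 7 / 2) := by ring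
          rw [e]
          apply le_mul_of_one_le_right (by positivity)
          linarith only [h5]
  have hsecond : 2 * X * Real.exp (6 * E - r) ≤ X * (l ^ 7 / l ^ m) / 2 := by
    rw [Real.exp_sub]
    have h1 : l ^ m ≤ Real.exp r := by
      rw [pow_exp h m]
      exact Real.exp_le_exp.2 hr1
    calc 2 * X * (Real.exp (6 * E) / Real.exp r) ≤ 2 * X * (C6 * l ^ 6 / l ^ m) := by
          apply mul_le_mul_of_nonneg_left _ (by positivity)
          apply div_le_div₀ _ hE hlm h1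
          exact (Real.exp_pos _).le.trans hE
      _ = (X / l ^ m * l ^ 6 / 2) * (4 * C6) := by ring
      _ ≤ (X / l ^ m * l ^ 6 / 2) * l := mul_le_mul_of_nonneg_left hC6 (by positivity)
      _ = _ := by ring
  linarith only [hfirst, hsecond]

/-- size of the number of periods -/
lemma X_large {n : ℕ} (hn : (n : ℝ) = w) {H : ℝ} (hH : H = Real.exp y) {W : ℝ} (hW0 : 1 ≤ W) (hW : W ≤ 4 ^ n) :
    Real.exp (l * Real.log l) ≤ H / W ∧ Real.exp (y / 2) ≤ H / W := by
  have hs : 30 ≤ Real.log l := h.hD.trans h.hDl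
  have hl1 := h.hl
  have hW1 : W ≤ Real.exp l := by
    refine (hW.trans (h.four_pow hn.le)).trans (Real.exp_le_exp.2 ?_)
    have h2 := h.wl
    have h3 := h.hD
    have h4 := h.hw1
    nlinarith only [h2, h3, h4]
  have hW0' : 0 < W := by linarith only [hW0]
  have hll : l ≤ l * Real.log l := by nlinarith only [hl1, hs]
  have h3 : 30 * (l * Real.log l) ≤ y := by
    have h4 := h.hy
    have h5 : 30 * (l * Real.log l) ≤ D * (l * Real.log l) :=
      mul_le_mul_of_nonneg_right h.hD (by linarith only [hll, hl1])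
    linarith only [h4, h5]
  constructor
  · rw [le_div_iff₀ hW0', hH]
    calc Real.exp (l * Real.log l) * W ≤ Real.exp (l * Real.log l) * Real.exp l :=
          mul_le_mul_of_nonneg_left hW1 (Real.exp_pos _).le
      _ = Real.exp (l * Real.log l + l) := (Real.exp_add _ _).symm
      _ ≤ _ := Real.exp_le_exp.2 (by linarith only [h3, hll, hl1])
  · rw [le_div_iff₀ hW0', hH]
    calc Real.exp (y / 2) * W ≤ Real.exp (y / 2) * Real.exp l :=
          mul_le_mul_of_nonneg_left hW1 (Real.exp_pos _).le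
      _ = Real.exp (y / 2 + l) := (Real.exp_add _ _).symm
      _ ≤ _ := Real.exp_le_exp.2 (by linarith only [h3, hll, hl1])

/-- the sieve level `z` -/
lemma z_bounds {B z : ℕ} (hB : 3 ≤ B) (hBD : 20 * ((B : ℝ) + 1) ≤ D) (hz : z = ⌈l ^ B⌉₊) :
    l ^ B ≤ z ∧ (z : ℝ) ≤ 2 * l ^ B ∧ 2 ≤ z ∧ (z : ℝ) ≤ Real.exp l ∧ w ≤ z ∧ 4 * y ≤ z := by
  have hl1 := h.hl
  have hlge := h.l_ge
  have h1 : l ^ B ≤ z := by rw [hz]; exact Nat.le_ceil _
  have hlB1 : 1 ≤ l ^ B := one_le_pow₀ hl1
  have h2 : (z : ℝ) ≤ 2 * l ^ B := by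
    have := Nat.ceil_lt_add_one (by linarith only [hlB1] : 0 ≤ l ^ B)
    rw [← hz] at this
    linarith only [this, hlB1]
  have h3 : l ^ 3 ≤ l ^ B := pow_le_pow_right₀ hl1 hB
  have h4 : l ≤ l ^ B := by
    have : l ^ 1 ≤ l ^ B := pow_le_pow_right₀ hl1 (by omega)
    rwa [pow_one] at this
  refine ⟨h1, h2, ?_, ?_, ?_, ?_⟩
  · have : (2 : ℝ) ≤ z := by linarith only [h1, h4, hlge]
    exact_mod_cast this
  · refine h2.trans ?_
    have h5 : 2 * l ^ B ≤ l ^ (B + 1) := by
      rw [pow_succ, mul_comm]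
      exact mul_le_mul_of_nonneg_left (by linarith only [hlge]) (by positivity)
    refine h5.trans ?_
    rw [pow_exp h]
    apply Real.exp_le_exp.2
    have := log_small h (m := ((B + 1 : ℕ) : ℝ)) (Nat.cast_nonneg _) (by push_cast; exact hBD)
    linarith only [this, hl1]
  · linarith only [h.wl4, h4, h1]
  · have h6 := h.hy2
    have h7 : 4 * l ^ 2 ≤ l ^ 3 := by
      have : 4 * l ^ 2 ≤ l * l ^ 2 := mul_le_mul_of_nonneg_right (by linarith only [hlge]) (by positivity)
      linarith only [this]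
    linarith only [h6, h7, h3, h1]

/-- the sum of the reciprocals of the primes up to `z` -/
lemma Sz_le {B z : ℕ} {Sz C1 : ℝ} (hz1 : 1 ≤ (z : ℝ)) (hz : (z : ℝ) ≤ 2 * l ^ B) (hC1 : 0 ≤ C1)
    (hCD : C1 * (B + 1) ≤ D) (hS : Real.exp Sz ≤ C1 * Real.log z) : Sz ≤ Real.log l := by
  have hs : 30 ≤ Real.log l := h.hD.trans h.hDl
  have hl1 := h.hl
  have h1 : Real.log z ≤ (B + 1) * Real.log l := by
    have h2 := Real.log_le_log (by linarith only [hz1]) hz
    rw [Real.log_mul (by norm_num) (by positivity), Real.log_pow] at h2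
    have h3 := Real.log_two_lt_d9
    linarith only [h2, h3, hs]
  have h2 : C1 * Real.log z ≤ l := by
    calc C1 * Real.log z ≤ C1 * ((B + 1) * Real.log l) := mul_le_mul_of_nonneg_left h1 hC1
      _ = (C1 * (B + 1)) * Real.log l := by ring
      _ ≤ D * Real.log l := mul_le_mul_of_nonneg_right hCD (by linarith only [hs])
      _ ≤ Real.log l * Real.log l := mul_le_mul_of_nonneg_right h.hDl (by linarith only [hs])
      _ ≤ l := by
        have := sq_log h
        nlinarith only [this, sq_nonneg (Real.log l)]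
  have h3 := Real.log_le_log (Real.exp_pos _) (hS.trans h2)
  rwa [Real.log_exp] at h3

/-- the condition of the lower bound sieve -/
lemma low_cond {B z K r : ℕ} {Sz X : ℝ} (hK1 : 1 ≤ K) (hKw : 2 * (K : ℝ) ≤ w)
    (hz : (z : ℝ) ≤ 2 * l ^ B) (hBD : 9 * (B : ℝ) + 12 ≤ D) (hSz0 : 0 ≤ Sz) (hSz : Sz ≤ Real.log l)
    (hr : r = ⌈5 * K * Sz + 3⌉₊) (hX : Real.exp (l * Real.log l) ≤ X) :
    4 * (K * ((z : ℝ) + 1)) ^ r * Real.exp (2 * K * Sz) ≤ X := by
  have hs : 30 ≤ Real.log l := h.hD.trans h.hDl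
  have hl1 := h.hl
  have hlge := h.l_ge
  have hK1r : (1 : ℝ) ≤ K := by exact_mod_cast hK1
  have hlB1 : 1 ≤ l ^ B := one_le_pow₀ hl1
  have hKs : 30 ≤ K * Real.log l := by nlinarith only [hK1r, hs]
  have hr2 : (r : ℝ) ≤ 9 * (K * Real.log l) := by
    have h1 := Nat.ceil_lt_add_one (by positivity : 0 ≤ 5 * K * Sz + 3)
    rw [← hr] at h1
    have h2 : K * Sz ≤ K * Real.log l := mul_le_mul_of_nonneg_left hSz (by positivity)
    linarith only [h1, h2, hKs]
  have hKz : K * ((z : ℝ) + 1) ≤ Real.exp ((B + 1) * Real.log l) := by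
    have e : Real.exp ((B + 1) * Real.log l) = l ^ (B + 1) := by
      rw [pow_exp h]
      push_cast
      rfl
    rw [e, pow_succ]
    have h1 : (z : ℝ) + 1 ≤ 3 * l ^ B := by linarith only [hz, hlB1]
    have h2 : 3 * (K : ℝ) ≤ l := by
      have h3 := h.wl
      have h4 := h.hD
      nlinarith only [h3, h4, hKw, hK1r]
    calc K * ((z : ℝ) + 1) ≤ K * (3 * l ^ B) := mul_le_mul_of_nonneg_left h1 (by positivity)
      _ = l ^ B * (3 * K) := by ring
      _ ≤ l ^ B * l := mul_le_mul_of_nonneg_left h2 (by positivity)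
  have h4 : (4 : ℝ) ≤ Real.exp (K * Real.log l) := by
    linarith only [Real.add_one_le_exp (K * Real.log l), hKs]
  have hpow : (K * ((z : ℝ) + 1)) ^ r ≤ Real.exp (9 * (K * Real.log l) * ((B + 1) * Real.log l)) := by
    calc (K * ((z : ℝ) + 1)) ^ r ≤ (Real.exp ((B + 1) * Real.log l)) ^ r :=
          pow_le_pow_left₀ (by positivity) hKz r
      _ = Real.exp (r * ((B + 1) * Real.log l)) := by rw [← Real.exp_nat_mul]
      _ ≤ _ := Real.exp_le_exp.2 (mul_le_mul_of_nonneg_right hr2 (by positivity))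
  have h5 : Real.exp (2 * K * Sz) ≤ Real.exp (2 * (K * Real.log l)) := by
    apply Real.exp_le_exp.2
    have h2 : K * Sz ≤ K * Real.log l := mul_le_mul_of_nonneg_left hSz (by positivity)
    linarith only [h2]
  calc 4 * (K * ((z : ℝ) + 1)) ^ r * Real.exp (2 * K * Sz) ≤
        Real.exp (K * Real.log l) * Real.exp (9 * (K * Real.log l) * ((B + 1) * Real.log l)) *
          Real.exp (2 * (K * Real.log l)) := by
        apply mul_le_mul _ h5 (Real.exp_pos _).le (by positivity)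
        exact mul_le_mul h4 hpow (by positivity) (Real.exp_pos _).le
    _ = Real.exp (K * Real.log l + 9 * (K * Real.log l) * ((B + 1) * Real.log l) + 2 * (K * Real.log l)) := by
        rw [← Real.exp_add, ← Real.exp_add]
    _ ≤ Real.exp (l * Real.log l) := by
        apply Real.exp_le_exp.2
        have h6 : D * (K * Real.log l) ≤ l := by
          have h7 := h.hw
          have h8 : D * (2 * K) * Real.log l ≤ D * w * Real.log l := by
            apply mul_le_mul_of_nonneg_right _ (by linarith only [hs])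
            exact mul_le_mul_of_nonneg_left hKw (by linarith only [h.hD])
          have h9 : 0 ≤ D * (K * Real.log l) := by
            have := h.hD
            positivity
          nlinarith only [h7, h8, h9]
        have h10 : (9 * (B : ℝ) + 12) * (K * Real.log l) ≤ l := by
          refine le_trans ?_ h6
          exact mul_le_mul_of_nonneg_right hBD (by positivity)
        have h11 : ((9 * (B : ℝ) + 12) * (K * Real.log l)) * Real.log l ≤ l * Real.log l :=
          mul_le_mul_of_nonneg_right h10 (by linarith only [hs])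
        have h12 : K * Real.log l ≤ K * Real.log l * Real.log l :=
          le_mul_of_one_le_right (by positivity) (by linarith only [hs])
        nlinarith only [h11, h12]
    _ ≤ X := hX

/-- the condition of the tail -/
lemma tail_cond {B z n : ℕ} {X : ℝ} (hn : (n : ℝ) = w) (hz : (z : ℝ) ≤ 2 * l ^ B)
    (hBD : 20 * (2 * (B : ℝ) + 3) ≤ D) (hX : Real.exp (l * Real.log l) ≤ X) :
    7 * ((z : ℝ) + 1) ^ 2 * (n : ℝ) ^ 2 + 1 ≤ X := by
  have hs : 30 ≤ Real.log l := h.hD.trans h.hDl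
  have hl1 := h.hl
  have hlge := h.l_ge
  have hlB1 : 1 ≤ l ^ B := one_le_pow₀ hl1
  have h1 : (z : ℝ) + 1 ≤ 3 * l ^ B := by linarith only [hz, hlB1]
  have h2 : ((z : ℝ) + 1) ^ 2 ≤ (3 * l ^ B) ^ 2 := pow_le_pow_left₀ (by positivity) h1 2
  have h3 : (n : ℝ) ^ 2 ≤ l ^ 2 := by
    rw [hn]
    exact pow_le_pow_left₀ (by linarith only [h.hw1]) h.wl4 2
  have h4 : 7 * ((z : ℝ) + 1) ^ 2 * (n : ℝ) ^ 2 ≤ 63 * (l ^ B) ^ 2 * l ^ 2 := by
    calc 7 * ((z : ℝ) + 1) ^ 2 * (n : ℝ) ^ 2 ≤ 7 * (3 * l ^ B) ^ 2 * l ^ 2 := by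
          apply mul_le_mul _ h3 (by positivity) (by positivity)
          exact mul_le_mul_of_nonneg_left h2 (by norm_num)
      _ = _ := by ring
  have h5 : 1 ≤ (l ^ B) ^ 2 * l ^ 2 := by
    have a1 : 1 ≤ (l ^ B) ^ 2 := one_le_pow₀ hlB1
    have a2 : 1 ≤ l ^ 2 := one_le_pow₀ hl1
    nlinarith only [a1, a2]
  have h6 : 64 * ((l ^ B) ^ 2 * l ^ 2) ≤ l ^ (2 * B + 3) := by
    have e : l ^ (2 * B + 3) = l * ((l ^ B) ^ 2 * l ^ 2) := by ring
    rw [e]
    exact mul_le_mul_of_nonneg_right (by linarith only [hlge]) (by positivity)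
  have h7 : l ^ (2 * B + 3) ≤ Real.exp (l * Real.log l) := by
    rw [pow_exp h]
    apply Real.exp_le_exp.2
    have h8 := log_small h (m := ((2 * B + 3 : ℕ) : ℝ)) (Nat.cast_nonneg _) (by push_cast; exact hBD)
    have h9 : l ≤ l * Real.log l := by nlinarith only [hl1, hs]
    linarith only [h8, h9, hl1]
  linarith only [h4, h5, h6, h7, hX]

end

/-- the second part, abstract form -/
lemma part_two {S Hh t Z W u g e : ℝ} {k : ℕ} (hk1 : 1 ≤ k) (hS0 : 0 < S)
    (hHh : Hh ≤ 4 * S * u) (hu : 1 ≤ u) (ht0 : 0 < t) (hW : 0 < W) (hg : 0 ≤ g) (he : 0 ≤ e)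
    (hZ : S ^ k ≤ W * Z) (hmain : k * g * (2 * u) ^ k * W ≤ e * (√S * √t)) :
    k * ((√S * g) * √(S * Hh) ^ (k - 1) * √t) ≤ e * Z * t := by
  have h1 : √(S * Hh) ≤ 2 * u * S := by
    rw [Real.sqrt_le_iff]
    refine ⟨by positivity, ?_⟩
    calc S * Hh ≤ S * (4 * S * u) := mul_le_mul_of_nonneg_left hHh hS0.le
      _ = (4 * S ^ 2 * u) * 1 := by ring
      _ ≤ (4 * S ^ 2 * u) * u := mul_le_mul_of_nonneg_left hu (by positivity)
      _ = (2 * u * S) ^ 2 := by ring
  have h2 : √(S * Hh) ^ (k - 1) ≤ (2 * u) ^ k * S ^ (k - 1) := by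
    calc √(S * Hh) ^ (k - 1) ≤ (2 * u * S) ^ (k - 1) := pow_le_pow_left₀ (Real.sqrt_nonneg _) h1 _
      _ = (2 * u) ^ (k - 1) * S ^ (k - 1) := by rw [mul_pow]
      _ ≤ _ := by
        apply mul_le_mul_of_nonneg_right _ (by positivity)
        exact pow_le_pow_right₀ (by linarith) (Nat.sub_le _ _)
  have hss : √S * √S = S := Real.mul_self_sqrt hS0.le
  have htt : √t * √t = t := Real.mul_self_sqrt ht0.le
  have hsk : S ^ (k - 1) * S = S ^ k := by rw [← pow_succ, Nat.sub_add_cancel hk1]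
  have h3 : (k * ((√S * g) * √(S * Hh) ^ (k - 1) * √t)) * W ≤ (e * Z * t) * W := by
    calc (k * ((√S * g) * √(S * Hh) ^ (k - 1) * √t)) * W ≤
          (k * ((√S * g) * ((2 * u) ^ k * S ^ (k - 1)) * √t)) * W := by
          apply mul_le_mul_of_nonneg_right _ hW.le
          apply mul_le_mul_of_nonneg_left _ (Nat.cast_nonneg _)
          apply mul_le_mul_of_nonneg_right _ (Real.sqrt_nonneg _)
          exact mul_le_mul_of_nonneg_left h2 (by positivity)
      _ = (k * g * (2 * u) ^ k * W) * (√S * S ^ (k - 1) * √t) := by ring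
      _ ≤ (e * (√S * √t)) * (√S * S ^ (k - 1) * √t) :=
          mul_le_mul_of_nonneg_right hmain (by positivity)
      _ = e * (S ^ (k - 1) * (√S * √S)) * (√t * √t) := by ring
      _ = e * S ^ k * t := by rw [hss, htt, hsk]
      _ ≤ e * (W * Z) * t := by
          apply mul_le_mul_of_nonneg_right _ ht0.le
          exact mul_le_mul_of_nonneg_left hZ he
      _ = _ := by ring
  exact le_of_mul_le_mul_right h3 hW

end Pool.Agent.E8helper91.PT
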