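import Pool.Agent.E8helper91.PT.N2

set_option autoImplicit false

/-!
# The weighted comparison at a good scale, with any power saving
-/

open Finset Filter
open scoped Real

namespace Pool.Agent.E8helper91.PT

open Pool.Agent.R521.F6
open Pool.Agent.H373R2.T7 (pz Vz lamz mem_pz Vz_pos Vz_le_one)

lemma qerr_mono {X : ℝ} {z Q r : ℕ} (hX : 0 ≤ X) (h : z ≤ Q) : qerr X z r ≤ qerr X Q r := by
  unfold qerr
  have h1 : (z : ℝ) ≤ Q := by exact_mod_cast h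
  have h2 : ∑ p ∈ pz z, 1 / (p : ℝ) ≤ ∑ p ∈ pz Q, 1 / (p : ℝ) :=
    sum_le_sum_of_subset_of_nonneg (pz_mono h) (fun _ _ _ => by positivity)
  apply add_le_add
  · apply pow_le_pow_left₀ (by positivity)
    linarith
  · apply mul_le_mul_of_nonneg_left _ (by positivity)
    apply Real.exp_le_exp.2
    linarith

lemma qerr_nonneg {X : ℝ} (Q r : ℕ) (hX : 0 ≤ X) : 0 ≤ qerr X Q r := by
  unfold qerr
  positivity

lemma qerr_one (H Q r : ℕ) : qerr (((H : ℝ) + 1)) Q r = serr (H + 1) Q r := by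
  unfold qerr serr
  push_cast
  ring

/-- the constant `D` and its consequences -/
lemma exists_D {Ka H0 C C1 C6 HF Kb H0b Cb B m A D' : ℝ} (hKa : 1 ≤ Ka) (hC : 1 ≤ C) (hC1 : 1 ≤ C1) (hC6 : 1 ≤ C6)
    (hHF : 0 ≤ HF) (hKb : 1 ≤ Kb) (hCb : 1 ≤ Cb) (hB : 0 ≤ B) (hm : 0 ≤ m) (hA : 0 ≤ A) :
    ∃ D : ℝ, 30 ≤ D ∧ 2 * Ka ≤ D ∧ 2 * Kb ≤ D ∧ |H0| ≤ D ∧ |H0b| ≤ D ∧ 16 * C1 ^ 2 ≤ D ∧
      16 * C1 ^ 2 * C6 ≤ D ∧ |D'| ≤ D ∧ HF ≤ D ∧ 80 * C6 ≤ D ∧ 49152 * C6 * C ≤ D ∧ 16 * Cb * C1 ≤ D ∧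
      2304 * C6 ^ 2 ≤ D ∧ 20 * (2 * B + 3) ≤ D ∧ 20 * m ≤ D ∧ 20 * (2 * A + 30) ≤ D ∧ 32 * C1 ≤ D := by
  have hC1sq : 1 ≤ C1 ^ 2 := one_le_pow₀ hC1
  have hC16 : 0 ≤ 16 * C1 ^ 2 * C6 := by positivity
  have hCC : 0 ≤ 49152 * C6 * C := by positivity
  have habs := abs_nonneg H0
  have habsb := abs_nonneg H0b
  have habsd := abs_nonneg D'
  have hCbC : 0 ≤ 16 * Cb * C1 := by positivity
  have hC6sq : 1 ≤ C6 ^ 2 := one_le_pow₀ hC6
  refine ⟨30 + 2 * Ka + |H0| + 4 * C + 16 * C1 ^ 2 * C6 + 16 * C1 ^ 2 + |D'| + HF +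
    80 * C6 + 49152 * C6 * C + (2 * Kb + |H0b| + 16 * Cb * C1 + 2304 * C6 ^ 2 +
    20 * (2 * B + 3) + 20 * m + 20 * (2 * A + 30) + 32 * C1), ?_, ?_, ?_, ?_, ?_, ?_, ?_, ?_, ?_, ?_, ?_, ?_, ?_, ?_,
    ?_, ?_, ?_⟩ <;>
  linarith only [hKa, hC, hHF, hC16, hC1sq, habs, habsd, hCC, hC6, hKb, habsb, hCbC, hC6sq, hB, hm, hA, hC1]

/-- the facts at a good scale -/
structure Good (C1 : ℝ) (A z Q H w : ℕ) (b : ℕ → ℕ) : Prop where
  hTne : (Tb w b H).Nonempty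
  hX1 : Real.exp (Real.log Q * Real.log (Real.log Q)) ≤ (H : ℝ) / Wp w
  hSl : ((H : ℝ) + 1) * Vz w / 2 ≤ ((Sb w b H).card : ℝ)
  hvV : (Vz w)⁻¹ ≤ (Vz Q)⁻¹
  hv : (Vz Q)⁻¹ ≤ C1 * Real.log Q
  hHe : (H : ℝ) = Real.exp (Real.log H)
  hQ2 : 2 ≤ Q
  hwz : w ≤ z
  hz3 : 2 ≤ z
  hzQ : z ≤ Q
  hz2 : (z : ℝ) ≤ 2 * Real.log Q ^ (4 * (A + 1) + 13)
  hz1 : Real.log Q ^ (4 * (A + 1) + 13) ≤ z
  hWe : Wp w ≤ Real.exp (2 * w)
  hlog2H : Real.log (2 * H) ≤ Real.log H + 1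
  hlog2H' : Real.log H ≤ Real.log (2 * H)

open Classical in
/-- **the comparison at a good scale** -/
theorem scale_diff (A : ℕ) (D' : ℝ) : ∃ c₁ : ℝ, 0 < c₁ ∧ (∀ Q0 : ℕ, ∃ Q, Q0 ≤ Q ∧ NRZ c₁ Q) ∧
    ∃ C1 : ℝ, 1 ≤ C1 ∧ ∃ D : ℝ, 30 ≤ D ∧ D' ≤ D ∧ 16 * C1 ^ 2 ≤ D ∧ 20 * (2 * ((4 * (A + 1) + 13 : ℕ) : ℝ) + 3) ≤ D ∧
    ∀ Q H w : ℕ, NRZ c₁ Q → Par D (Real.log Q) (Real.log H) w → Real.log H + 2 ≤ Real.log Q ^ 2 →
      ∀ z : ℕ, z = ⌈Real.log Q ^ (4 * (A + 1) + 13)⌉₊ → 1 ≤ w → ∀ b : ℕ → ℕ, Good C1 A z Q H w b ∧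
      ∀ k : ℕ, 1 ≤ k → k ≤ w →
      ∑ a ∈ tup k (Sb w b H), wt w (st ∅ a) *
        |XX (Fm w Q) (Tb w b H) a - XX (Gm w z) (Tb w b H) a| ≤
        (1 / (Real.log Q ^ (A + 1)) ^ 2) * ZZ w k (Sb w b H) ∅ * (Tb w b H).card := by
  obtain ⟨c₀, hc₀, hpsi⟩ := psi_good_w
  obtain ⟨c, hc, hgood⟩ := good_NRZ
  obtain ⟨Ka, H0, C, hKa, hC, hpsi'⟩ := hpsi (min c c₀) (lt_min hc hc₀) (min_le_right _ _) 5
  obtain ⟨Kb, H0b, Cb, hKb, hCb, hpsi''⟩ := hpsi (min c c₀) (lt_min hc hc₀) (min_le_right _ _) (2 * (A + 1) + 5)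
  obtain ⟨C1, hC1, hV⟩ := Vz_inv_log
  obtain ⟨C6, hC6, hE⟩ := exp_sum_inv 6
  obtain ⟨HF, hHF3, hF⟩ := sum_Fm 1
  refine ⟨min c c₀, lt_min hc hc₀, ?_, C1, hC1, ?_⟩
  · intro Q0
    obtain ⟨Q, hQ, hN⟩ := hgood Q0
    exact ⟨Q, hQ, NRZ_mono hN (min_le_left _ _)⟩
  have hC1sq : 1 ≤ C1 ^ 2 := one_le_pow₀ hC1
  obtain ⟨B, hBd⟩ : ∃ B : ℕ, B = 4 * (A + 1) + 13 := ⟨_, rfl⟩
  obtain ⟨m, hmd⟩ : ∃ m : ℕ, m = 4 * (A + 1) + 19 := ⟨_, rfl⟩
  obtain ⟨D, d1, d2, d3, d4, d5, d6, d7, d8, d9, d10, d11, d12, d13, d15, d16, d17, d18⟩ :=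
    exists_D (H0 := H0) (H0b := H0b) (D' := D') hKa hC hC1 hC6 (Nat.cast_nonneg HF) hKb hCb (Nat.cast_nonneg B)
      (Nat.cast_nonneg m) (Nat.cast_nonneg A)
  have hB0 : (0 : ℝ) ≤ B := Nat.cast_nonneg _
  have hm0 : (0 : ℝ) ≤ m := Nat.cast_nonneg _
  rw [← hBd]
  refine ⟨D, d1, (le_abs_self _).trans d8, d6, d15, fun Q H w hN hPar hyl z hz hw1 b => ?_⟩
  obtain ⟨l, hl⟩ : ∃ l : ℝ, l = Real.log Q := ⟨_, rfl⟩
  obtain ⟨y, hy⟩ : ∃ y : ℝ, y = Real.log H := ⟨_, rfl⟩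
  rw [← hl, ← hy] at hPar hyl
  rw [← hl] at hz
  have hl1 := hPar.hl
  have hlge := hPar.l_ge
  have hy30 := hPar.yl2
  have hll := hPar.ll
  have hlog30 : 30 ≤ Real.log l := hPar.hD.trans hPar.hDl
  have hDl' : D ≤ l := by
    linarith only [hPar.hDl, hll, hlog30]
  have hQpos : 0 < Q := by
    rcases Nat.eq_zero_or_pos Q with h | h
    · rw [h] at hl
      simp at hl
      linarith only [hl, hl1]
    · exact h
  have hHpos : 0 < H := by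
    rcases Nat.eq_zero_or_pos H with h | h
    · rw [h] at hy
      simp at hy
      linarith only [hy, hy30, hl1]
    · exact h
  have hQe : (Q : ℝ) = Real.exp l := by
    rw [hl, Real.exp_log (by exact_mod_cast hQpos)]
  have hHe : (H : ℝ) = Real.exp y := by
    rw [hy, Real.exp_log (by exact_mod_cast hHpos)]
  have hQ2 : 2 ≤ Q := by
    have : (2 : ℝ) ≤ Q := by
      rw [hQe]
      linarith only [Real.add_one_le_exp l, hlge]
    exact_mod_cast this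
  have hyH : y + 1 ≤ H := by
    rw [hHe]
    exact Real.add_one_le_exp y
  have hDy : D ≤ y := by linarith only [hDl', hy30, hl1]
  have hwl := hPar.wl4
  have hwQ : w ≤ Q := by
    have : (w : ℝ) ≤ Q := by
      rw [hQe]
      linarith only [Real.add_one_le_exp l, hwl]
    exact_mod_cast this
  have hw1' : (1 : ℝ) ≤ w := by exact_mod_cast hw1
  have hw0' : (0 : ℝ) < w := by exact_mod_cast hw1
  -- the level `z`
  obtain ⟨hz1, hz2, hz3, hz4, hz5, hz6⟩ := z_bounds hPar (B := B) (by omega) (by linarith only [d15, hB0]) hz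
  have hwz : w ≤ z := by exact_mod_cast hz5
  have hzQ : z ≤ Q := by
    have : (z : ℝ) ≤ Q := by rw [hQe]; exact hz4
    exact_mod_cast this
  -- the sieve
  obtain ⟨r, hr⟩ : ∃ r : ℕ, r = ⌈(m : ℝ) * Real.log l⌉₊ := ⟨_, rfl⟩
  have hVQ0 : 1 ≤ (Vz Q)⁻¹ := by
    rw [one_le_inv₀ (Vz_pos Q)]
    exact Vz_le_one Q
  have hVQ : (Vz Q)⁻¹ ≤ C1 * l := by
    rw [hl]
    exact hV Q hQ2
  have hVQpos := Vz_pos Q
  have hVzpos := Vz_pos z
  have hVzQ : (Vz z)⁻¹ ≤ (Vz Q)⁻¹ := inv_anti₀ hVQpos (Vz_anti hzQ)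
  have hVz1 : 0 < (Vz z)⁻¹ := inv_pos.2 hVzpos
  have hEQ : Real.exp (6 * ∑ p ∈ pz Q, 1 / (p : ℝ)) ≤ C6 * l ^ 6 := by
    have := hE Q hQ2
    rw [← hl] at this
    push_cast at this
    exact this
  have hWp := Wp_ge w
  have hWp4 := Wp_le w
  have hWp0 : 0 < Wp w := by linarith only [hWp]
  obtain ⟨hX1, hX2⟩ := X_large hPar (n := w) rfl hHe hWp hWp4
  obtain ⟨ε, hε⟩ : ∃ ε : ℝ, ε = 1 / (4 * w) := ⟨_, rfl⟩
  have hε0 : 0 ≤ ε := by rw [hε]; positivity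
  have hεw : (w : ℝ) * ε ≤ 1 / 4 := by
    rw [hε]
    apply le_of_eq
    field_simp
  have hεl : 1 / (4 * l) ≤ ε := by
    rw [hε]
    apply one_div_le_one_div_of_le (by positivity)
    linarith only [hwl]
  have hH1 : 0 < (H : ℝ) + 1 := by positivity
  have hm1 : 1 ≤ m := by omega
  have hqerr : ∀ X : ℝ, Real.exp (y / 2) ≤ X → qerr X Q r ≤ X * (l ^ 7 / l ^ m) := by
    intro X hX
    unfold qerr
    exact qerr_pow hPar hQe hX hm1 (by linarith only [d16, hm0]) hr (by linarith only [d10, hDl', hC6]) hEQ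
  have hgen : ∀ X : ℝ, Real.exp (y / 2) ≤ X →
      1 + ((Vz Q)⁻¹) ^ 2 * qerr X Q r ≤ ε * (X - 1) := by
    intro X hX
    have hX0 : 16 * l ≤ X := (expy_ge hPar).trans hX
    exact gen_err hl1 hC1 (d6.trans hDl') hmd hX0 hVQ0 hVQ (qerr_nonneg Q r (by linarith only [hX0, hl1])) (hqerr X hX) hεl
  have hXW : Real.exp (y / 2) ≤ ((H : ℝ) + 1) / Wp w := by
    refine hX2.trans ?_
    apply div_le_div_of_nonneg_right _ hWp0.le
    linarith only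
  have hXW1 : Real.exp (l * Real.log l) ≤ ((H : ℝ) + 1) / Wp w := by
    refine hX1.trans ?_
    apply div_le_div_of_nonneg_right _ hWp0.le
    linarith only
  have hcl : 1 + ((Vz Q)⁻¹) ^ 2 * qerr (((H : ℝ) + 1) / Wp w) Q r ≤ ε * (((H : ℝ) + 1) / Wp w - 1) :=
    hgen _ hXW
  have hXWp : 0 ≤ ((H : ℝ) + 1) / Wp w := by positivity
  have hclz : 1 + ((Vz z)⁻¹) ^ 2 * qerr (((H : ℝ) + 1) / Wp w) z r ≤ ε * (((H : ℝ) + 1) / Wp w - 1) := by
    refine le_trans ?_ hcl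
    have h1 : ((Vz z)⁻¹) ^ 2 ≤ ((Vz Q)⁻¹) ^ 2 := pow_le_pow_left₀ hVz1.le hVzQ 2
    have h2 := mul_le_mul h1 (qerr_mono (r := r) hXWp hzQ) (qerr_nonneg z r hXWp) (by positivity)
    linarith only [h2]
  have hexpH : Real.exp (y / 2) ≤ (H : ℝ) + 1 := by
    rw [hHe]
    have : Real.exp (y / 2) ≤ Real.exp y := Real.exp_le_exp.2 (by linarith only [hy30, hl1])
    linarith only [this]
  have hcl1 : 1 + ((Vz Q)⁻¹) ^ 2 * serr (H + 1) Q r ≤ ε * ((H : ℝ) + 1 - 1) := by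
    have h1 := hgen ((H : ℝ) + 1) hexpH
    rw [qerr_one] at h1
    exact h1
  have hs0 := serr_nonneg (H + 1) Q r
  have hserr : serr (H + 1) Q r ≤ ((H : ℝ) + 1) * (l ^ 7 / l ^ m) := by
    rw [← qerr_one]
    exact hqerr _ hexpH
  have hVw := Vz_pos w
  have hVw1 := Vz_le_one w
  have hVwQ : Vz Q ≤ Vz w := Vz_anti hwQ
  obtain ⟨hs1', hs2⟩ := serr_conseq hs0 rfl hVQpos hVQ0 hVwQ hε0 hcl1
  have hs1 : serr (H + 1) w r ≤ ε * (((H : ℝ) + 1) * Vz w) := (serr_mono hwQ).trans hs1'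
  have hs2z : Vz w * (Vz z)⁻¹ * serr (H + 1) z r ≤ ε * (((H : ℝ) + 1) * Vz w) := by
    refine le_trans ?_ hs2
    apply mul_le_mul _ (serr_mono hzQ) (serr_nonneg _ _ _) (mul_nonneg hVw.le (by linarith only [hVQ0]))
    exact mul_le_mul_of_nonneg_left hVzQ hVw.le
  -- the shifts
  have hcard := card_Tb w b H
  rw [hHe] at hcard
  obtain ⟨hT1, hT2, hT3⟩ := hPar.T_large (n := w) le_rfl hWp hWp4 hcard
  have hC1D : C1 ≤ D := by
    have : C1 ≤ C1 ^ 2 := by nlinarith only [hC1]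
    linarith only [d6, hC1sq, this]
  have hHW : 2 * Wp w ≤ H := by rw [hHe]; exact hT1
  -- the primes
  have hHF : HF ≤ H := by
    have : (HF : ℝ) ≤ H := by linarith only [hyH, hDy, d9]
    exact_mod_cast this
  have hFm : ∀ n ∈ Tb w b H, ∑ a ∈ Sb w b H, Fm w Q (n + a) ≤ ((H : ℝ) + 1) * Vz w * (1 + ε) := by
    intro n hn
    have h1 := (mem_Tb.1 hn).1
    refine (hF H hHF w Q n h1.1 h1.2 _ (filter_subset _ _)).trans ?_
    apply mul_le_mul_of_nonneg_left _ (by positivity)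
    rw [← hy, pow_one, hε]
    have h2 : 1 / y ≤ 1 / (4 * w) := by
      apply one_div_le_one_div_of_le (by positivity)
      linarith only [hwl, hy30, hl1]
    linarith only [h2]
  have hGm : ∀ n ∈ Tb w b H, ∑ a ∈ Sb w b H, Gm w Q (n + a) ≤ ((H : ℝ) + 1) * Vz w * (1 + ε) := by
    intro n hn
    have h1 := (abs_le.1 (sum_Gm hwQ hn r)).2
    linarith only [h1, hs2]
  have hGmz : ∀ n ∈ Tb w b H, ∑ a ∈ Sb w b H, Gm w z (n + a) ≤ ((H : ℝ) + 1) * Vz w * (1 + ε) := by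
    intro n hn
    have h1 := (abs_le.1 (sum_Gm hwz hn r)).2
    linarith only [h1, hs2z]
  -- the circle method
  have hlogH2 : Real.log (2 * H) ≤ y + 1 := by
    rw [Real.log_mul (by norm_num) (by positivity), ← hy]
    linarith only [Real.log_two_lt_d9]
  have hlogH2' : y ≤ Real.log (2 * H) := by
    rw [Real.log_mul (by norm_num) (by positivity), ← hy]
    linarith only [Real.log_pos one_lt_two]
  have hllog : 0 ≤ l * Real.log l := by positivity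
  have hpsiK : ∀ K' : ℝ, 1 ≤ K' → 2 * K' ≤ D → ∀ z : ℝ, y ≤ z → z ≤ y + 1 → K' * l * Real.log z ≤ z := by
    intro K' hK1' hK2' z hz1 hz2
    have h3 : 2 * K' * (l * Real.log l) ≤ D * (l * Real.log l) := mul_le_mul_of_nonneg_right hK2' hllog
    have h1 : z ≤ l ^ 2 := by linarith only [hyl, hz2]
    have h2 := Real.log_le_log (by linarith only [hy30, hl1, hz1] : 0 < z) h1
    rw [Real.log_pow] at h2
    push_cast at h2
    have h4 : K' * l * Real.log z ≤ K' * l * (2 * Real.log l) :=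
      mul_le_mul_of_nonneg_left h2 (by positivity)
    have h5 := hPar.hy
    linarith only [h3, h4, h5, hz1]
  have hH0H : H0 ≤ H := by
    have : H0 ≤ |H0| := le_abs_self _
    linarith only [hyH, hDy, d4, this]
  have hH0Hb : H0b ≤ H := by
    have : H0b ≤ |H0b| := le_abs_self _
    linarith only [hyH, hDy, d5, this]
  have hpsiH := hpsi'' Q hN H hH0Hb
    (by rw [← hl, ← hy]; exact hPar.hy2)
    (by rw [← hl, ← hy]; exact hpsiK Kb hKb d3 y le_rfl (by linarith only))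
    (Sb w b H) (Tb w b H) (fun a ha => (mem_Sb.1 ha).1) (fun n hn => (mem_Tb.1 hn).1)
  have h2Hc : ((2 * H : ℕ) : ℝ) = 2 * (H : ℝ) := by push_cast; ring
  have hpsi2 := fun T' hT' => hpsi' Q hN (2 * H) (by
      rw [h2Hc]
      linarith only [hH0H, hH1])
    (by rw [h2Hc, ← hl]; linarith only [hlogH2, hyl])
    (by rw [h2Hc, ← hl]; exact hpsiK Ka hKa d2 _ hlogH2' hlogH2)
    (Sb w b H) T' (fun a ha => by
      have := (mem_Sb.1 ha).1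
      omega) hT'
  obtain ⟨y2, hy2⟩ : ∃ y2 : ℝ, y2 = Real.log (2 * H) := ⟨_, rfl⟩
  obtain ⟨E1, hE1⟩ : ∃ E1 : ℝ, E1 = √(2 * (H : ℝ)) / y2 ^ 5 := ⟨_, rfl⟩
  obtain ⟨E2, hE2⟩ : ∃ E2 : ℝ, E2 = C * y2 ^ 8 * (2 * (H : ℝ) / √(Q : ℝ)) := ⟨_, rfl⟩
  have hy0 := hPar.y0
  have hy20 : 0 < y2 := by rw [hy2]; linarith only [hlogH2', hy0]
  have hE10 : 0 ≤ E1 := by rw [hE1]; positivity
  have hE20 : 0 ≤ E2 := by rw [hE2]; positivity
  have hpsi2' : ∀ T' : Finset ℕ, (∀ m ∈ T', 1 ≤ m ∧ m ≤ 2 * H) → ∀ φ : ℕ → ℝ, (∀ a, 0 ≤ φ a) →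
      ∑ a ∈ Sb w b H, φ a * |∑ m ∈ T', Eb Q (m + a)| ≤
        √(∑ a ∈ Sb w b H, φ a ^ 2) * (E1 * (T'.card : ℝ) + E2 * √(T'.card)) := by
    intro T' hT' φ hφ
    have h1 := hpsi2 T' hT' (fun _ => 1) φ hφ
    simp only [one_mul, abs_one, one_pow, sum_const, nsmul_eq_mul, mul_one] at h1
    rw [h2Hc, ← hy2] at h1
    rw [hE1, hE2]
    refine h1.trans (le_of_eq ?_)
    ring
  have hVQl : (Vz Q)⁻¹ ≤ Real.log (2 * H) := by
    refine hVQ.trans (le_trans ?_ hlogH2')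
    have h1 := hPar.yl
    have h3 : C1 * l ≤ D * l := mul_le_mul_of_nonneg_right hC1D (by linarith only [hl1])
    linarith only [h1, h3]
  -- the size of the sifted set
  have ht0 : (0 : ℝ) < ((Tb w b H).card : ℝ) := lt_of_lt_of_le (Real.exp_pos _) hT3
  have hTne : (Tb w b H).Nonempty := by
    have : 0 < (Tb w b H).card := by exact_mod_cast ht0
    exact card_pos.1 this
  obtain ⟨n0, hn0⟩ := hTne
  have hε2 : ε ≤ 1 / 2 := by
    have : 1 * ε ≤ w * ε := mul_le_mul_of_nonneg_right hw1' hε0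
    linarith only [this, hεw]
  have hSl : ((H : ℝ) + 1) * Vz w / 2 ≤ ((Sb w b H).card : ℝ) := by
    have h1 := (abs_le.1 (card_Sb hn0 r)).1
    have : ε * (((H : ℝ) + 1) * Vz w) ≤ 1 / 2 * (((H : ℝ) + 1) * Vz w) :=
      mul_le_mul_of_nonneg_right hε2 (by positivity)
    linarith only [h1, hs1, this]
  -- the weight parameters
  obtain ⟨ρ, hρ⟩ : ∃ ρ : ℝ, ρ = √(2 * ((H : ℝ) + 1) * Real.exp (2 * ∑ p ∈ pz w, 1 / (p : ℝ))) / (Sb w b H).card :=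
    ⟨_, rfl⟩
  have hρ0 : 0 ≤ ρ := by rw [hρ]; exact div_nonneg (Real.sqrt_nonneg _) (Nat.cast_nonneg _)
  have hHr1 : (1 : ℝ) ≤ H := by linarith only [hyH, hy0]
  have hX2 : Real.exp (2 * ∑ p ∈ pz w, 1 / (p : ℝ)) ≤ C6 * l ^ 6 := by
    refine le_trans ?_ hEQ
    apply Real.exp_le_exp.2
    have h1 : ∑ p ∈ pz w, 1 / (p : ℝ) ≤ ∑ p ∈ pz Q, 1 / (p : ℝ) :=
      sum_le_sum_of_subset_of_nonneg (pz_mono hwQ) (fun _ _ _ => by positivity)
    have h2 : 0 ≤ ∑ p ∈ pz Q, 1 / (p : ℝ) := sum_nonneg fun _ _ => by positivity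
    linarith only [h1, h2]
  have hVρ := hPar.Vrho (V := Vz w) (ρ := ρ) (S := ((Sb w b H).card : ℝ))
    (X2 := Real.exp (2 * ∑ p ∈ pz w, 1 / (p : ℝ))) (C6 := C6) (Hr := (H : ℝ)) hVw hHr1 hSl hC6
    (Real.exp_pos _).le hX2 hρ
  have hC6D : 80 * C6 ≤ D := d10
  obtain ⟨N, hNd⟩ : ∃ N : ℕ, N = ⌈64 * w * (y + 2)⌉₊ := ⟨_, rfl⟩
  have hN1 : 64 * (w : ℝ) * (y + 2) ≤ N := by rw [hNd]; exact Nat.le_ceil _
  have hN0r : (1 : ℝ) ≤ N := by
    refine le_trans ?_ hN1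
    nlinarith only [hw1', hy0]
  have hN0 : 1 ≤ N := by exact_mod_cast hN0r
  have hN2 : (N : ℝ) ≤ l ^ 4 := by
    have h1 : (N : ℝ) ≤ 64 * w * (y + 2) + 1 := by
      rw [hNd]
      exact (Nat.ceil_lt_add_one (by positivity)).le
    have h2 : 64 * (w : ℝ) * (y + 2) ≤ 64 * l * l ^ 2 := by
      apply mul_le_mul _ hyl (by linarith only [hy0]) (by positivity)
      linarith only [hwl]
    have h3 : 65 * l ^ 3 ≤ l ^ 4 := by
      have : 65 * l ^ 3 ≤ l * l ^ 3 := mul_le_mul_of_nonneg_right (by linarith only [hlge]) (by positivity)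
      linarith only [this]
    have h4 : 1 ≤ l ^ 3 := one_le_pow₀ hl1
    nlinarith only [h1, h2, h3, h4]
  have hWe : Wp w ≤ Real.exp (2 * w) := hWp4.trans (hPar.four_pow (n := w) le_rfl)
  have hWN : Wn w * N ≤ H := by
    have h1 : ((Wn w * N : ℕ) : ℝ) ≤ H := by
      push_cast
      rw [Wn_cast, hHe]
      have h2 : l ^ 4 ≤ Real.exp (4 * l) := by
        have : l ≤ Real.exp l := by linarith only [Real.add_one_le_exp l]
        calc l ^ 4 ≤ (Real.exp l) ^ 4 := pow_le_pow_left₀ (by linarith only [hl1]) this 4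
          _ = _ := by
            rw [← Real.exp_nat_mul]
            norm_num
      calc Wp w * N ≤ Real.exp (2 * w) * Real.exp (4 * l) :=
            mul_le_mul hWe (hN2.trans h2) (Nat.cast_nonneg _) (Real.exp_pos _).le
        _ = Real.exp (2 * w + 4 * l) := (Real.exp_add _ _).symm
        _ ≤ _ := Real.exp_le_exp.2 (by linarith only [hwl, hy30, hl1])
    exact_mod_cast h1
  obtain ⟨J, hJ1, hJH, hJu, hJl⟩ := exists_J (Wn_pos w) hN0 hWN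
  rw [Wn_cast] at hJu hJl
  have hX : (H : ℝ) / (2 * Wp w) ≤ ((H : ℝ) + 1) / Wp w - 1 := by
    have h1 : ((H : ℝ) + 1) / Wp w - 1 - (H : ℝ) / (2 * Wp w) = ((H : ℝ) + 2 - 2 * Wp w) / (2 * Wp w) := by
      field_simp
      ring
    have h2 : 0 ≤ ((H : ℝ) + 2 - 2 * Wp w) / (2 * Wp w) := by
      apply div_nonneg _ (by positivity)
      linarith only [hHW]
    linarith only [h1, h2]
  have hX1' : 1 < ((H : ℝ) + 1) / Wp w := by
    have : 0 < (H : ℝ) / (2 * Wp w) := by positivity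
    linarith only [hX, this]
  have herr := hPar.condE (V := Vz w) (ρ := ρ) (C6 := C6) (C := C) (Hr := (H : ℝ)) (Q := (Q : ℝ)) (E1 := E1)
    (E2 := E2) (B := y + 2) (J := (J : ℝ)) (W := Wp w) (N := (N : ℝ)) (y2 := y2) hVw hVw1 hρ0 hC6 hC hC6D
    d11 hVρ hHr1 hQe
    (by rw [hy2]; exact hlogH2') (by rw [hy2]; linarith only [hlogH2, hy30, hl1]) hE1 hE2
    (by linarith only [hy0]) hWp hWe hN1 hN0r hN2 (by exact_mod_cast (by omega : 0 < J)) hJu hJl hX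
  have hB : ∀ m, m ≤ 3 * H → |Eb Q m| ≤ y + 2 := by
    intro m hm
    apply Eb_abs (by linarith only [hy0])
    · rcases Nat.eq_zero_or_pos m with h0 | h0
      · rw [h0, Nat.cast_zero, Real.log_zero]
        linarith only [hy0]
      · have h1 : (m : ℝ) ≤ 3 * H := by exact_mod_cast hm
        have h2 := Real.log_le_log (by exact_mod_cast h0 : (0 : ℝ) < m) h1
        rw [Real.log_mul (by norm_num) (by positivity), ← hy] at h2
        have h3 : Real.log 3 ≤ 2 := by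
          have h4 : Real.log 3 ≤ Real.log 4 := Real.log_le_log (by norm_num) (by norm_num)
          have e : (4 : ℝ) = 2 ^ 2 := by norm_num
          rw [e, Real.log_pow] at h4
          push_cast at h4
          linarith only [h4, Real.log_two_lt_d9]
        linarith only [h2, h3]
    · have h1 := hPar.yl
      have h3 : C1 * l ≤ D * l := mul_le_mul_of_nonneg_right hC1D (by linarith only [hl1])
      linarith only [h1, h3, hVQ]
  -- the difference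
  obtain ⟨P, hP⟩ : ∃ P : ℝ, P = l ^ (A + 1) := ⟨_, rfl⟩
  have hP1 : 1 ≤ P := by rw [hP]; exact one_le_pow₀ hl1
  have hP0 : 0 < P := by linarith only [hP1]
  have hWpH : Wp w ≤ (H : ℝ) + 1 := by linarith only [hHW, hWp]
  obtain ⟨u, hu⟩ : ∃ u : ℝ, u = Real.log (2 * H) := ⟨_, rfl⟩
  have hu0 : 0 ≤ u := by rw [hu]; linarith only [hlogH2', hy30, hl1]
  have hu1 : 1 ≤ u := by rw [hu]; linarith only [hlogH2', hy30, hl1]
  obtain ⟨σ, hσ⟩ : ∃ σ : ℝ, σ = 1 / y ^ (2 * (A + 1) + 5) := ⟨_, rfl⟩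
  have hσ0 : 0 ≤ σ := by rw [hσ]; positivity
  obtain ⟨β0, hβ0⟩ : ∃ β0 : ℝ, β0 = Cb * y ^ 8 * ((H : ℝ) / √(Q : ℝ)) := ⟨_, rfl⟩
  have hCb0 : 0 ≤ Cb := by linarith only [hCb]
  have hβ00 : 0 ≤ β0 := by rw [hβ0]; positivity
  obtain ⟨C0, hC0⟩ : ∃ C0 : ℝ, C0 = 2 * ((Vz Q)⁻¹ * (((H : ℝ) + 1) * Vz w * (1 + ε))) := ⟨_, rfl⟩
  obtain ⟨C1', hC1d⟩ : ∃ C1' : ℝ, C1' = Vz w * (Vz z)⁻¹ * (((H : ℝ) + 1) * Vz w) * (8 * Real.log H / z) +
        4 * ((Vz w) ^ 2 * ((Vz Q)⁻¹) ^ 2 * serr (H + 1) Q r) := ⟨_, rfl⟩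
  obtain ⟨Hh, hHh⟩ : ∃ Hh : ℝ, Hh = ((H : ℝ) + 1) * Vz w * (1 + ε) * Real.log (2 * H) := ⟨_, rfl⟩
  have hS0n : 0 < (Sb w b H).card := by
    have : (0 : ℝ) < ((Sb w b H).card : ℝ) := by
      have h1 : 0 < ((H : ℝ) + 1) * Vz w / 2 := by positivity
      linarith only [hSl, h1]
    exact_mod_cast this
  have hvV : (Vz w)⁻¹ ≤ (Vz Q)⁻¹ := inv_anti₀ hVQpos hVwQ
  refine ⟨⟨⟨n0, hn0⟩, by rw [← hl]; exact hX1, hSl, hvV, by rw [← hl]; exact hVQ, by rw [← hy]; exact hHe, hQ2, hwz,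
    hz3, hzQ, by rw [← hl, ← hBd]; exact hz2, by rw [← hl, ← hBd]; exact hz1, hWe, by rw [← hy]; exact hlogH2,
    by rw [← hy]; exact hlogH2'⟩, fun k hk1 hkw => ?_⟩
  have hkε : (k : ℝ) * (2 * ε) ≤ 1 / 2 := by
    have h1 : (k : ℝ) ≤ w := by exact_mod_cast hkw
    have h2 := mul_le_mul_of_nonneg_right h1 hε0
    linarith only [h2, hεw]
  have hdt := diff_tuples (k := k) (r := r) (J := J) hwz hzQ hz3 b (ε := ε) (σ := σ) (β0 := β0) (B := y + 2) hε0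
    hkε hσ0 hβ00 hS0n hcl hclz hFm hGm hGmz (fun g φ hφ => by
      have h1 := hpsiH g φ hφ
      rw [← hy] at h1
      rw [hσ, hβ0]
      refine h1.trans (le_of_eq ?_)
      ring) hE10 hE20 hpsi2' hB hJ1 hJH hX1' hWpH hρ (by rw [hε]; exact herr) hVQl
    (by rw [← hy]; linarith only [hy30, hl1]) (by rw [← hy]; exact hz6) hC0 hC1d hHh
  obtain ⟨t, ht⟩ : ∃ t : ℝ, t = ((Tb w b H).card : ℝ) := ⟨_, rfl⟩
  obtain ⟨Z, hZ⟩ : ∃ Z : ℝ, Z = ZZ w k (Sb w b H) ∅ := ⟨_, rfl⟩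
  obtain ⟨S, hS⟩ : ∃ S : ℝ, S = ((Sb w b H).card : ℝ) := ⟨_, rfl⟩
  have hZ0 : 0 ≤ Z := by rw [hZ]; exact ZZ_nonneg _ _ _ _
  have hkl : (k : ℝ) ≤ l := by
    have h1 : (k : ℝ) ≤ w := by exact_mod_cast hkw
    linarith only [h1, hwl]
  have hk0 : (0 : ℝ) ≤ k := Nat.cast_nonneg _
  have hly : l ≤ y := by linarith only [hy30, hl1]
  have hyl2 : y ≤ l ^ 2 := by linarith only [hyl]
  rw [← ht, ← hZ, ← hS] at hdt
  rw [← hS] at hSl
  rw [← ht] at ht0 hT3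
  have hpart1a : k * (2 * (ρ * (Vz w * (√(H : ℝ) * σ)))) ≤ 1 / (4 * P ^ 2) :=
    part1a hl1 hk0 hkl hly hC6 (by linarith only [d10, hDl', hC6]) hρ0 hVw.le hVρ hσ hP
  have hθ : √C1' ≤ (Vz w * √((H : ℝ) + 1)) * (1 / (48 * C6 * l ^ 4 * P ^ 2)) :=
    theta_le (y := y) (z := z) (B := B) hl1 hy0.le hyl2 (by linarith only [hHr1]) hVw.le (by linarith only [hVQ0])
      hVz1.le hVzQ hVQ hs0 hmd hBd hC1 hC6 hserr hP hz1 (d6.trans hDl') (d13.trans hDl') (by rw [hy]; exact hC1d)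
  have hpart1b : k * (2 * (ρ * √C1')) ≤ 1 / (4 * P ^ 2) :=
    part1b hl1 hk0 hkl hHr1 hC6 hρ0 hVw.le hP0 hVρ hθ (Real.sqrt_nonneg _)
  -- the second part
  have hWl : Wp w ≤ Real.exp (2 * (l / D)) := by
    refine hWe.trans (Real.exp_le_exp.2 ?_)
    linarith only [hPar.wl3]
  have hlD : l / D ≤ l / 30 := div_le_div_of_nonneg_left (by linarith only [hl1]) (by norm_num) hPar.hD
  have h2u : (2 * u) ^ k ≤ Real.exp (3 * (l / D)) := by
    refine le_trans (pow_le_pow_right₀ (by linarith only [hu1]) hkw) ?_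
    exact hPar.logpow (n := w) le_rfl hu0 (by rw [hu]; exact hlogH2)
  have hSu : S ≤ 2 * (((H : ℝ) + 1) * Vz w) := by
    have h1 := (abs_le.1 (card_Sb hn0 r)).2
    rw [← hS] at h1
    have : ε * (((H : ℝ) + 1) * Vz w) ≤ 1 / 2 * (((H : ℝ) + 1) * Vz w) :=
      mul_le_mul_of_nonneg_right hε2 (by positivity)
    have h0 : 0 < ((H : ℝ) + 1) * Vz w := by positivity
    linarith only [h1, hs1, this, h0]
  have hS0 : 0 < S := by
    have h1 : 0 < ((H : ℝ) + 1) * Vz w / 2 := by positivity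
    linarith only [hSl, h1]
  have hHhS : Hh ≤ 4 * S * u := by
    rw [hHh, ← hu]
    apply mul_le_mul_of_nonneg_right _ hu0
    have h1 : ((H : ℝ) + 1) * Vz w * (1 + ε) ≤ ((H : ℝ) + 1) * Vz w * 2 :=
      mul_le_mul_of_nonneg_left (by linarith only [hε2]) (by positivity)
    linarith only [h1, hSl]
  have hHh0 : 0 ≤ Hh := by rw [hHh, ← hu]; positivity
  have hok : okE w b ∅ := fun p _ e he => absurd he (notMem_empty e)
  have hZS : S ^ k ≤ Wp w * Z := by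
    have h1 : ((Sb w b H).card : ℝ) ^ k * (Wp w)⁻¹ ≤ Z := by
      rw [hZ]
      unfold ZZ
      have h2 : ∀ a ∈ tup k (Sb w b H), (Wp w)⁻¹ ≤ wt w (st ∅ a) := by
        intro a ha
        unfold wt
        have h3 := one_le_om (okE_st hok ha)
        exact inv_anti₀ (by linarith only [h3]) (om_le _ _)
      have h3 := card_nsmul_le_sum _ _ _ h2
      rw [card_tup, nsmul_eq_mul] at h3
      push_cast at h3
      exact h3
    rw [← hS] at h1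
    have h2 := mul_le_mul_of_nonneg_left h1 hWp0.le
    have e : Wp w * (S ^ k * (Wp w)⁻¹) = S ^ k := by
      field_simp
    rw [e] at h2
    exact h2
  have hQs : √(Q : ℝ) = Real.exp (l / 2) := by
    rw [hQe, Real.exp_half]
  have hC00 : 0 ≤ C0 := by rw [hC0]; positivity
  have hmain2 : k * (Vz w * β0 + √C0) * (2 * u) ^ k * Wp w ≤ (1 / (2 * P ^ 2)) * (√S * √t) :=
    main2_le (y := y) (H := (H : ℝ)) hPar hkl hyl2 hy0.le hC1 hCb0 (by linarith only [hHr1]) hVw hVw1 hWp hvV hVQ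
      (by linarith only [hVQ0]) hSl hS0 (by
        rw [← hHe, ← ht] at hT2
        linarith only [hT2]) hT3 hP (by positivity) h2u hWl hε0 hε2 d17 (by linarith only [d12, hDl'])
      (by linarith only [d18, hDl']) hQs hβ0 hC0
  have hpart2 := part_two (g := Vz w * β0 + √C0) hk1 hS0 hHhS hu1 ht0 hWp0 (by positivity)
    (by positivity : (0 : ℝ) ≤ 1 / (2 * P ^ 2)) hZS hmain2
  rw [← hl, ← hP, ← hZ, ← ht]
  refine hdt.trans ?_
  rw [mul_add]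
  have h1 : k * (2 * (ρ * (Vz w * (√(H : ℝ) * σ) + √C1')) * Z * t) ≤ (1 / (2 * P ^ 2)) * Z * t := by
    have h2 : k * (2 * (ρ * (Vz w * (√(H : ℝ) * σ) + √C1'))) ≤ 1 / (2 * P ^ 2) := by
      have e : 1 / (2 * P ^ 2) = 1 / (4 * P ^ 2) + 1 / (4 * P ^ 2) := by
        field_simp
        norm_num
      rw [e]
      refine le_trans (le_of_eq ?_) (add_le_add hpart1a hpart1b)
      ring
    have h3 := mul_le_mul_of_nonneg_right (mul_le_mul_of_nonneg_right h2 hZ0) ht0.le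
    refine le_trans (le_of_eq ?_) h3
    ring
  have e : (1 / P ^ 2) * Z * t = (1 / (2 * P ^ 2)) * Z * t + (1 / (2 * P ^ 2)) * Z * t := by
    field_simp
    norm_num
  rw [e]
  exact add_le_add h1 hpart2

end Pool.Agent.E8helper91.PT
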