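import Pool.Agent.E8helper91.PT.T8

set_option autoImplicit false

/-!
# The weighted theorem at a good scale, with any power saving
-/

open Finset Filter
open scoped Real

namespace Pool.Agent.E8helper91.PT

open Pool.Agent.R521.F6
open Pool.Agent.H373R2.T7 (pz Vz lamz mem_pz Vz_pos Vz_le_one)

open Classical in
/-- **the weighted theorem at a good scale** -/
theorem scale_T {δ : ℝ} (hδ : 0 < δ) (A : ℕ) : ∃ c₁ : ℝ, 0 < c₁ ∧ (∀ Q0 : ℕ, ∃ Q, Q0 ≤ Q ∧ NRZ c₁ Q) ∧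
    ∃ D : ℝ, 30 ≤ D ∧
    ∀ Q H w K : ℕ, NRZ c₁ Q → Par D (Real.log Q) (Real.log H) w → Real.log H + 2 ≤ Real.log Q ^ 2 →
      1 ≤ K → 2 * K + 2 ≤ w →
      ∀ b : ℕ → ℕ, ∀ k : ℕ, 1 ≤ k → k ≤ K →
      ∑ A' ∈ ((Sb w b H).powersetCard k).filter (fun A' => ((((Icc 1 H).filter
        (fun n => ∀ a ∈ A', (n + a).Prime)).card : ℕ) : ℝ) ≤ (H : ℝ) ^ (1 - δ)), wt w A' ≤
        1 / Real.log Q ^ A * ∑ A' ∈ (Sb w b H).powersetCard k, wt w A' := by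
  obtain ⟨CS, hCS, hES⟩ := exp_sum_inv 1
  have hCSB : 0 ≤ CS * (((4 * (A + 1) + 13 : ℕ) : ℝ) + 1) := by positivity
  have hδ8 : 0 < 8 / δ := by positivity
  have hA0 : (0 : ℝ) ≤ A := Nat.cast_nonneg _
  obtain ⟨c₁, hc₁, hgood, C1, hC1, D, hD30, hD', hDC, d15, hmain⟩ := scale_diff A
    (8 / δ + CS * (((4 * (A + 1) + 13 : ℕ) : ℝ) + 1) + 20 * (2 * (A : ℝ) + 30))
  refine ⟨c₁, hc₁, hgood, D, hD30, fun Q H w K hN hPar hyl hK1 hKw b k hk1 hkK => ?_⟩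
  have d14 : CS * (((4 * (A + 1) + 13 : ℕ) : ℝ) + 1) ≤ D := by linarith only [hD', hδ8, hA0]
  have d8 : 8 / δ ≤ D := by linarith only [hD', hCSB, hA0]
  have d17 : 20 * (2 * (A : ℝ) + 30) ≤ D := by linarith only [hD', hCSB, hδ8]
  clear hD' hCSB hδ8
  obtain ⟨B, hBd⟩ : ∃ B : ℕ, B = 4 * (A + 1) + 13 := ⟨_, rfl⟩
  obtain ⟨z, hz⟩ : ∃ z : ℕ, z = ⌈Real.log Q ^ (4 * (A + 1) + 13)⌉₊ := ⟨_, rfl⟩
  obtain ⟨hG, hdiff0⟩ := hmain Q H w hN hPar hyl z hz (by omega) b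
  have hdiff := hdiff0 k hk1 (by omega)
  clear hmain hdiff0
  obtain ⟨hTne, hX1, hSl, hvV, hv, hHe, hQ2, hwz, hz3, hzQ, hz2, hz1, hWe, hlog2H, hlog2H'⟩ := hG
  rw [← hBd] at hz2 hz1 d14 d15
  obtain ⟨l, hl⟩ : ∃ l : ℝ, l = Real.log Q := ⟨_, rfl⟩
  obtain ⟨y, hy⟩ : ∃ y : ℝ, y = Real.log H := ⟨_, rfl⟩
  rw [← hl] at hPar hyl hdiff hX1 hv hz2 hz1 ⊢
  rw [← hy] at hPar hyl hHe hlog2H hlog2H'
  have hkw : k ≤ w := by omega
  have hl1 := hPar.hl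
  have hl0 : 0 < l := by linarith only [hl1]
  have hlge := hPar.l_ge
  have hy30 := hPar.yl2
  have hwl := hPar.wl4
  have hll := hPar.ll
  have hlog30 : 30 ≤ Real.log l := hPar.hD.trans hPar.hDl
  have hDl' : D ≤ l := by
    linarith only [hPar.hDl, hll, hlog30]
  have hWp := Wp_ge w
  have hWp0 : 0 < Wp w := by linarith only [hWp]
  obtain ⟨P, hP⟩ : ∃ P : ℝ, P = l ^ (A + 1) := ⟨_, rfl⟩
  have hP1 : 1 ≤ P := by rw [hP]; exact one_le_pow₀ hl1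
  have hP0 : 0 < P := by linarith only [hP1]
  rw [← hP] at hdiff
  obtain ⟨u, hu⟩ : ∃ u : ℝ, u = Real.log (2 * H) := ⟨_, rfl⟩
  rw [← hu] at hlog2H hlog2H'
  have hu0 : 0 ≤ u := by linarith only [hlog2H', hy30, hl1]
  have hu1 : 1 ≤ u := by linarith only [hlog2H', hy30, hl1]
  have hWl : Wp w ≤ Real.exp (2 * (l / D)) := by
    refine hWe.trans (Real.exp_le_exp.2 ?_)
    linarith only [hPar.wl3]
  have h2u : (2 * u) ^ k ≤ Real.exp (3 * (l / D)) := by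
    refine le_trans (pow_le_pow_right₀ (by linarith only [hu1]) hkw) ?_
    exact hPar.logpow (n := w) le_rfl hu0 hlog2H
  have hU : u ^ k ≤ Real.exp (3 * (l / D)) := by
    refine le_trans ?_ h2u
    apply pow_le_pow_left₀ hu0
    linarith only [hu0]
  -- the bad tuples
  have hSz := Sz_le hPar (Sz := ∑ p ∈ pz z, 1 / (p : ℝ)) (C1 := CS) (B := B) (by
      have : (2 : ℝ) ≤ z := by exact_mod_cast hz3
      linarith only [this]) hz2 (by linarith only [hCS]) d14 (by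
      have := hES z hz3
      simpa using this)
  have hSz0 : 0 ≤ ∑ p ∈ pz z, 1 / (p : ℝ) := sum_nonneg fun _ _ => by positivity
  obtain ⟨r', hr'⟩ : ∃ r' : ℕ, r' = ⌈5 * K * (∑ p ∈ pz z, 1 / (p : ℝ)) + 3⌉₊ := ⟨_, rfl⟩
  have hKwr : 2 * (K : ℝ) ≤ w := by
    have : 2 * K ≤ w := by omega
    exact_mod_cast this
  have hB0 : (0 : ℝ) ≤ B := Nat.cast_nonneg _
  have hlow := low_cond hPar (B := B) (K := K) hK1 hKwr hz2 (by linarith only [d15, hB0]) hSz0 hSz hr' hX1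
  have hXW1 : Real.exp (l * Real.log l) ≤ ((H : ℝ) + 1) / Wp w := by
    refine hX1.trans ?_
    apply div_le_div_of_nonneg_right _ hWp0.le
    linarith only
  have htc := tail_cond hPar (n := w) rfl hz2 d15 hXW1
  have hHW1 : 1 ≤ (H : ℝ) / Wp w := by
    refine le_trans ?_ hX1
    exact Real.one_le_exp (by positivity)
  obtain ⟨τ, hτ⟩ : ∃ τ : ℝ, τ = (1 / P) * (H / Wp w) / 4 := ⟨_, rfl⟩
  have hsqP : √(1 / P ^ 2) = 1 / P := by
    rw [show 1 / P ^ 2 = (1 / P) ^ 2 by field_simp, Real.sqrt_sq (by positivity)]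
  have hbad := bad_T (Q := Q) hK1 hkK hKw hwz hTne htc hHW1 (by rw [hr']; exact Nat.le_ceil _) hlow
    (by positivity : 0 < 1 / P ^ 2) hdiff (τ := τ) (by rw [hsqP, hτ])
  rw [hsqP] at hbad
  have hkl : (k : ℝ) ≤ l := by
    have h1 : (k : ℝ) ≤ w := by exact_mod_cast hkw
    linarith only [h1, hwl]
  have hVw := Vz_pos w
  have hfin := bad_sets_gen hk1 b (M := (H : ℝ) ^ (1 - δ)) (τ := τ) (by rw [← hu]; exact hu1)
    (by positivity : 0 ≤ 740 * (1 / P)) ?_ ?_ hbad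
  · refine hfin.trans ?_
    apply mul_le_mul_of_nonneg_right _ (sum_nonneg fun _ _ => wt_nonneg _ _)
    rw [hP, pow_succ]
    have e : 2 * (740 * (1 / (l ^ A * l))) = (1480 / l) * (1 / l ^ A) := by
      field_simp
      norm_num
    rw [e]
    apply mul_le_of_le_one_left (by positivity)
    rw [div_le_one (by linarith only [hl1])]
    linarith only [hlge]
  · -- `M (log 2H)^k ≤ τ`
    rw [← hu]
    exact final_M hPar hδ hHe hP hWp0 hWl hU d17 d8 (pow_nonneg hu0 _) hτ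
  · -- `2 k² ≤ |S|`
    have h14 : ((2 * k ^ 2 : ℕ) : ℝ) ≤ ((Sb w b H).card : ℝ) :=
      final_k hPar hC1 hHe hVw hvV hv (hDC.trans hDl') hkl hSl
    exact_mod_cast h14

end Pool.Agent.E8helper91.PT
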