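import Pool.Agent.E8helper91.PT.T8b

set_option autoImplicit false

/-!
# Almost all admissible sets, with any power saving, in the full range of `k`
-/

open Finset Filter
open scoped Real

namespace Pool.Agent.E8helper91.PT

open Pool.Agent.R521.F6
open Pool.Agent.H373R2.T7 (pz Vz lamz mem_pz Vz_pos Vz_le_one)

open Classical in
/-- **almost all admissible sets, at a good scale** -/
theorem scale_adm_T {δ : ℝ} (hδ : 0 < δ) (A : ℕ) : ∃ c₁ : ℝ, 0 < c₁ ∧ (∀ Q0 : ℕ, ∃ Q, Q0 ≤ Q ∧ NRZ c₁ Q) ∧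
    ∃ D : ℝ, 30 ≤ D ∧
    ∀ Q H w K : ℕ, NRZ c₁ Q → Par D (Real.log Q) (Real.log H) w → Real.log H + 2 ≤ Real.log Q ^ 2 →
      1 ≤ K → 2 * K + 2 ≤ w →
      ∀ k : ℕ, 1 ≤ k → k ≤ K →
      ((((range (H + 1)).powersetCard k).filter (fun A' => Adm A' ∧ ((((Icc 1 H).filter
        (fun n => ∀ a ∈ A', (n + a).Prime)).card : ℕ) : ℝ) ≤ (H : ℝ) ^ (1 - δ))).card : ℝ) ≤
        1 / Real.log Q ^ A * (((range (H + 1)).powersetCard k).filter (fun A' => Adm A')).card := by
  obtain ⟨c₁, hc₁, hgood, D, hD, hmain⟩ := scale_T hδ A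
  refine ⟨c₁, hc₁, hgood, D, hD, fun Q H w K hN hPar hyl hK1 hKw k hk hkK => ?_⟩
  have hkw : k ≤ w := by omega
  have h1 : ∑ f ∈ (pz w).pi (fun p => range p), ∑ A' ∈ ((Sb w (bf w f) H).powersetCard k).filter
      (fun A' => ((((Icc 1 H).filter (fun n => ∀ a ∈ A', (n + a).Prime)).card : ℕ) : ℝ) ≤ (H : ℝ) ^ (1 - δ)), wt w A' ≤
      ∑ f ∈ (pz w).pi (fun p => range p), 1 / Real.log Q ^ A *
        ∑ A' ∈ (Sb w (bf w f) H).powersetCard k, wt w A' := by
    apply sum_le_sum
    intro f _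
    exact hmain Q H w K hN hPar hyl hK1 hKw (bf w f) k hk hkK
  have e3 : ∑ f ∈ (pz w).pi (fun p => range p), ∑ A' ∈ (Sb w (bf w f) H).powersetCard k, wt w A' =
      ((((range (H + 1)).powersetCard k).filter (fun A' => om w A' ≠ 0)).card : ℝ) := by
    have h := sum_bf (w := w) (H := H) (k := k) (fun _ => True)
    simp only [and_true, filter_true] at h
    exact h
  rw [← mul_sum, sum_bf, e3] at h1
  have e1 : ((range (H + 1)).powersetCard k).filter (fun A' => Adm A' ∧ ((((Icc 1 H).filter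
        (fun n => ∀ a ∈ A', (n + a).Prime)).card : ℕ) : ℝ) ≤ (H : ℝ) ^ (1 - δ)) =
      ((range (H + 1)).powersetCard k).filter (fun A' => om w A' ≠ 0 ∧ ((((Icc 1 H).filter
        (fun n => ∀ a ∈ A', (n + a).Prime)).card : ℕ) : ℝ) ≤ (H : ℝ) ^ (1 - δ)) := by
    apply filter_congr
    intro A' hA
    rw [adm_iff (w := w) (by rw [(mem_powersetCard.1 hA).2]; exact hkw)]
  have e2 : ((range (H + 1)).powersetCard k).filter (fun A' => Adm A') =
      ((range (H + 1)).powersetCard k).filter (fun A' => om w A' ≠ 0) := by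
    apply filter_congr
    intro A' hA
    rw [adm_iff (w := w) (by rw [(mem_powersetCard.1 hA).2]; exact hkw)]
  rw [e1, e2]
  exact h1

open Classical in
/-- **almost all admissible sets, for arbitrarily large `x`, with any power of the logarithm** -/
theorem main_adm_T {η : ℝ} (hη : 0 < η) (hη1 : η < 1) (A : ℕ) : ∃ c : ℝ, 0 < c ∧ ∀ X0 : ℝ, ∃ x : ℝ, X0 ≤ x ∧
    Real.exp 1 < x ∧ ∀ H : ℕ, x ^ η ≤ H → (H : ℝ) ≤ x → ∀ k : ℕ, 1 ≤ k →
      (k : ℝ) ≤ c * Real.log x / Real.log (Real.log x) ^ 2 →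
      ((((range (H + 1)).powersetCard k).filter (fun A' => Adm A' ∧ ((((Icc 1 H).filter
        (fun n => ∀ a ∈ A', (n + a).Prime)).card : ℕ) : ℝ) ≤ (H : ℝ) ^ (1 - η))).card : ℝ) ≤
        1 / Real.log x ^ A *
          (((range (H + 1)).powersetCard k).filter (fun A' => Adm A')).card := by
  obtain ⟨c₁, hc₁, hgood, D, hD30, hmain⟩ := scale_adm_T hη (2 * A)
  have hD0 : 0 < D := by linarith only [hD30]
  refine ⟨η / (8 * D ^ 2), by positivity, fun X0 => ?_⟩
  obtain ⟨l0, hl0⟩ := (ev_params D (2 * (D / η)) (by linarith only [hD30])).exists_forall_of_atTop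
  obtain ⟨Q, hQ, hN⟩ := hgood (max ⌈Real.exp l0⌉₊ (max ⌈Real.exp X0⌉₊ 2))
  obtain ⟨l, hl⟩ : ∃ l : ℝ, l = Real.log Q := ⟨_, rfl⟩
  have hQ2 : 2 ≤ Q := (le_max_right _ _).trans ((le_max_right _ _).trans hQ)
  have hQ0 : (0 : ℝ) < Q := by exact_mod_cast (by omega : 0 < Q)
  have hll0 : l0 ≤ l := by
    rw [hl, Real.le_log_iff_exp_le hQ0]
    exact (Nat.le_ceil _).trans (Nat.cast_le.2 ((le_max_left _ _).trans hQ))
  have hlX0 : X0 ≤ l := by
    rw [hl, Real.le_log_iff_exp_le hQ0]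
    exact (Nat.le_ceil _).trans (Nat.cast_le.2 ((le_max_left _ _).trans ((le_max_right _ _).trans hQ)))
  obtain ⟨g1, g2, g3⟩ := hl0 l hll0
  have hlog30 : 30 ≤ Real.log l := hD30.trans g1
  obtain ⟨X, hX⟩ : ∃ X : ℝ, X = D / η * (l * Real.log l) := ⟨_, rfl⟩
  have hDη : 1 ≤ D / η := by
    rw [le_div_iff₀ hη]
    linarith only [hη1, hD30]
  have hll : l ≤ l * Real.log l := by nlinarith only [g3, hlog30]
  have hXl : l * Real.log l ≤ X := by
    rw [hX]
    have : 0 ≤ l * Real.log l := by linarith only [hll, g3]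
    have := mul_le_mul_of_nonneg_right hDη this
    linarith only [this]
  have hX1 : 30 ≤ X := by nlinarith only [hXl, g3, hlog30]
  refine ⟨Real.exp X, ?_, ?_, ?_⟩
  · have := Real.add_one_le_exp X
    linarith only [this, hXl, hll, hlX0]
  · exact Real.exp_lt_exp.2 (by linarith only [hX1])
  · intro H hH1 hH2 k hk hkx
    rw [Real.log_exp] at hkx ⊢
    have hH0 : (0 : ℝ) < H := lt_of_lt_of_le (Real.rpow_pos_of_pos (Real.exp_pos _) _) hH1
    have hy1 : η * X ≤ Real.log H := by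
      rw [Real.le_log_iff_exp_le hH0]
      refine le_trans (le_of_eq ?_) hH1
      rw [← Real.exp_mul, mul_comm]
    have hy2 : Real.log H ≤ X := by
      rw [← Real.log_exp X]
      exact Real.log_le_log hH0 hH2
    have hηX : η * X = D * l * Real.log l := by
      rw [hX]
      field_simp
    have hlogX : Real.log l ≤ Real.log X := by
      apply Real.log_le_log (by linarith only [g3])
      linarith only [hXl, hll]
    have hlogX0 : 0 < Real.log X := by linarith only [hlogX, hlog30]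
    obtain ⟨R, hR⟩ : ∃ R : ℝ, R = η / D ^ 2 * X / Real.log X ^ 2 := ⟨_, rfl⟩
    have e8 : η / (8 * D ^ 2) * X / Real.log X ^ 2 = R / 8 := by
      rw [hR]
      field_simp
    rw [e8] at hkx
    have hk1 : (1 : ℝ) ≤ k := by exact_mod_cast hk
    have hR1 : 8 * (k : ℝ) ≤ R := by linarith only [hkx]
    obtain ⟨w, hw⟩ : ∃ w : ℕ, w = ⌊R⌋₊ := ⟨_, rfl⟩
    have hwR : (w : ℝ) ≤ R := by rw [hw]; exact Nat.floor_le (by linarith only [hR1, hk1])
    have hkw : 8 * k ≤ w := by
      rw [hw]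
      apply Nat.le_floor
      push_cast
      exact hR1
    have hw1 : 1 ≤ w := by omega
    have hw1' : (1 : ℝ) ≤ w := by exact_mod_cast hw1
    have hX1' : X + 1 + X ≤ l ^ 2 := by
      rw [hX]
      linarith only [g2]
    have hPar : Par D (Real.log Q) (Real.log H) w := by
      rw [← hl]
      refine ⟨hD30, g1, g3, by rw [← hηX]; exact hy1, by linarith only [hy2, hX1', hX1], ?_, hw1'⟩
      have h1 : (w : ℝ) ≤ η / D ^ 2 * X / Real.log l ^ 2 := by
        refine hwR.trans ?_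
        rw [hR]
        apply div_le_div_of_nonneg_left (by positivity) (by positivity)
        exact pow_le_pow_left₀ (by linarith only [hlog30]) hlogX 2
      have h2 : η / D ^ 2 * X / Real.log l ^ 2 = l / (D * Real.log l) := by
        rw [hX]
        field_simp
      rw [h2, le_div_iff₀ (by positivity)] at h1
      linarith only [h1]
    refine (hmain Q H w k hN hPar (by rw [← hl]; linarith only [hy2, hX1', hX1]) hk (by omega) k hk le_rfl).trans ?_
    apply mul_le_mul_of_nonneg_right _ (Nat.cast_nonneg _)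
    rw [← hl]
    apply one_div_le_one_div_of_le (by positivity)
    rw [pow_mul]
    apply pow_le_pow_left₀ (by linarith only [hX1])
    linarith only [hX1', hX1]

end Pool.Agent.E8helper91.PT
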